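import Pool.Agent.H39.OP.UDefs

/-!
# Job OP-B3 : relations inherit exactness

`φ` spans the forms of degree `d ≥ 1`.
(a) `gen_M`: if `LinM r M ρ`, `K ≥ ρ`, `m ∈ M (K + d)`, then `m = ∑ φ_j • m_j` with `m_j ∈ M K`.
PROOF. First `d = 1` version: for `m ∈ M (K' + 1)`, `K' ≥ ρ`, take `η = m` at `∅`, `0` elsewhere,
`i = 0`; `dU η = 0` (`aJ` of it vanishes: `insert s J ≠ ∅`).  So `m = ∑ s, X s • (aJ s ξ) ∅` with
`(aJ s ξ) ∅ = ± ξ {s} ∈ M K'`.  Iterating, `m ∈ span_ℂ {g • m' | g homogeneous of degree e, m' ∈ M K}`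
for `m ∈ M (K + e)`; for `e = d` write `g = ∑ c_j φ_j`.

(b) `N_lin`.
PROOF.  Let `η : Finset (Fin r) → (Fin N → 𝔽)` with values in `NM φ M (K + 1)`, `K ≥ ρ + 1`,
supported in card `i`, `dU η = 0`.  `K = K' + 1`, `K' ≥ ρ`.  (`dU` on `Fin N → 𝔽` is
componentwise.)  For every `j`, `η_j = fun J => η J j` satisfies the hypotheses of `LinM r M ρ`, so
there is `ξ_j` with values in `M K`, supported in card `i + 1`, `dU ξ_j = η_j`.
Let `θ = fun J => ∑ j, φ j • ξ_j J`, with values in `M (K + d) = M ((K + d - 1) + 1)`, supported in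
card `i + 1`, and `dU θ = ∑ j, φ j • η_j = 0`.  By `LinM r M ρ` there is `ζ` with values in
`M (K + d - 1) = M (K' + d)`, supported in card `i + 2`, `dU ζ = θ`.  By (a) choose for every `J`
of card `i + 2` elements `ζ'_j J ∈ M K'` with `∑ j, φ j • ζ'_j J = ζ J`, and `ζ'_j J = 0` for the
other `J`.  Then `ξ' J j = ξ_j J - dU ζ'_j J` has values in `M K` (`dU` raises the degree by one:
`GradM`), is supported in card `i + 1`, `dU ξ' = η` as `dU (dU ζ'_j) = 0` (prove `dU_dU` by the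
anticommutation `aJJ`), and `∑ j, φ j • ξ' J j = θ J - dU ζ J = 0`.
-/

set_option linter.unusedSectionVars false
set_option linter.unusedVariables false

open MvPolynomial

namespace Pool.Agent.H39.OP

open Pool.Agent.H27.OP

variable {r : ℕ} {𝔽 : Type*} [AddCommGroup 𝔽] [Module ℂ 𝔽]
  [Module (MvPolynomial (Fin r) ℂ) 𝔽] [IsScalarTower ℂ (MvPolynomial (Fin r) ℂ) 𝔽]

theorem UNlin_apply (η : Finset (Fin r) → 𝔽) (J : Finset (Fin r)) :
    dU η J = ∑ s : Fin r, (X s : MvPolynomial (Fin r) ℂ) • (aJ ℂ s η) J := rfl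

theorem UNlin_sub (η θ : Finset (Fin r) → 𝔽) : dU (η - θ) = dU η - dU θ := by
  funext J
  rw [Pi.sub_apply, UNlin_apply, UNlin_apply, UNlin_apply, ← Finset.sum_sub_distrib]
  refine Finset.sum_congr rfl fun s _ => ?_
  rw [map_sub, Pi.sub_apply, smul_sub]

theorem UNlin_aJ_P (s : Fin r) (g : MvPolynomial (Fin r) ℂ) (η : Finset (Fin r) → 𝔽)
    (J : Finset (Fin r)) : aJ ℂ s (fun J => g • η J) J = g • aJ ℂ s η J := by
  rw [aJ_apply, aJ_apply]
  split_ifs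
  · rw [smul_zero]
  · exact smul_comm _ _ _

theorem UNlin_sumP {N : ℕ} (φ : Fin N → MvPolynomial (Fin r) ℂ)
    (ξ : Fin N → Finset (Fin r) → 𝔽) :
    dU (fun J => ∑ j, φ j • ξ j J) = fun J => ∑ j, φ j • dU (ξ j) J := by
  funext J
  have h1 : ∀ s, aJ ℂ s (fun J => ∑ j, φ j • ξ j J) J = ∑ j, φ j • aJ ℂ s (ξ j) J := by
    intro s
    have h2 : (fun J => ∑ j, φ j • ξ j J) = ∑ j, (fun J => φ j • ξ j J) := by
      funext J
      rw [Finset.sum_apply]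
    rw [h2, map_sum, Finset.sum_apply]
    exact Finset.sum_congr rfl fun j _ => UNlin_aJ_P s (φ j) (ξ j) J
  rw [UNlin_apply]
  simp only [h1, Finset.smul_sum]
  rw [Finset.sum_comm]
  refine Finset.sum_congr rfl fun j _ => ?_
  rw [UNlin_apply, Finset.smul_sum]
  refine Finset.sum_congr rfl fun s _ => ?_
  rw [smul_smul, smul_smul, mul_comm]

theorem UNlin_dd (η : Finset (Fin r) → 𝔽) : dU (dU η) = 0 := by
  funext J
  have h1 : ∀ s, aJ ℂ s (dU η) J =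
      ∑ t, (X t : MvPolynomial (Fin r) ℂ) • aJ ℂ s (aJ ℂ t η) J := by
    intro s
    have h2 : dU η = ∑ t, (fun J => (X t : MvPolynomial (Fin r) ℂ) • aJ ℂ t η J) := by
      funext J
      rw [Finset.sum_apply]
      rfl
    rw [h2, map_sum, Finset.sum_apply]
    exact Finset.sum_congr rfl fun t _ => UNlin_aJ_P s (X t) (aJ ℂ t η) J
  have h2 : dU (dU η) J = ∑ s, ∑ t, ((X s * X t : MvPolynomial (Fin r) ℂ)) •
      aJ ℂ s (aJ ℂ t η) J := by
    rw [UNlin_apply]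
    refine Finset.sum_congr rfl fun s _ => ?_
    rw [h1, Finset.smul_sum]
    refine Finset.sum_congr rfl fun t _ => ?_
    rw [smul_smul]
  have h3 : ∑ s, ∑ t, ((X s * X t : MvPolynomial (Fin r) ℂ)) • aJ ℂ s (aJ ℂ t η) J =
      -∑ s, ∑ t, ((X s * X t : MvPolynomial (Fin r) ℂ)) • aJ ℂ s (aJ ℂ t η) J := by
    conv_lhs => rw [Finset.sum_comm]
    rw [← Finset.sum_neg_distrib]
    refine Finset.sum_congr rfl fun s _ => ?_
    rw [← Finset.sum_neg_distrib]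
    refine Finset.sum_congr rfl fun t _ => ?_
    have h4 : aJ ℂ t (aJ ℂ s η) = -(aJ ℂ s (aJ ℂ t η)) := by
      have h5 := LinearMap.congr_fun (aJJ (k := ℂ) (M := 𝔽) t s) η
      exact h5
    rw [h4, Pi.neg_apply, smul_neg, mul_comm]
  rw [h2]
  have h4 : (2 : ℂ) • (∑ s, ∑ t, ((X s * X t : MvPolynomial (Fin r) ℂ)) •
      aJ ℂ s (aJ ℂ t η) J) = 0 := by
    rw [two_smul]
    nth_rewrite 1 [h3]
    exact neg_add_cancel _
  have h5 := congrArg (fun z => (2 : ℂ)⁻¹ • z) h4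
  simpa [smul_smul] using h5

theorem UNlin_aJ_mem {M : ℕ → Submodule ℂ 𝔽} {K : ℕ} {η : Finset (Fin r) → 𝔽}
    (h : ∀ J, η J ∈ M K) (s : Fin r) (J : Finset (Fin r)) : aJ ℂ s η J ∈ M K := by
  rw [aJ_apply]
  split_ifs
  · exact zero_mem _
  · exact Submodule.smul_mem _ _ (h _)

theorem UNlin_deg {M : ℕ → Submodule ℂ 𝔽} (hM : GradM r M) {K : ℕ} {η : Finset (Fin r) → 𝔽}
    (h : ∀ J, η J ∈ M K) (J : Finset (Fin r)) : dU η J ∈ M (K + 1) := by
  rw [UNlin_apply]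
  exact Submodule.sum_mem _ fun s _ =>
    hM K 1 (X s) _ (isHomogeneous_X ℂ s) (UNlin_aJ_mem h s J)

theorem UNlin_card {i : ℕ} {η : Finset (Fin r) → 𝔽} (h : ∀ J, J.card ≠ i + 1 → η J = 0)
    (J : Finset (Fin r)) (hJ : J.card ≠ i) : dU η J = 0 := by
  rw [UNlin_apply]
  refine Finset.sum_eq_zero fun s _ => ?_
  rw [aJ_apply]
  split_ifs with hs
  · rw [smul_zero]
  · rw [h (insert s J) (by rw [Finset.card_insert_of_notMem hs]; omega), smul_zero, smul_zero]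

theorem UNlin_comp {N : ℕ} (η : Finset (Fin r) → (Fin N → 𝔽)) (j : Fin N)
    (J : Finset (Fin r)) : dU (fun J => η J j) J = dU η J j := by
  rw [UNlin_apply, UNlin_apply, Finset.sum_apply]
  refine Finset.sum_congr rfl fun s _ => ?_
  rw [Pi.smul_apply, aJ_apply, aJ_apply]
  split_ifs
  · rfl
  · rfl

theorem UNlin_gen1 {M : ℕ → Submodule ℂ 𝔽} {ρ : ℕ} (hl : LinM r M ρ) {K : ℕ} (hK : ρ ≤ K)
    {m : 𝔽} (hm : m ∈ M (K + 1)) :
    ∃ w : Fin r → 𝔽, (∀ s, w s ∈ M K) ∧ ∑ s, (X s : MvPolynomial (Fin r) ℂ) • w s = m := by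
  classical
  obtain ⟨η, hη⟩ : ∃ η : Finset (Fin r) → 𝔽, η = fun J => if J = ∅ then m else 0 := ⟨_, rfl⟩
  have h1 : ∀ J, η J ∈ M (K + 1) := by
    intro J
    rw [hη]
    dsimp only
    split_ifs
    · exact hm
    · exact zero_mem _
  have h2 : ∀ J, J.card ≠ 0 → η J = 0 := by
    intro J hJ
    rw [hη]
    exact if_neg (fun h0 => hJ (by rw [h0, Finset.card_empty]))
  have h3 : dU η = 0 := by
    funext J
    rw [UNlin_apply]
    refine Finset.sum_eq_zero fun s _ => ?_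
    rw [aJ_apply]
    split_ifs with hs
    · rw [smul_zero]
    · rw [h2 (insert s J) (by rw [Finset.card_insert_of_notMem hs]; omega), smul_zero, smul_zero]
  obtain ⟨ξ, hξ1, hξ2, hξ3⟩ := hl 0 K hK η h1 h2 h3
  refine ⟨fun s => aJ ℂ s ξ ∅, fun s => UNlin_aJ_mem hξ1 s ∅, ?_⟩
  have h4 := congrFun hξ3 ∅
  rw [UNlin_apply] at h4
  rw [h4, hη]
  exact if_pos rfl

theorem UNlin_span {M : ℕ → Submodule ℂ 𝔽} {ρ : ℕ} (hl : LinM r M ρ) {K : ℕ} (hK : ρ ≤ K)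
    (e : ℕ) : ∀ m ∈ M (K + e), m ∈ Submodule.span ℂ {x : 𝔽 |
      ∃ (g : MvPolynomial (Fin r) ℂ) (m' : 𝔽), g.IsHomogeneous e ∧ m' ∈ M K ∧ x = g • m'} := by
  induction e with
  | zero =>
    intro m hm
    exact Submodule.subset_span ⟨1, m, isHomogeneous_one _ _, hm, (one_smul _ m).symm⟩
  | succ e ih =>
    intro m hm
    obtain ⟨w, hw1, hw2⟩ := UNlin_gen1 hl (show ρ ≤ K + e by omega) (m := m) hm
    rw [← hw2]
    refine Submodule.sum_mem _ fun s _ => ?_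
    have h1 := ih (w s) (hw1 s)
    refine Submodule.span_induction (p := fun x _ =>
      (X s : MvPolynomial (Fin r) ℂ) • x ∈ Submodule.span ℂ {x : 𝔽 |
        ∃ (g : MvPolynomial (Fin r) ℂ) (m' : 𝔽), g.IsHomogeneous (e + 1) ∧ m' ∈ M K ∧
          x = g • m'}) ?_ ?_ ?_ ?_ h1
    · rintro x ⟨g, m', hg, hm', rfl⟩
      refine Submodule.subset_span ⟨g * X s, m', hg.mul (isHomogeneous_X ℂ s), hm', ?_⟩
      rw [smul_smul, mul_comm]
    · rw [smul_zero]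
      exact zero_mem _
    · intro x y _ _ hx hy
      rw [smul_add]
      exact add_mem hx hy
    · intro c x _ hx
      rw [smul_comm]
      exact Submodule.smul_mem _ _ hx

theorem gen_M {N d : ℕ} (φ : Fin N → MvPolynomial (Fin r) ℂ)
    (hsp : ∀ p : MvPolynomial (Fin r) ℂ, p.IsHomogeneous d → p ∈ Submodule.span ℂ (Set.range φ))
    {M : ℕ → Submodule ℂ 𝔽} (hM : GradM r M) {ρ : ℕ} (hl : LinM r M ρ) {K : ℕ} (hK : ρ ≤ K)
    {m : 𝔽} (hm : m ∈ M (K + d)) :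
    ∃ w : Fin N → 𝔽, (∀ j, w j ∈ M K) ∧ ∑ j, φ j • w j = m := by
  have h1 := UNlin_span hl hK d m hm
  refine Submodule.span_induction (p := fun x _ =>
    ∃ w : Fin N → 𝔽, (∀ j, w j ∈ M K) ∧ ∑ j, φ j • w j = x) ?_ ?_ ?_ ?_ h1
  · rintro x ⟨g, m', hg, hm', rfl⟩
    obtain ⟨c, hc⟩ := (Submodule.mem_span_range_iff_exists_fun ℂ).1 (hsp g hg)
    refine ⟨fun j => c j • m', fun j => Submodule.smul_mem _ _ hm', ?_⟩
    rw [← hc, Finset.sum_smul]
    refine Finset.sum_congr rfl fun j _ => ?_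
    rw [smul_comm, smul_assoc]
  · exact ⟨fun _ => 0, fun _ => zero_mem _, by simp⟩
  · rintro x y _ _ ⟨w, hw1, hw2⟩ ⟨w', hw1', hw2'⟩
    refine ⟨fun j => w j + w' j, fun j => add_mem (hw1 j) (hw1' j), ?_⟩
    rw [← hw2, ← hw2', ← Finset.sum_add_distrib]
    exact Finset.sum_congr rfl fun j _ => smul_add _ _ _
  · rintro c x _ ⟨w, hw1, hw2⟩
    refine ⟨fun j => c • w j, fun j => Submodule.smul_mem _ _ (hw1 j), ?_⟩
    rw [← hw2, Finset.smul_sum]
    exact Finset.sum_congr rfl fun j _ => smul_comm _ _ _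

theorem N_lin {N d : ℕ} (hd : 1 ≤ d) (φ : Fin N → MvPolynomial (Fin r) ℂ)
    (hφ : ∀ j, (φ j).IsHomogeneous d)
    (hsp : ∀ p : MvPolynomial (Fin r) ℂ, p.IsHomogeneous d → p ∈ Submodule.span ℂ (Set.range φ))
    {M : ℕ → Submodule ℂ 𝔽} (hM : GradM r M) {ρ : ℕ} (hl : LinM r M ρ) :
    LinM r (NM φ M) (ρ + 1) := by
  classical
  intro i K hK η hη hsupp hdU
  obtain ⟨K', rfl⟩ : ∃ K', K = K' + 1 := ⟨K - 1, by omega⟩
  have hK' : ρ ≤ K' := by omega
  have h1 : ∀ j : Fin N, ∃ ξ : Finset (Fin r) → 𝔽, (∀ J, ξ J ∈ M (K' + 1)) ∧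
      (∀ J, J.card ≠ i + 1 → ξ J = 0) ∧ dU ξ = fun J => η J j := by
    intro j
    refine hl i (K' + 1) (by omega) (fun J => η J j) (fun J => (hη J).1 j) ?_ ?_
    · intro J hJ
      show η J j = 0
      rw [hsupp J hJ]
      rfl
    · funext J
      rw [UNlin_comp, hdU]
      rfl
  choose ξ hξ1 hξ2 hξ3 using h1
  obtain ⟨θ, hθ⟩ : ∃ θ : Finset (Fin r) → 𝔽, θ = fun J => ∑ j, φ j • ξ j J := ⟨_, rfl⟩
  have hθ1 : ∀ J, θ J ∈ M (K' + d + 1) := by
    intro J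
    rw [hθ]
    refine Submodule.sum_mem _ fun j _ => ?_
    have h2 := hM (K' + 1) d (φ j) (ξ j J) (hφ j) (hξ1 j J)
    rw [show K' + d + 1 = K' + 1 + d by omega]
    exact h2
  have hθ2 : ∀ J, J.card ≠ i + 1 → θ J = 0 := by
    intro J hJ
    rw [hθ]
    refine Finset.sum_eq_zero fun j _ => ?_
    rw [hξ2 j J hJ, smul_zero]
  have hθ3 : dU θ = 0 := by
    rw [hθ, UNlin_sumP]
    funext J
    have h2 := (hη J).2
    refine Eq.trans (Finset.sum_congr rfl fun j _ => ?_) h2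
    rw [hξ3 j]
  obtain ⟨ζ, hζ1, hζ2, hζ3⟩ := hl (i + 1) (K' + d) (by omega) θ hθ1 hθ2 hθ3
  have h2 : ∀ J, ∃ w : Fin N → 𝔽, (∀ j, w j ∈ M K') ∧ ∑ j, φ j • w j = ζ J := fun J =>
    gen_M φ hsp hM hl hK' (hζ1 J)
  choose w hw1 hw2 using h2
  obtain ⟨ζ', hζ'⟩ : ∃ ζ' : Fin N → Finset (Fin r) → 𝔽,
      ζ' = fun j J => if J.card = i + 1 + 1 then w J j else 0 := ⟨_, rfl⟩
  have hz1 : ∀ j J, ζ' j J ∈ M K' := by
    intro j J
    rw [hζ']
    dsimp only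
    split_ifs
    · exact hw1 J j
    · exact zero_mem _
  have hz2 : ∀ j J, J.card ≠ i + 1 + 1 → ζ' j J = 0 := by
    intro j J hJ
    rw [hζ']
    exact if_neg hJ
  have hz3 : (fun J => ∑ j, φ j • ζ' j J) = ζ := by
    funext J
    by_cases hJ : J.card = i + 1 + 1
    · rw [← hw2 J]
      refine Finset.sum_congr rfl fun j _ => ?_
      rw [hζ']
      dsimp only
      rw [if_pos hJ]
    · rw [hζ2 J hJ]
      refine Finset.sum_eq_zero fun j _ => ?_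
      rw [hz2 j J hJ, smul_zero]
  refine ⟨fun J j => ξ j J - dU (ζ' j) J, ?_, ?_, ?_⟩
  · intro J
    refine ⟨fun j => sub_mem (hξ1 j J) (UNlin_deg hM (hz1 j) J), ?_⟩
    have h3 : ∑ j, φ j • dU (ζ' j) J = θ J := by
      have h4 := UNlin_sumP φ ζ'
      rw [hz3, hζ3] at h4
      exact (congrFun h4 J).symm
    have h5 : ∑ j, φ j • ξ j J = θ J := by rw [hθ]
    simp only [smul_sub, Finset.sum_sub_distrib]
    rw [h3, h5, sub_self]
  · intro J hJ
    funext j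
    show ξ j J - dU (ζ' j) J = 0
    rw [hξ2 j J hJ, UNlin_card (hz2 j) J hJ, sub_zero]
  · funext J j
    rw [← UNlin_comp]
    have h3 : (fun J => ξ j J - dU (ζ' j) J) = ξ j - dU (ζ' j) := rfl
    rw [h3, UNlin_sub, UNlin_dd, sub_zero, hξ3 j]

end Pool.Agent.H39.OP
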