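import Pool.Agent.H27.OP.Ring

/-!
# MP_85ff8f_ag: the cycles `c1`, `Cp` and their products (definitions)

`S : Fk σ k O d` is the operator algebra of the Koszul complex (`Pool/Agent/H27/OP/Ring.lean`).
* `c1 S b x z = x e_{bz} - z e_{bx}`.
* for slots `y : I → P` (forms of degree `d - 1`), a list `T` of linear forms and a finset `R` of
  slots, `Ep S y T R` is the antisymmetrisation over `T` of `∏_{i ∈ R} e_{y_i x}` and
  `Cp S y T R` the antisymmetrisation of `x_0 ∏_{i ∈ R} e_{y_i x}` (defined recursively along `T`;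
  nonzero only for `T.length = R.card`, `T.length = R.card + 1` respectively).
* `Pr S y l` is the product of the `Cp S y T R` over a list `l` of rows `(R, T)`.
-/

open MvPolynomial

namespace Pool.Agent.H39.OP

open Pool.Agent.H27.OP

variable {σ k : Type*} [Fintype σ] [Field k] {O : Type*} [Ring O] [Algebra k O] {d : ℕ}

/-- the linear cycle `x e_{bz} - z e_{bx}` as an operator -/
noncomputable def c1 (S : Fk σ k O d) (b x z : MvPolynomial σ k) : O :=
  S.m x * S.Ee (b * z) - S.m z * S.Ee (b * x)

variable {I : Type*} [DecidableEq I]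

/-- `Alt_T ∏_{i ∈ R} e_{y_i x}` -/
noncomputable def Ep (S : Fk σ k O d) (y : I → MvPolynomial σ k) :
    List (MvPolynomial σ k) → Finset I → O
  | [], R => if R = ∅ then 1 else 0
  | u :: T, R => ∑ i ∈ R, Ep S y T (R.erase i) * S.Ee (y i * u)

/-- `Alt_T x_0 ∏_{i ∈ R} e_{y_i x}` -/
noncomputable def Cp (S : Fk σ k O d) (y : I → MvPolynomial σ k) :
    List (MvPolynomial σ k) → Finset I → O
  | [], _ => 0
  | u :: T, R => (-1) ^ T.length * (S.m u * Ep S y T R)
      + ∑ i ∈ R, Cp S y T (R.erase i) * S.Ee (y i * u)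

/-- product over a list of rows -/
noncomputable def Pr (S : Fk σ k O d) (y : I → MvPolynomial σ k)
    (l : List (Finset I × List (MvPolynomial σ k))) : O :=
  (l.map fun r => Cp S y r.2 r.1).prod

lemma Ep_nil (S : Fk σ k O d) (y : I → MvPolynomial σ k) (R : Finset I) :
    Ep S y [] R = if R = ∅ then 1 else 0 := rfl

lemma Ep_cons (S : Fk σ k O d) (y : I → MvPolynomial σ k) (u : MvPolynomial σ k)
    (T : List (MvPolynomial σ k)) (R : Finset I) :
    Ep S y (u :: T) R = ∑ i ∈ R, Ep S y T (R.erase i) * S.Ee (y i * u) := rfl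

lemma Cp_nil (S : Fk σ k O d) (y : I → MvPolynomial σ k) (R : Finset I) :
    Cp S y [] R = 0 := rfl

lemma Cp_cons (S : Fk σ k O d) (y : I → MvPolynomial σ k) (u : MvPolynomial σ k)
    (T : List (MvPolynomial σ k)) (R : Finset I) :
    Cp S y (u :: T) R = (-1) ^ T.length * (S.m u * Ep S y T R)
      + ∑ i ∈ R, Cp S y T (R.erase i) * S.Ee (y i * u) := rfl

lemma Pr_nil (S : Fk σ k O d) (y : I → MvPolynomial σ k) : Pr S y [] = 1 := rfl

lemma Pr_cons (S : Fk σ k O d) (y : I → MvPolynomial σ k)
    (r : Finset I × List (MvPolynomial σ k)) (l : List (Finset I × List (MvPolynomial σ k))) :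
    Pr S y (r :: l) = Cp S y r.2 r.1 * Pr S y l := by
  simp [Pr]

lemma Pr_append (S : Fk σ k O d) (y : I → MvPolynomial σ k)
    (l l' : List (Finset I × List (MvPolynomial σ k))) :
    Pr S y (l ++ l') = Pr S y l * Pr S y l' := by
  simp [Pr]

/-- sum of the row lengths -/
def wt {I P : Type*} (l : List (Finset I × List P)) : ℕ := (l.map fun r => r.1.card).sum

lemma wt_cons {I P : Type*} (r : Finset I × List P) (l : List (Finset I × List P)) :
    wt (r :: l) = r.1.card + wt l := by simp [wt]

lemma wt_append {I P : Type*} (l l' : List (Finset I × List P)) :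
    wt (l ++ l') = wt l + wt l' := by simp [wt]

end Pool.Agent.H39.OP
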