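import Pool.Agent.H39.OP.UDefs

/-!
# Job OP-B4 : linear presentation

Every relation `∑ φ_j • v_j = 0` with `v_j ∈ M (K + 1)`, `K ≥ ρ`, is a combination of the obvious
ones `(b z) ⊗ x m - (b x) ⊗ z m`, `b` of degree `d - 1`, `x, z` linear, `m ∈ M K`; here
`p ⊗ m = fun j => co j p • m`.

PROOF.  Let `C` be the span on the right.  It suffices (`Submodule.exists_le_ker_of_notMem` or a
similar lemma) to show `θ v = 0` for every linear form `θ` on `Fin N → 𝔽` which vanishes on `C`.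
Put `Θ(p, m) = θ (fun j => co j p • m)`, bilinear on `P × 𝔽`.  Then
(1)_d `Θ(b z, x • m) = Θ(b x, z • m)` for `b` homogeneous of degree `d - 1`, `x, z` linear,
`m ∈ M K`, and `θ v = ∑ j, Θ(φ_j, v_j)` (because `co i (φ j) = δ_ij`).
Claim: for every `e ≤ d` there is a bilinear `Θ_e : P →ₗ 𝔽 →ₗ ℂ` with
 (1)_e `Θ_e(g z, x • m) = Θ_e(g x, z • m)` for `g` homogeneous of degree `e - 1`, `x, z` linear,
  `m ∈ M (K + (d - e))`, if `e ≥ 1`;
 (2)_e `Θ(g * q, m) = Θ_e(g, q • m)` for `g` homogeneous of degree `e`, `q` homogeneous of degree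
  `d - e` and `m ∈ M (K + 1)`.
Start `e = d`: `Θ_d = Θ` (`q` is a constant).  End `e = 0`: (2)_0 with `g = 1`, `q = φ_j` gives
`θ v = ∑ j Θ(φ_j, v_j) = Θ_0(1, ∑ j φ_j • v_j) = 0`.
Step from `e` to `e - 1` (`e ≥ 1`): let `k = K + (d - e) + 1` (so `k - 1 ≥ ρ`).  The `ℂ`-linear map
`(m_s)_s ↦ ∑ s, X s • m_s` from `Π_s M k` to `M (k + 1)` is onto (`LinM` with `i = 0`, see job B3
(a); prove it again here, it is short) ; it has a `ℂ`-linear section, and composing with a
projection `𝔽 → M (k + 1)` (`Submodule.exists_isCompl`, or `LinearMap.exists_leftInverse_of_injective`)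
we get a linear `σ : 𝔽 → (Fin r → 𝔽)` with `σ(m)_s ∈ M k` and `∑ X s • σ(m)_s = m` for
`m ∈ M (k + 1)`.  Put `Θ_{e-1}(g, m) = ∑ s, Θ_e(g * X s, σ(m)_s)`.
Kernel: if `m_s ∈ M k`, `∑ X s • m_s = 0` and `g` is homogeneous of degree `e - 1` then
`∑ s, Θ_e(g X_s, m_s) = 0`: apply `LinM` with `i = 1`, `K := k - 1 = K + (d - e)` to `η {s} = m_s`
(`0` on other sets; `dU η = 0`): there is `ξ` on two element sets with values in `M (k - 1)` and
`m_s = ∑_{s' ≠ s} ± X_{s'} • ξ {s, s'}`, the sign being antisymmetric in `(s, s')` (`aJ` sign of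
`insert s' {s}`; e.g. `(aJ s' ξ) {s} = - (aJ s ξ) {s'}`-type statement from `aJJ` at `∅`), and
`Θ_e(g X_s, X_{s'} • ξ)` is symmetric in `(s, s')` by (1)_e.  So the sum is `0`.
Hence for `x = ∑ c_s X_s` linear, `m ∈ M k`, `g` of degree `e - 1`:
(*) `Θ_{e-1}(g, x • m) = Θ_e(g x, m)` (apply the kernel statement to `σ(x m)_s - c_s • m`).
(1)_{e-1}: `Θ_{e-1}(g' z, x • m) = Θ_e(g' z x, m) = Θ_{e-1}(g' x, z • m)` for
`m ∈ M k = M (K + (d - (e - 1)))`.
(2)_{e-1}: for `q` of degree `d - e + 1`, by linearity `q = x q'` with `x = X s` a variable, `q'` of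
degree `d - e` (every form of positive degree is a combination of such), and
`Θ(g x q', m) = Θ_e(g x, q' • m) = Θ_{e-1}(g, x q' • m)` by (2)_e and (*) (`q' • m ∈ M k`).
-/

open MvPolynomial

namespace Pool.Agent.H39.OP

open Pool.Agent.H27.OP

variable {r : ℕ} {𝔽 : Type*} [AddCommGroup 𝔽] [Module ℂ 𝔽]
  [Module (MvPolynomial (Fin r) ℂ) 𝔽] [IsScalarTower ℂ (MvPolynomial (Fin r) ℂ) 𝔽]

/-- multiplication by a polynomial, as a `ℂ`-linear map -/
private noncomputable def UPresMul (p : MvPolynomial (Fin r) ℂ) : 𝔽 →ₗ[ℂ] 𝔽 where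
  toFun y := p • y
  map_add' x y := smul_add _ _ _
  map_smul' c y := by
    rw [RingHom.id_apply, ← algebraMap_smul (MvPolynomial (Fin r) ℂ) c y,
      ← algebraMap_smul (MvPolynomial (Fin r) ℂ) c (p • y), smul_smul, smul_smul, mul_comm]

private lemma UPres_smul_comm (p : MvPolynomial (Fin r) ℂ) (c : ℂ) (y : 𝔽) :
    p • (c • y) = c • (p • y) := (UPresMul (𝔽 := 𝔽) p).map_smul c y

private lemma UPres_C_smul (c : ℂ) (y : 𝔽) :
    (C c : MvPolynomial (Fin r) ℂ) • y = c • y :=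
  algebraMap_smul (MvPolynomial (Fin r) ℂ) c y

private lemma UPres_smul_smul (c : ℂ) (p : MvPolynomial (Fin r) ℂ) (y : 𝔽) :
    (c • p) • y = c • (p • y) := smul_assoc c p y

private lemma UPres_sgn_empty (s : Fin r) : sgn ℂ (∅ : Finset (Fin r)) s = 1 := by
  unfold sgn
  simp

private lemma UPres_aJ_empty (η : Finset (Fin r) → 𝔽) (s : Fin r) :
    aJ ℂ s η ∅ = η {s} := by
  rw [aJ_apply, if_neg (Finset.notMem_empty s), UPres_sgn_empty, one_smul]
  rfl

private lemma UPres_dU_empty (η : Finset (Fin r) → 𝔽) :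
    dU η ∅ = ∑ s : Fin r, (X s : MvPolynomial (Fin r) ℂ) • η {s} := by
  unfold dU
  exact Finset.sum_congr rfl fun s _ => by rw [UPres_aJ_empty]

/-- surjectivity -/
private lemma UPres_surj {M : ℕ → Submodule ℂ 𝔽} {ρ : ℕ} (hl : LinM r M ρ) {k : ℕ} (hk : ρ ≤ k)
    {m : 𝔽} (hm : m ∈ M (k + 1)) :
    ∃ w : Fin r → 𝔽, (∀ s, w s ∈ M k) ∧ ∑ s, (X s : MvPolynomial (Fin r) ℂ) • w s = m := by
  classical
  obtain ⟨ξ, h1, -, h3⟩ := hl 0 k hk (fun J => if J = ∅ then m else 0)
    (fun J => by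
      split_ifs
      · exact hm
      · exact zero_mem _)
    (fun J hJ => by
      rw [if_neg]
      rintro rfl
      exact hJ Finset.card_empty)
    (by
      funext J
      unfold dU
      refine Finset.sum_eq_zero fun s _ => ?_
      rw [aJ_apply]
      by_cases h : s ∈ J
      · rw [if_pos h, smul_zero]
      · rw [if_neg h, if_neg (Finset.insert_ne_empty s J), smul_zero, smul_zero])
  refine ⟨fun s => ξ {s}, fun s => h1 _, ?_⟩
  have h4 := congrFun h3 ∅
  rw [UPres_dU_empty] at h4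
  simpa using h4

/-- the linear section -/
private lemma UPres_section {M : ℕ → Submodule ℂ 𝔽} (hM : GradM r M) {ρ : ℕ} (hl : LinM r M ρ)
    {k : ℕ} (hk : ρ ≤ k) :
    ∃ σ : 𝔽 →ₗ[ℂ] (Fin r → 𝔽), (∀ m s, σ m s ∈ M k) ∧
      ∀ m ∈ M (k + 1), ∑ s, (X s : MvPolynomial (Fin r) ℂ) • σ m s = m := by
  classical
  have hmem : ∀ w : Fin r → M k,
      ∑ s, (X s : MvPolynomial (Fin r) ℂ) • ((w s : M k) : 𝔽) ∈ M (k + 1) := fun w =>
    Submodule.sum_mem _ fun s _ => hM k 1 _ _ (isHomogeneous_X ℂ s) (w s).2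
  let f : (Fin r → M k) →ₗ[ℂ] M (k + 1) :=
    { toFun := fun w => ⟨∑ s, (X s : MvPolynomial (Fin r) ℂ) • ((w s : M k) : 𝔽), hmem w⟩
      map_add' := by
        intro w w'
        apply Subtype.ext
        simp only [Pi.add_apply, Submodule.coe_add, smul_add, Finset.sum_add_distrib]
      map_smul' := by
        intro c w
        apply Subtype.ext
        simp only [Pi.smul_apply, Submodule.coe_smul, RingHom.id_apply, UPres_smul_comm,
          Finset.smul_sum] }
  have hf : ∀ w, ((f w : M (k + 1)) : 𝔽) =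
      ∑ s, (X s : MvPolynomial (Fin r) ℂ) • ((w s : M k) : 𝔽) := fun _ => rfl
  have hsurj : LinearMap.range f = ⊤ := by
    rw [LinearMap.range_eq_top]
    rintro ⟨m, hm⟩
    obtain ⟨w, h1, h2⟩ := UPres_surj hl hk hm
    exact ⟨fun s => ⟨w s, h1 s⟩, Subtype.ext h2⟩
  obtain ⟨g, hg⟩ := f.exists_rightInverse_of_surjective hsurj
  obtain ⟨g', hg'⟩ := LinearMap.exists_extend g
  refine ⟨LinearMap.pi fun s => (M k).subtype ∘ₗ (LinearMap.proj s) ∘ₗ g', fun m s => ?_,
    fun m hm => ?_⟩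
  · exact (g' m s).2
  · have h1 : g' m = g ⟨m, hm⟩ := by
      rw [← hg']
      rfl
    have h2 : f (g ⟨m, hm⟩) = ⟨m, hm⟩ := by
      have := congrArg (fun L => L ⟨m, hm⟩) hg
      simpa using this
    have h3 := hf (g ⟨m, hm⟩)
    rw [h2] at h3
    rw [show (∑ s, (X s : MvPolynomial (Fin r) ℂ) •
      (LinearMap.pi fun s => (M k).subtype ∘ₗ (LinearMap.proj s) ∘ₗ g') m s) =
      ∑ s, (X s : MvPolynomial (Fin r) ℂ) • ((g' m s : M k) : 𝔽) from rfl, h1]
    exact h3.symm

/-- the kernel statement -/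
private lemma UPres_ker {M : ℕ → Submodule ℂ 𝔽} {ρ : ℕ} (hl : LinM r M ρ) {k : ℕ} (hk : ρ ≤ k)
    (F : Fin r → 𝔽 →ₗ[ℂ] ℂ)
    (hF : ∀ s s' : Fin r, ∀ m ∈ M k, F s ((X s' : MvPolynomial (Fin r) ℂ) • m) =
      F s' ((X s : MvPolynomial (Fin r) ℂ) • m))
    (w : Fin r → 𝔽) (hw : ∀ s, w s ∈ M (k + 1))
    (h0 : ∑ s, (X s : MvPolynomial (Fin r) ℂ) • w s = 0) : ∑ s, F s (w s) = 0 := by
  classical
  set η : Finset (Fin r) → 𝔽 := fun J => ∑ s, if J = {s} then w s else 0 with hη
  have hη1 : ∀ s, η {s} = w s := by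
    intro s
    simp only [hη]
    rw [Finset.sum_eq_single s]
    · rw [if_pos rfl]
    · intro s' _ hs'
      rw [if_neg]
      intro h
      exact hs' (Finset.singleton_injective h).symm
    · intro h
      exact absurd (Finset.mem_univ s) h
  have hη2 : ∀ J : Finset (Fin r), J.card ≠ 1 → η J = 0 := by
    intro J hJ
    simp only [hη]
    refine Finset.sum_eq_zero fun s _ => ?_
    rw [if_neg]
    rintro rfl
    exact hJ (Finset.card_singleton s)
  obtain ⟨ξ, h1, -, h3⟩ := hl 1 k hk η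
    (fun J => by
      simp only [hη]
      refine Submodule.sum_mem _ fun s _ => ?_
      split_ifs
      · exact hw s
      · exact zero_mem _) hη2
    (by
      funext J
      by_cases hJ : J = ∅
      · rw [hJ, UPres_dU_empty]
        simp only [hη1]
        exact h0
      · unfold dU
        refine Finset.sum_eq_zero fun s _ => ?_
        rw [aJ_apply]
        split_ifs with h
        · rw [smul_zero]
        · rw [hη2, smul_zero, smul_zero]
          rw [Finset.card_insert_of_notMem h]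
          have := Finset.card_pos.mpr (Finset.nonempty_iff_ne_empty.mpr hJ)
          omega)
  have hc : ∀ s s', (aJ ℂ s' ξ) {s} = -((aJ ℂ s ξ) {s'}) := by
    intro s s'
    have h4 := congrArg (fun L : Module.End ℂ (Finset (Fin r) → 𝔽) => L ξ ∅)
      (aJJ (k := ℂ) (M := 𝔽) s s')
    simp only [Module.End.mul_apply, LinearMap.neg_apply, Pi.neg_apply] at h4
    rw [UPres_aJ_empty, UPres_aJ_empty] at h4
    exact h4
  have hcM : ∀ s s', (aJ ℂ s' ξ) {s} ∈ M k := by
    intro s s'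
    rw [aJ_apply]
    split_ifs
    · exact zero_mem _
    · exact Submodule.smul_mem _ _ (h1 _)
  have hws : ∀ s, w s = ∑ s', (X s' : MvPolynomial (Fin r) ℂ) • (aJ ℂ s' ξ) {s} := by
    intro s
    rw [← hη1 s, ← h3]
    rfl
  have hS : ∑ s, F s (w s) = ∑ s, ∑ s', F s ((X s' : MvPolynomial (Fin r) ℂ) • (aJ ℂ s' ξ) {s}) := by
    refine Finset.sum_congr rfl fun s _ => ?_
    rw [hws s, map_sum]
  have hneg : ∑ s, ∑ s', F s ((X s' : MvPolynomial (Fin r) ℂ) • (aJ ℂ s' ξ) {s}) =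
      -∑ s, ∑ s', F s ((X s' : MvPolynomial (Fin r) ℂ) • (aJ ℂ s' ξ) {s}) := by
    conv_lhs => rw [Finset.sum_comm]
    rw [← Finset.sum_neg_distrib]
    refine Finset.sum_congr rfl fun s' _ => ?_
    rw [← Finset.sum_neg_distrib]
    refine Finset.sum_congr rfl fun s _ => ?_
    rw [hF s s' _ (hcM s s'), hc s s', smul_neg, map_neg]
  rw [hS]
  exact self_eq_neg.mp hneg

/-- a form of degree one is a combination of the variables -/
private lemma UPres_lin {x : MvPolynomial (Fin r) ℂ} (hx : x.IsHomogeneous 1) :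
    x = ∑ s, coeff (Finsupp.single s 1) x • (X s : MvPolynomial (Fin r) ℂ) := by
  classical
  have h1 := hx.sum_X_mul_pderiv
  rw [one_smul] at h1
  have h2 : ∀ s, pderiv s x = C (coeff (Finsupp.single s 1) x) := by
    intro s
    have h3 := hx.pderiv (i := s)
    have h4 : (pderiv s x).totalDegree = 0 := Nat.le_zero.mp h3.totalDegree_le
    rw [totalDegree_eq_zero_iff_eq_C] at h4
    rw [h4]
    congr 1
    rw [coeff_pderiv]
    simp
  conv_lhs => rw [← h1]
  refine Finset.sum_congr rfl fun s _ => ?_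
  rw [h2 s, smul_eq_C_mul, mul_comm]

private lemma UPres_claim {d : ℕ} (hd : 1 ≤ d)
    {M : ℕ → Submodule ℂ 𝔽} (hM : GradM r M) {ρ : ℕ} (hl : LinM r M ρ) {K : ℕ} (hK : ρ ≤ K)
    (Θ : MvPolynomial (Fin r) ℂ →ₗ[ℂ] 𝔽 →ₗ[ℂ] ℂ)
    (h1 : ∀ (b x z : MvPolynomial (Fin r) ℂ) (m : 𝔽), b.IsHomogeneous (d - 1) →
      x.IsHomogeneous 1 → z.IsHomogeneous 1 → m ∈ M K → Θ (b * z) (x • m) = Θ (b * x) (z • m)) :
    ∀ n e : ℕ, e + n = d → ∃ T : MvPolynomial (Fin r) ℂ →ₗ[ℂ] 𝔽 →ₗ[ℂ] ℂ,
      (∀ (g x z : MvPolynomial (Fin r) ℂ) (m : 𝔽), 1 ≤ e → g.IsHomogeneous (e - 1) →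
        x.IsHomogeneous 1 → z.IsHomogeneous 1 → m ∈ M (K + n) →
        T (g * z) (x • m) = T (g * x) (z • m)) ∧
      (∀ (g q : MvPolynomial (Fin r) ℂ) (m : 𝔽), g.IsHomogeneous e → q.IsHomogeneous n →
        m ∈ M (K + 1) → Θ (g * q) m = T g (q • m)) := by
  intro n
  induction n with
  | zero =>
    intro e he
    rw [add_zero] at he
    subst he
    refine ⟨Θ, fun g x z m _ hg hx hz hm => h1 g x z m hg hx hz hm, fun g q m hg hq hm => ?_⟩
    have h4 : q.totalDegree = 0 := Nat.le_zero.mp hq.totalDegree_le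
    rw [totalDegree_eq_zero_iff_eq_C] at h4
    rw [h4, UPres_C_smul, map_smul, mul_comm, ← smul_eq_C_mul, map_smul, LinearMap.smul_apply]
  | succ n ih =>
    intro e he
    obtain ⟨T, hA, hB⟩ := ih (e + 1) (by omega)
    obtain ⟨σ, hσ1, hσ2⟩ := UPres_section hM hl (k := K + n + 1) (by omega)
    set T' : MvPolynomial (Fin r) ℂ →ₗ[ℂ] 𝔽 →ₗ[ℂ] ℂ := ∑ s : Fin r,
      T.compl₁₂ (LinearMap.mulRight ℂ (X s : MvPolynomial (Fin r) ℂ))
        ((LinearMap.proj s : (Fin r → 𝔽) →ₗ[ℂ] 𝔽) ∘ₗ σ) with hT'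
    have hT'a : ∀ g m, T' g m = ∑ s : Fin r, T (g * X s) (σ m s) := by
      intro g m
      simp only [hT', LinearMap.sum_apply, LinearMap.compl₁₂_apply, LinearMap.mulRight_apply,
        LinearMap.comp_apply, LinearMap.proj_apply]
    have hstar : ∀ (g x : MvPolynomial (Fin r) ℂ) (m : 𝔽), g.IsHomogeneous e →
        x.IsHomogeneous 1 → m ∈ M (K + n + 1) → T' g (x • m) = T (g * x) m := by
      intro g x m hg hx hm
      have hxm : x • m ∈ M (K + n + 1 + 1) := hM _ 1 _ _ hx hm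
      have h2 := hσ2 _ hxm
      have hxs := UPres_lin hx
      set c : Fin r → ℂ := fun s => coeff (Finsupp.single s 1) x with hc
      have h3 := UPres_ker hl (k := K + n) (by omega) (fun s => T (g * X s))
        (fun s s' y hy => hA g (X s') (X s) y (by omega) (by simpa using hg)
          (isHomogeneous_X ℂ s') (isHomogeneous_X ℂ s) hy)
        (fun s => σ (x • m) s - c s • m)
        (fun s => Submodule.sub_mem _ (hσ1 _ _) (Submodule.smul_mem _ _ hm))
        (by
          simp only [smul_sub, Finset.sum_sub_distrib, h2]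
          rw [sub_eq_zero]
          conv_lhs => rw [hxs]
          rw [Finset.sum_smul]
          refine Finset.sum_congr rfl fun s _ => ?_
          rw [UPres_smul_smul, UPres_smul_comm])
      simp only [map_sub, Finset.sum_sub_distrib, map_smul] at h3
      rw [hT'a, sub_eq_zero.mp h3]
      conv_rhs => rw [hxs]
      rw [Finset.mul_sum, map_sum, LinearMap.sum_apply]
      refine Finset.sum_congr rfl fun s _ => ?_
      rw [mul_smul_comm, map_smul, LinearMap.smul_apply]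
    refine ⟨T', fun g x z m he1 hg hx hz hm => ?_, fun g q m hg hq hm => ?_⟩
    · have hgz : (g * z).IsHomogeneous e := by
        have := hg.mul hz
        rwa [Nat.sub_add_cancel he1] at this
      have hgx : (g * x).IsHomogeneous e := by
        have := hg.mul hx
        rwa [Nat.sub_add_cancel he1] at this
      rw [hstar _ _ _ hgz hx hm, hstar _ _ _ hgx hz hm, mul_assoc, mul_assoc, mul_comm z x]
    · -- reduce to monomials
      have key : ∀ (μ : Fin r →₀ ℕ) (c : ℂ), μ.degree = n + 1 →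
          Θ (g * monomial μ c) m = T' g ((monomial μ c : MvPolynomial (Fin r) ℂ) • m) := by
        intro μ c hμ
        have hμ0 : μ ≠ 0 := by
          rintro rfl
          simp at hμ
        obtain ⟨s, hs⟩ := Finsupp.ne_iff.mp hμ0
        rw [Finsupp.coe_zero, Pi.zero_apply] at hs
        have hμs : Finsupp.single s 1 + (μ - Finsupp.single s 1) = μ := by
          rw [add_comm]
          refine tsub_add_cancel_of_le ?_
          rw [Finsupp.single_le_iff]
          omega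
        have hmon : (monomial μ c : MvPolynomial (Fin r) ℂ) =
            X s * monomial (μ - Finsupp.single s 1) c := by
          rw [X, monomial_mul, one_mul, hμs]
        have hdeg : (μ - Finsupp.single s 1).degree = n := by
          have h5 := congrArg Finsupp.degree hμs
          rw [map_add, Finsupp.degree_single, hμ] at h5
          omega
        have hq' : (monomial (μ - Finsupp.single s 1) c :
            MvPolynomial (Fin r) ℂ).IsHomogeneous n := isHomogeneous_monomial _ hdeg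
        have hgX : (g * X s).IsHomogeneous (e + 1) := hg.mul (isHomogeneous_X ℂ s)
        have hm' : (monomial (μ - Finsupp.single s 1) c : MvPolynomial (Fin r) ℂ) • m ∈
            M (K + n + 1) := by
          have := hM (K + 1) n _ _ hq' hm
          rwa [show K + 1 + n = K + n + 1 by ring] at this
        rw [hmon, ← mul_assoc, hB _ _ _ hgX hq' hm, mul_smul,
          hstar _ _ _ hg (isHomogeneous_X ℂ s) hm']
      conv_lhs => rw [as_sum q]
      conv_rhs => rw [as_sum q]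
      rw [Finset.mul_sum, map_sum, LinearMap.sum_apply, Finset.sum_smul, map_sum]
      refine Finset.sum_congr rfl fun μ hμ => key μ _ ?_
      rw [Finsupp.degree_eq_weight_one]
      exact hq (mem_support_iff.mp hμ)

theorem N_pres {N d : ℕ} (hd : 1 ≤ d) (φ : Fin N → MvPolynomial (Fin r) ℂ)
    (hφ : ∀ j, (φ j).IsHomogeneous d)
    (co : Fin N → MvPolynomial (Fin r) ℂ →ₗ[ℂ] ℂ)
    (hco : ∀ p : MvPolynomial (Fin r) ℂ, p.IsHomogeneous d → ∑ j, co j p • φ j = p)
    (hco2 : ∀ i j, co i (φ j) = if i = j then 1 else 0)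
    {M : ℕ → Submodule ℂ 𝔽} (hM : GradM r M) {ρ : ℕ} (hl : LinM r M ρ) {K : ℕ} (hK : ρ ≤ K)
    {v : Fin N → 𝔽} (hv : v ∈ NM φ M (K + 1)) :
    v ∈ Submodule.span ℂ {w : Fin N → 𝔽 | ∃ (b x z : MvPolynomial (Fin r) ℂ) (m : 𝔽),
      b.IsHomogeneous (d - 1) ∧ x.IsHomogeneous 1 ∧ z.IsHomogeneous 1 ∧ m ∈ M K ∧
      w = fun j => co j (b * z) • (x • m) - co j (b * x) • (z • m)} := by
  classical
  by_contra hcon
  obtain ⟨θ, hθv, hθC⟩ := Submodule.exists_le_ker_of_notMem hcon
  obtain ⟨hvM, hv0⟩ := mem_NM.mp hv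
  set Θ : MvPolynomial (Fin r) ℂ →ₗ[ℂ] 𝔽 →ₗ[ℂ] ℂ := ∑ j : Fin N,
    (co j).smulRight (θ ∘ₗ LinearMap.single ℂ (fun _ : Fin N => 𝔽) j) with hΘ
  have hΘa : ∀ p m, Θ p m = ∑ j : Fin N, co j p * θ (Pi.single j m) := by
    intro p m
    simp only [hΘ, LinearMap.sum_apply, LinearMap.smulRight_apply, LinearMap.smul_apply,
      LinearMap.comp_apply, LinearMap.single_apply, smul_eq_mul]
  have hsum : ∀ w : Fin N → 𝔽, θ w = ∑ j : Fin N, θ (Pi.single j (w j)) := by
    intro w
    rw [← map_sum, Finset.univ_sum_single]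
  have hΘb : ∀ p m, Θ p m = θ (fun j => co j p • m) := by
    intro p m
    rw [hΘa, hsum]
    refine Finset.sum_congr rfl fun j _ => ?_
    rw [← smul_eq_mul, ← map_smul, ← Pi.single_smul]
  have h1 : ∀ (b x z : MvPolynomial (Fin r) ℂ) (m : 𝔽), b.IsHomogeneous (d - 1) →
      x.IsHomogeneous 1 → z.IsHomogeneous 1 → m ∈ M K →
      Θ (b * z) (x • m) = Θ (b * x) (z • m) := by
    intro b x z m hb hx hz hm
    have h2 : (fun j => co j (b * z) • (x • m) - co j (b * x) • (z • m)) ∈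
        LinearMap.ker θ := hθC (Submodule.subset_span ⟨b, x, z, m, hb, hx, hz, hm, rfl⟩)
    rw [LinearMap.mem_ker] at h2
    have h3 : (fun j => co j (b * z) • (x • m) - co j (b * x) • (z • m)) =
        (fun j => co j (b * z) • (x • m)) - fun j => co j (b * x) • (z • m) := rfl
    rw [h3, map_sub, sub_eq_zero] at h2
    rw [hΘb, hΘb]
    exact h2
  obtain ⟨T, -, hB⟩ := UPres_claim hd hM hl hK Θ h1 d 0 (by omega)
  refine hθv ?_
  have h2 : ∀ j, Θ (φ j) (v j) = θ (Pi.single j (v j)) := by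
    intro j
    rw [hΘa, Finset.sum_eq_single j]
    · rw [hco2, if_pos rfl, one_mul]
    · intro i _ hij
      rw [hco2, if_neg hij, zero_mul]
    · intro h
      exact absurd (Finset.mem_univ j) h
  rw [hsum]
  calc ∑ j, θ (Pi.single j (v j)) = ∑ j, T 1 (φ j • v j) := by
        refine Finset.sum_congr rfl fun j _ => ?_
        rw [← h2 j, ← hB 1 (φ j) (v j) (isHomogeneous_one _ _) (hφ j) (hvM j), one_mul]
    _ = T 1 (∑ j, φ j • v j) := by rw [map_sum]
    _ = 0 := by rw [hv0, map_zero]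

end Pool.Agent.H39.OP
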