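import Pool.Agent.H39.OP.UBase
import Pool.Agent.H39.OP.UNlin
import Pool.Agent.H39.OP.UPres
import Pool.Agent.H39.OP.C1

/-!
# Job OP-B5 : Koszul cycles in high coefficient degree are products of linear ones

`ZK B a K`: cycles in `Λ^a V ⊗ S_K`.  All with the operators of
`Pool/Agent/H27/OP/{Ring,Car,Inst}.lean`; `P = MvPolynomial (Fin r) ℂ`,
`F = Finset (Fin N) → P` is a `P`-module pointwise.

(a) `ZK_lin : LinM r (ZK B a) a`.
PROOF by induction on `a`.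
`a = 0`: elements of `ZK B 0 K` are functions supported at `∅` with `f ∅` homogeneous of degree `K`
(`del` of such a function is `0`).  Transport from `lin_base`: given `η`, apply `lin_base` to
`fun J => η J ∅` and put `ξ J = fun I => if I = ∅ then ξ' J else 0`.
`a → a + 1`: by induction and `N_lin`, `LinM r (NM B.φ (ZK B a)) (a + 1)` (`hd` needed).
Let `η` have values in `ZK B (a + 1) (K + 1)`, `K ≥ a + 1`, `dU η = 0`.  Put
`η' J = fun j => aJ ℂ j (η J) ∈ NM B.φ (ZK B a) (K + 1)`: `aJ` lowers the exterior degree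
(`aJ_GK`), `aJ j` anticommutes with `del` (`SK_del` and `aJJ`; or `Fk.del_J` and
`aJ j = ∑ μ, α μ j • J μ`), so `aJ j` of a cycle is a cycle, and
`∑ j, φ j • aJ j κ = del κ = 0` (`SK_del`).  `dU η' = 0` since `aJ j` is `P`-linear.  Get `ξ'` with
values in `NM B.φ (ZK B a) K`, `dU ξ' = η'`.  Put `ξ J = (a + 1)⁻¹ • ∑ j, aE ℂ j (ξ' J j)`.
For `v ∈ NM B.φ (ZK B a) K`, `∑ j, aE j (v j)` is in `ZK B (a + 1) K`:
`del (aE j v_j) = φ j • v_j - aE j (del v_j)`, so the sum is `∑ φ j • v_j - 0 = 0`.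
And `dU ξ = (a+1)⁻¹ ∑ j aE j (η' · j) = (a+1)⁻¹ ∑ j aE j (aJ j (η ·)) = η` (`sum_aE_aJ`).

(b) `ZK_step`: for `K ≥ a`, `κ ∈ ZK B (a + 1) (K + 1)` is in the span of the `c1 b x z κ'`,
`κ' ∈ ZK B a K`.
PROOF. `v = fun j => aJ ℂ j κ ∈ NM B.φ (ZK B a) (K + 1)`.  By `N_pres` with
`co i p = ∑ μ ∈ Mo d, coeff μ p * B.α μ i` (hypotheses from `B.ag`, `B.ga`, `B.gas`, `B.coe`,
`sum_coeff`), `v` is in the span of `j ↦ co j (b z) • (x • m) - co j (b x) • (z • m)`.  Apply the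
linear map `w ↦ ∑ j, aE j (w j)`: the image of the generator is
`Ee (b z) (x • m) - Ee (b x) (z • m) = c1 b x z m` since `Ee p = ∑ i, co i p • aE i` (`SK_E`,
`Fk.Ee_apply`), and the image of `v` is `(a + 1) • κ`.
-/

open MvPolynomial

namespace Pool.Agent.H39.OP

open Pool.Agent.H27.OP

variable {r N d : ℕ}

/-- Koszul cycles of exterior degree `a` and coefficient degree `K` -/
noncomputable def ZK (B : Bs (Fin r) ℂ N d) (a K : ℕ) :
    Submodule ℂ (Finset (Fin N) → MvPolynomial (Fin r) ℂ) :=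
  GK (Fin r) ℂ N a K ⊓ LinearMap.ker (SK B).del

/-! ### auxiliary lemmas -/

theorem F1_del_eq (B : Bs (Fin r) ℂ N d) (f : Finset (Fin N) → MvPolynomial (Fin r) ℂ) :
    (SK B).del f = ∑ i, B.φ i • aJ ℂ i f := by
  funext I
  rw [SK_del, Finset.sum_apply]
  rfl

theorem F1_aE_smul (i : Fin N) (g : MvPolynomial (Fin r) ℂ)
    (f : Finset (Fin N) → MvPolynomial (Fin r) ℂ) :
    aE ℂ i (g • f) = g • aE ℂ i f := by
  funext I
  rw [aE_apply, Pi.smul_apply, Pi.smul_apply, aE_apply]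
  split_ifs
  · rw [smul_comm]
  · rw [smul_zero]

theorem F1_aJ_smul (i : Fin N) (g : MvPolynomial (Fin r) ℂ)
    (f : Finset (Fin N) → MvPolynomial (Fin r) ℂ) :
    aJ ℂ i (g • f) = g • aJ ℂ i f := by
  funext I
  rw [aJ_apply, Pi.smul_apply, Pi.smul_apply, aJ_apply]
  split_ifs
  · rw [smul_zero]
  · rw [smul_comm]

theorem F1_del_smul (B : Bs (Fin r) ℂ N d) (g : MvPolynomial (Fin r) ℂ)
    (f : Finset (Fin N) → MvPolynomial (Fin r) ℂ) :
    (SK B).del (g • f) = g • (SK B).del f := by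
  rw [F1_del_eq, F1_del_eq, Finset.smul_sum]
  refine Finset.sum_congr rfl fun i _ => ?_
  rw [F1_aJ_smul, smul_comm]

theorem F1_aJaJ (i j : Fin N) (f : Finset (Fin N) → MvPolynomial (Fin r) ℂ) :
    aJ ℂ i (aJ ℂ j f) = -aJ ℂ j (aJ ℂ i f) := by
  have h := LinearMap.congr_fun
    (aJJ i j (k := ℂ) (M := MvPolynomial (Fin r) ℂ)) f
  simpa using h

theorem F1_del_aJ (B : Bs (Fin r) ℂ N d) (j : Fin N)
    (f : Finset (Fin N) → MvPolynomial (Fin r) ℂ) :
    (SK B).del (aJ ℂ j f) = -aJ ℂ j ((SK B).del f) := by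
  rw [F1_del_eq, F1_del_eq, map_sum, ← Finset.sum_neg_distrib]
  refine Finset.sum_congr rfl fun i _ => ?_
  rw [F1_aJ_smul, F1_aJaJ, smul_neg]

theorem F1_aJaE (i j : Fin N) (f : Finset (Fin N) → MvPolynomial (Fin r) ℂ) :
    aJ ℂ i (aE ℂ j f) = (if i = j then f else 0) - aE ℂ j (aJ ℂ i f) := by
  by_cases hij : i = j
  · subst hij
    have h := LinearMap.congr_fun (aJEs i (k := ℂ) (M := MvPolynomial (Fin r) ℂ)) f
    rw [if_pos rfl]
    simpa using h
  · have h := LinearMap.congr_fun (aJE hij (k := ℂ) (M := MvPolynomial (Fin r) ℂ)) f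
    rw [if_neg hij, zero_sub]
    simpa using h

theorem F1_del_aE (B : Bs (Fin r) ℂ N d) (j : Fin N)
    (f : Finset (Fin N) → MvPolynomial (Fin r) ℂ) :
    (SK B).del (aE ℂ j f) = B.φ j • f - aE ℂ j ((SK B).del f) := by
  rw [F1_del_eq, F1_del_eq, map_sum]
  have h : ∀ i ∈ (Finset.univ : Finset (Fin N)), B.φ i • aJ ℂ i (aE ℂ j f)
      = (if i = j then B.φ j • f else 0) - aE ℂ j (B.φ i • aJ ℂ i f) := by
    intro i _
    rw [F1_aJaE, F1_aE_smul, smul_sub]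
    by_cases hij : i = j
    · subst hij
      rw [if_pos rfl, if_pos rfl]
    · rw [if_neg hij, if_neg hij, smul_zero]
  rw [Finset.sum_congr rfl h, Finset.sum_sub_distrib, Finset.sum_ite_eq',
    if_pos (Finset.mem_univ _)]

/-- `aJ` as a `P`-linear map -/
noncomputable def F1_J (i : Fin N) :
    (Finset (Fin N) → MvPolynomial (Fin r) ℂ) →ₗ[MvPolynomial (Fin r) ℂ]
      (Finset (Fin N) → MvPolynomial (Fin r) ℂ) where
  toFun := aJ ℂ i
  map_add' := map_add _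
  map_smul' g f := F1_aJ_smul i g f

/-- `aE` as a `P`-linear map -/
noncomputable def F1_E (i : Fin N) :
    (Finset (Fin N) → MvPolynomial (Fin r) ℂ) →ₗ[MvPolynomial (Fin r) ℂ]
      (Finset (Fin N) → MvPolynomial (Fin r) ℂ) where
  toFun := aE ℂ i
  map_add' := map_add _
  map_smul' g f := F1_aE_smul i g f

theorem F1_dU_map {A A' : Type*} [AddCommGroup A] [Module ℂ A]
    [Module (MvPolynomial (Fin r) ℂ) A] [IsScalarTower ℂ (MvPolynomial (Fin r) ℂ) A]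
    [AddCommGroup A'] [Module ℂ A'] [Module (MvPolynomial (Fin r) ℂ) A']
    [IsScalarTower ℂ (MvPolynomial (Fin r) ℂ) A']
    (L : A →ₗ[MvPolynomial (Fin r) ℂ] A') (η : Finset (Fin r) → A) (J : Finset (Fin r)) :
    dU (fun J => L (η J)) J = L (dU η J) := by
  unfold dU
  rw [map_sum]
  refine Finset.sum_congr rfl fun s _ => ?_
  rw [map_smul, aJ_apply, aJ_apply]
  split_ifs
  · rw [map_zero]
  · rw [LinearMap.map_smul_of_tower]

theorem F1_mem_ZK (B : Bs (Fin r) ℂ N d) {a K : ℕ}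
    {f : Finset (Fin N) → MvPolynomial (Fin r) ℂ} :
    f ∈ ZK B a K ↔ f ∈ GK (Fin r) ℂ N a K ∧ (SK B).del f = 0 := by
  unfold ZK
  rw [Submodule.mem_inf, LinearMap.mem_ker]

theorem F1_nm (B : Bs (Fin r) ℂ N d) {a K : ℕ}
    {κ : Finset (Fin N) → MvPolynomial (Fin r) ℂ} (hκ : κ ∈ ZK B (a + 1) K) :
    (fun j => aJ ℂ j κ) ∈ NM B.φ (ZK B a) K := by
  rw [F1_mem_ZK] at hκ
  refine ⟨fun j => ?_, ?_⟩
  · rw [F1_mem_ZK]
    refine ⟨aJ_GK hκ.1 j, ?_⟩
    rw [F1_del_aJ, hκ.2, map_zero, neg_zero]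
  · rw [← F1_del_eq, hκ.2]

theorem F1_up (B : Bs (Fin r) ℂ N d) {a K : ℕ}
    {v : Fin N → Finset (Fin N) → MvPolynomial (Fin r) ℂ} (hv : v ∈ NM B.φ (ZK B a) K) :
    ∑ j, aE ℂ j (v j) ∈ ZK B (a + 1) K := by
  rw [mem_NM] at hv
  rw [F1_mem_ZK]
  refine ⟨Submodule.sum_mem _ fun j _ => aE_GK ((F1_mem_ZK B).1 (hv.1 j)).1 j, ?_⟩
  rw [map_sum]
  have h : ∀ j ∈ (Finset.univ : Finset (Fin N)), (SK B).del (aE ℂ j (v j)) = B.φ j • v j := by
    intro j _
    rw [F1_del_aE, ((F1_mem_ZK B).1 (hv.1 j)).2, map_zero, sub_zero]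
  rw [Finset.sum_congr rfl h, hv.2]

/-- coordinates of a form -/
noncomputable def F1_co (B : Bs (Fin r) ℂ N d) (i : Fin N) : MvPolynomial (Fin r) ℂ →ₗ[ℂ] ℂ :=
  ∑ μ ∈ Mo (Fin r) d, B.α μ i • MvPolynomial.lcoeff ℂ μ

theorem F1_co_apply (B : Bs (Fin r) ℂ N d) (i : Fin N) (p : MvPolynomial (Fin r) ℂ) :
    F1_co B i p = ∑ μ ∈ Mo (Fin r) d, B.α μ i * coeff μ p := by
  unfold F1_co
  rw [LinearMap.sum_apply]
  rfl

theorem F1_co2 (B : Bs (Fin r) ℂ N d) (i j : Fin N) :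
    F1_co B i (B.φ j) = if i = j then 1 else 0 := by
  rw [F1_co_apply, ← B.ag i j]
  refine Finset.sum_congr rfl fun μ hμ => ?_
  rw [B.coe μ hμ]

theorem F1_phi (B : Bs (Fin r) ℂ N d) (i : Fin N) :
    B.φ i = ∑ ν ∈ Mo (Fin r) d, B.γ ν i • monomial ν (1 : ℂ) := by
  have h := sum_coeff (LinearMap.id : MvPolynomial (Fin r) ℂ →ₗ[ℂ] MvPolynomial (Fin r) ℂ) (B.hom i)
  simp only [LinearMap.id_apply] at h
  refine h.symm.trans (Finset.sum_congr rfl fun μ hμ => ?_)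
  rw [B.coe μ hμ]

theorem F1_mon (B : Bs (Fin r) ℂ N d) {μ : Fin r →₀ ℕ} (hμ : μ ∈ Mo (Fin r) d) :
    ∑ i, B.α μ i • B.φ i = monomial μ (1 : ℂ) := by
  classical
  have h1 : ∀ i ∈ (Finset.univ : Finset (Fin N)), B.α μ i • B.φ i
      = ∑ ν ∈ Mo (Fin r) d, (B.γ ν i * B.α μ i) • monomial ν (1 : ℂ) := by
    intro i _
    rw [F1_phi B i, Finset.smul_sum]
    refine Finset.sum_congr rfl fun ν _ => ?_
    rw [smul_smul, mul_comm]
  rw [Finset.sum_congr rfl h1, Finset.sum_comm]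
  have h2 : ∀ ν ∈ Mo (Fin r) d, ∑ i, (B.γ ν i * B.α μ i) • monomial ν (1 : ℂ)
      = if ν = μ then monomial μ (1 : ℂ) else 0 := by
    intro ν hν
    rw [← Finset.sum_smul]
    by_cases h : ν = μ
    · subst h
      rw [B.gas ν hν, one_smul, if_pos rfl]
    · rw [B.ga ν hν μ hμ h, zero_smul, if_neg h]
  rw [Finset.sum_congr rfl h2, Finset.sum_ite_eq', if_pos hμ]

theorem F1_co1 (B : Bs (Fin r) ℂ N d) (p : MvPolynomial (Fin r) ℂ) (hp : p.IsHomogeneous d) :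
    ∑ j, F1_co B j p • B.φ j = p := by
  have h := sum_coeff (LinearMap.id : MvPolynomial (Fin r) ℂ →ₗ[ℂ] MvPolynomial (Fin r) ℂ) hp
  simp only [LinearMap.id_apply] at h
  have h1 : ∀ j ∈ (Finset.univ : Finset (Fin N)), F1_co B j p • B.φ j
      = ∑ μ ∈ Mo (Fin r) d, coeff μ p • (B.α μ j • B.φ j) := by
    intro j _
    rw [F1_co_apply, Finset.sum_smul]
    refine Finset.sum_congr rfl fun μ _ => ?_
    rw [smul_smul, mul_comm]
  rw [Finset.sum_congr rfl h1, Finset.sum_comm]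
  refine (Finset.sum_congr rfl fun μ hμ => ?_).trans h
  rw [← Finset.smul_sum, F1_mon B hμ]

theorem F1_span (B : Bs (Fin r) ℂ N d) (p : MvPolynomial (Fin r) ℂ) (hp : p.IsHomogeneous d) :
    p ∈ Submodule.span ℂ (Set.range B.φ) := by
  rw [← F1_co1 B p hp]
  exact Submodule.sum_mem _ fun j _ => Submodule.smul_mem _ _ (Submodule.subset_span ⟨j, rfl⟩)

theorem F1_Ee (B : Bs (Fin r) ℂ N d) (p : MvPolynomial (Fin r) ℂ)
    (f : Finset (Fin N) → MvPolynomial (Fin r) ℂ) :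
    (SK B).Ee p f = ∑ i, F1_co B i p • aE ℂ i f := by
  rw [Fk.Ee_apply, LinearMap.sum_apply]
  have h1 : ∀ μ ∈ Mo (Fin r) d, (coeff μ p • (SK B).E μ) f
      = ∑ i, (B.α μ i * coeff μ p) • aE ℂ i f := by
    intro μ _
    rw [LinearMap.smul_apply, SK_E, Finset.smul_sum]
    refine Finset.sum_congr rfl fun i _ => ?_
    rw [smul_smul, mul_comm]
  rw [Finset.sum_congr rfl h1, Finset.sum_comm]
  refine Finset.sum_congr rfl fun i _ => ?_
  rw [F1_co_apply, Finset.sum_smul]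

theorem F1_c1 (B : Bs (Fin r) ℂ N d) (b x z : MvPolynomial (Fin r) ℂ)
    (f : Finset (Fin N) → MvPolynomial (Fin r) ℂ) :
    c1 (SK B) b x z f = (SK B).Ee (b * z) (x • f) - (SK B).Ee (b * x) (z • f) := by
  unfold c1
  rw [Fk.mEe, Fk.mEe]
  rfl

/-- the map `w ↦ ∑ j, aE j (w j)` -/
noncomputable def F1_Phi (r N : ℕ) :
    (Fin N → Finset (Fin N) → MvPolynomial (Fin r) ℂ) →ₗ[MvPolynomial (Fin r) ℂ]
      (Finset (Fin N) → MvPolynomial (Fin r) ℂ) :=
  ∑ j, (F1_E j).comp (LinearMap.proj j)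

theorem F1_Phi_apply (w : Fin N → Finset (Fin N) → MvPolynomial (Fin r) ℂ) :
    F1_Phi r N w = ∑ j, aE ℂ j (w j) := by
  unfold F1_Phi
  rw [LinearMap.sum_apply]
  rfl

theorem ZK_grad (B : Bs (Fin r) ℂ N d) (a : ℕ) : GradM r (ZK B a) := by
  intro K e g m hg hm
  rw [F1_mem_ZK] at hm ⊢
  refine ⟨?_, by rw [F1_del_smul, hm.2, smul_zero]⟩
  exact (AK B).Gm hg hm.1

theorem F1_lin0 (B : Bs (Fin r) ℂ N d) : LinM r (ZK B 0) 0 := by
  intro i K _ η hη hs hd0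
  have h0 : ∀ J, (fun J => η J ∅) J ∈ homogeneousSubmodule (Fin r) ℂ (K + 1) := by
    intro J
    rw [mem_homogeneousSubmodule]
    exact (((F1_mem_ZK B).1 (hη J)).1 ∅).1
  have h1 : dU (fun J => η J ∅) = 0 := by
    funext J
    have := F1_dU_map (LinearMap.proj (∅ : Finset (Fin N)) :
      (Finset (Fin N) → MvPolynomial (Fin r) ℂ) →ₗ[MvPolynomial (Fin r) ℂ] _) η J
    rw [hd0] at this
    simpa using this
  obtain ⟨ξ', hξ1, hξ2, hξ3⟩ := lin_base i K (Nat.zero_le _) (fun J => η J ∅) h0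
    (fun J hJ => by rw [hs J hJ]; rfl) h1
  refine ⟨fun J I => if I = ∅ then ξ' J else 0, fun J => ?_, fun J hJ => ?_, ?_⟩
  · rw [F1_mem_ZK]
    have hG : (fun I : Finset (Fin N) => if I = ∅ then ξ' J else 0) ∈ GK (Fin r) ℂ N 0 K := by
      intro I
      refine ⟨?_, fun hI => ?_⟩
      · dsimp only
        split_ifs
        · exact (mem_homogeneousSubmodule _ _).1 (hξ1 J)
        · exact isHomogeneous_zero _ _ _
      · dsimp only
        rw [if_neg]
        intro h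
        exact hI (by rw [h]; rfl)
    refine ⟨hG, ?_⟩
    rw [F1_del_eq]
    exact Finset.sum_eq_zero fun i _ => by rw [aJ_GK0 hG, smul_zero]
  · funext I
    dsimp only
    rw [hξ2 J hJ, ite_self]
    rfl
  · funext J I
    have h2 := F1_dU_map (LinearMap.proj I :
      (Finset (Fin N) → MvPolynomial (Fin r) ℂ) →ₗ[MvPolynomial (Fin r) ℂ] _)
      (fun J I => if I = ∅ then ξ' J else 0) J
    simp only [LinearMap.proj_apply] at h2
    rw [← h2]
    by_cases hI : I = ∅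
    · simp only [if_pos hI]
      have h3 := congrFun hξ3 J
      rw [hI, ← h3]
    · simp only [if_neg hI]
      have h4 : η J I = 0 := (((F1_mem_ZK B).1 (hη J)).1 I).2
        (fun h => hI (Finset.card_eq_zero.1 h))
      rw [h4]
      unfold dU
      refine Finset.sum_eq_zero fun s _ => ?_
      rw [aJ_apply]
      split_ifs
      · rw [smul_zero]
      · rw [smul_zero, smul_zero]

theorem ZK_lin (hd : 1 ≤ d) (B : Bs (Fin r) ℂ N d) (a : ℕ) : LinM r (ZK B a) a := by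
  induction a with
  | zero => exact F1_lin0 B
  | succ a ih =>
    have hN := N_lin hd B.φ B.hom (F1_span B) (ZK_grad B a) ih
    intro i K hK η hη hs hd0
    obtain ⟨ξ', hξ1, hξ2, hξ3⟩ := hN i K hK (fun J j => aJ ℂ j (η J)) (fun J => F1_nm B (hη J))
      (fun J hJ => by
        funext j
        rw [hs J hJ, map_zero]
        rfl)
      (by
        funext J
        have := F1_dU_map (LinearMap.pi fun j : Fin N => (F1_J j :
          (Finset (Fin N) → MvPolynomial (Fin r) ℂ) →ₗ[MvPolynomial (Fin r) ℂ] _)) η J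
        rw [hd0, Pi.zero_apply, map_zero] at this
        exact this)
    have hc : ((a : ℂ) + 1) ≠ 0 := by
      exact_mod_cast Nat.succ_ne_zero a
    refine ⟨fun J => ((a : ℂ) + 1)⁻¹ • F1_Phi r N (ξ' J), fun J => ?_, fun J hJ => ?_, ?_⟩
    · dsimp only
      rw [F1_Phi_apply]
      exact Submodule.smul_mem _ _ (F1_up B (hξ1 J))
    · dsimp only
      rw [hξ2 J hJ, map_zero, smul_zero]
    · funext J
      have h2 := F1_dU_map ((C ((a : ℂ) + 1)⁻¹ : MvPolynomial (Fin r) ℂ) • F1_Phi r N) ξ' J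
      have h3 : (fun J => ((C ((a : ℂ) + 1)⁻¹ : MvPolynomial (Fin r) ℂ) • F1_Phi r N) (ξ' J))
          = fun J => ((a : ℂ) + 1)⁻¹ • F1_Phi r N (ξ' J) := by
        funext J
        rw [LinearMap.smul_apply, ← algebraMap_eq, algebraMap_smul]
      rw [h3] at h2
      rw [h2, hξ3, LinearMap.smul_apply, ← algebraMap_eq, algebraMap_smul, F1_Phi_apply,
        sum_aE_aJ ((F1_mem_ZK B).1 (hη J)).1, smul_smul]
      push_cast
      rw [inv_mul_cancel₀ hc, one_smul]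

theorem ZK_step (hd : 1 ≤ d) (B : Bs (Fin r) ℂ N d) {a K : ℕ} (haK : a ≤ K)
    {κ : Finset (Fin N) → MvPolynomial (Fin r) ℂ} (hκ : κ ∈ ZK B (a + 1) (K + 1)) :
    κ ∈ Submodule.span ℂ {w | ∃ (b x z : MvPolynomial (Fin r) ℂ)
      (κ' : Finset (Fin N) → MvPolynomial (Fin r) ℂ),
      b.IsHomogeneous (d - 1) ∧ x.IsHomogeneous 1 ∧ z.IsHomogeneous 1 ∧ κ' ∈ ZK B a K ∧
      w = c1 (SK B) b x z κ'} := by
  have h1 := N_pres hd B.φ B.hom (F1_co B) (F1_co1 B) (F1_co2 B) (ZK_grad B a) (ZK_lin hd B a)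
    haK (F1_nm B hκ)
  have hc : ((a : ℂ) + 1) ≠ 0 := by
    exact_mod_cast Nat.succ_ne_zero a
  have h2 : κ = ((a : ℂ) + 1)⁻¹ • F1_Phi r N (fun j => aJ ℂ j κ) := by
    rw [F1_Phi_apply, sum_aE_aJ ((F1_mem_ZK B).1 hκ).1, smul_smul]
    push_cast
    rw [inv_mul_cancel₀ hc, one_smul]
  rw [h2]
  refine Submodule.smul_mem _ _ ?_
  clear h2
  generalize (fun j => aJ ℂ j κ) = v at h1
  induction h1 using Submodule.span_induction with
  | mem w hw =>
    obtain ⟨b, x, z, m, hb, hx, hz, hm, rfl⟩ := hw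
    refine Submodule.subset_span ⟨b, x, z, m, hb, hx, hz, hm, ?_⟩
    rw [F1_Phi_apply, F1_c1, F1_Ee, F1_Ee, ← Finset.sum_sub_distrib]
    refine Finset.sum_congr rfl fun j _ => ?_
    rw [LinearMap.map_sub, LinearMap.map_smul, LinearMap.map_smul]
  | zero => rw [map_zero]; exact zero_mem _
  | add u w _ _ hu hw => rw [map_add]; exact add_mem hu hw
  | smul c u _ hu =>
    rw [LinearMap.map_smul_of_tower]
    exact Submodule.smul_mem _ _ hu

end Pool.Agent.H39.OP
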