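import Pool.Agent.H39.OP.Main
import Pool.Agent.H39.OP.F1
import Pool.Agent.H27.OP.Final

/-!
# MP_85ff8f_ag: exactness of the Koszul complex of `O(d)` for `2 p ≤ 3 d + 3`
-/

open MvPolynomial Function

namespace Pool.Agent.H39.OP

open Pool.Agent.H27.OP

variable {r N e : ℕ} (B : Bs (Fin r) ℂ N (e + 2))

/-- the vacuum -/
noncomputable def vac (r N : ℕ) : Finset (Fin N) → MvPolynomial (Fin r) ℂ :=
  fun I => if I = ∅ then 1 else 0

lemma vac_mem : vac r N ∈ GK (Fin r) ℂ N 0 0 := by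
  intro I
  unfold vac
  refine ⟨?_, fun h => if_neg (fun h' => h (by rw [h']; rfl))⟩
  split_ifs
  · exact isHomogeneous_one _ _
  · exact isHomogeneous_zero _ _ _

lemma del_vac : (SK B).del (vac r N) = 0 := by
  funext I
  rw [SK_del]
  refine Finset.sum_eq_zero fun i _ => ?_
  rw [aJ_GK0 vac_mem]
  exact mul_zero _

/-- cycles in coefficient degree `≥ a` are sums of products of rows of length one -/
theorem ZK_span (a : ℕ) : ∀ K, a ≤ K → ∀ κ ∈ ZK B a K,
    κ ∈ Submodule.span ℂ {w | ∃ (l : List (Finset ℕ × List (MvPolynomial (Fin r) ℂ)))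
      (y : ℕ → Sd r (e + 1)) (g : MvPolynomial (Fin r) ℂ), l.length = a ∧ Cfg l ∧ wt l = a ∧
      (∀ i ∈ slots l, i < a) ∧ g.IsHomogeneous (K - a) ∧
      w = Pr (SK B) (fun i => (y i : MvPolynomial (Fin r) ℂ)) l ((SK B).m g (vac r N))} := by
  induction a with
  | zero =>
    intro K _ κ hκ
    have hκ1 : κ ∈ GK (Fin r) ℂ N 0 K := (Submodule.mem_inf.mp hκ).1
    apply Submodule.subset_span
    refine ⟨[], fun _ => 0, κ ∅, rfl, ⟨by simp, by simp, by simp, List.Pairwise.nil⟩, rfl,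
      by simp [slots], (hκ1 ∅).1, ?_⟩
    rw [Pr_nil, Module.End.one_apply]
    funext I
    rw [SK_m]
    unfold vac
    split_ifs with h
    · rw [h, mul_one]
    · rw [mul_zero]
      exact (hκ1 I).2 (fun h' => h (Finset.card_eq_zero.mp h'))
  | succ a ih =>
    intro K haK κ hκ
    obtain ⟨K, rfl⟩ : ∃ K', K = K' + 1 := ⟨K - 1, by omega⟩
    have h1 := ZK_step (by omega) B (show a ≤ K by omega) hκ
    refine Submodule.span_le.mpr ?_ h1
    rintro _ ⟨b, x, z, κ', hb, hx, hz, hκ', rfl⟩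
    have h2 := ih K (by omega) κ' hκ'
    have h3 : c1 (SK B) b x z κ' ∈ (Submodule.span ℂ {w | ∃ (l : List (Finset ℕ × List (MvPolynomial (Fin r) ℂ)))
      (y : ℕ → Sd r (e + 1)) (g : MvPolynomial (Fin r) ℂ), l.length = a ∧ Cfg l ∧ wt l = a ∧
      (∀ i ∈ slots l, i < a) ∧ g.IsHomogeneous (K - a) ∧
      w = Pr (SK B) (fun i => (y i : MvPolynomial (Fin r) ℂ)) l ((SK B).m g (vac r N))}).map
        (c1 (SK B) b x z) := Submodule.mem_map_of_mem h2
    rw [Submodule.map_span] at h3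
    refine Submodule.span_le.mpr ?_ h3
    rintro _ ⟨_, ⟨l, y, g, hl1, hl2, hl3, hl4, hg, rfl⟩, rfl⟩
    apply Submodule.subset_span
    have hb' : b ∈ homogeneousSubmodule (Fin r) ℂ (e + 1) := by
      rw [mem_homogeneousSubmodule]
      exact hb
    refine ⟨({a}, [z, x]) :: l, update y a ⟨b, hb'⟩, g, by rw [List.length_cons, hl1], ?_,
      by rw [wt_cons, hl3, Finset.card_singleton, add_comm], ?_, ?_, ?_⟩
    · constructor
      · intro q hq
        rcases List.mem_cons.mp hq with h | h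
        · rw [h]; exact Finset.singleton_nonempty a
        · exact hl2.ne q h
      · intro q hq
        rcases List.mem_cons.mp hq with h | h
        · rw [h]; simp
        · exact hl2.len q h
      · intro q hq
        rcases List.mem_cons.mp hq with h | h
        · rw [h]
          intro u hu
          rcases List.mem_cons.mp hu with h' | h'
          · rw [h']; exact hz
          · rw [List.mem_singleton.mp h']; exact hx
        · exact hl2.hom q h
      · rw [List.pairwise_cons]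
        refine ⟨fun q hq => ?_, hl2.disj⟩
        rw [Finset.disjoint_singleton_left]
        intro h
        exact absurd (hl4 a (mem_slots.mpr ⟨q, hq, h⟩)) (lt_irrefl a)
    · intro i hi
      rw [slots, Finset.mem_union, Finset.mem_singleton] at hi
      rcases hi with h | h
      · rw [h]; exact Nat.lt_succ_self a
      · exact Nat.lt_succ_of_lt (hl4 i h)
    · have : K + 1 - (a + 1) = K - a := by omega
      rw [this]; exact hg
    · rw [Pr_cons, Cp_single, update_self, Module.End.mul_apply]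
      congr 2
      refine (Pr_congr (SK B) _ _ l ?_).symm
      intro q hq i hi
      rw [update_of_ne]
      rintro rfl
      exact absurd (hl4 i (mem_slots.mpr ⟨q, hq, hi⟩)) (lt_irrefl i)

/-- `H_a(K) = 0` for `K ≥ 2 d`, `K ≥ a`, `2 a + 3 d ≤ 3 K + 3` -/
theorem exact_K {a K : ℕ} (haK : a ≤ K) (h2 : 2 * (e + 2) ≤ K)
    (h3 : 2 * a + 3 * (e + 2) ≤ 3 * K + 3)
    {κ : Finset (Fin N) → MvPolynomial (Fin r) ℂ} (hκ : κ ∈ ZK B a K) :
    κ ∈ LinearMap.range (SK B).del := by
  refine Submodule.span_le.mpr ?_ (ZK_span B a K haK κ hκ)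
  rintro _ ⟨l, y, g, h4, h5, h6, _, h7, rfl⟩
  exact claim_refined (SK B) (del_vac B) haK h2 h3 l y g h4 h5 h6 h7

/-- **Main theorem.** -/
theorem koszul_exact_three_halves (n d p : ℕ) (hd : 1 ≤ d) (hp : 2 * p ≤ 3 * d + 3)
    (N : ℕ) (φ : Fin N → MvPolynomial (Fin (n + 1)) ℂ)
    (hφ : ∀ i, φ i ∈ homogeneousSubmodule (Fin (n + 1)) ℂ d)
    (hli : LinearIndependent ℂ φ)
    (hsp : Submodule.span ℂ (Set.range φ) = homogeneousSubmodule (Fin (n + 1)) ℂ d)
    (i : ℕ) (hi : i ≤ p) (m : ℕ) (hm : 2 * d ≤ m)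
    (f : Finset (Fin N) → MvPolynomial (Fin (n + 1)) ℂ)
    (hf : ∀ I, f I ∈ homogeneousSubmodule (Fin (n + 1)) ℂ m)
    (hf0 : ∀ I : Finset (Fin N), I.card ≠ i → f I = 0)
    (hz : ∀ J : Finset (Fin N), J.card + 1 = i →
      ∑ b ∈ Jᶜ, (-1 : MvPolynomial (Fin (n + 1)) ℂ) ^ (J.filter (fun c => c < b)).card
        * φ b * f (insert b J) = 0) :
    ∃ g : Finset (Fin N) → MvPolynomial (Fin (n + 1)) ℂ,
      (∀ I, g I ∈ homogeneousSubmodule (Fin (n + 1)) ℂ (m - d)) ∧
      (∀ I : Finset (Fin N), I.card ≠ i + 1 → g I = 0) ∧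
      ∀ I : Finset (Fin N), I.card = i →
        f I = ∑ b ∈ Iᶜ, (-1 : MvPolynomial (Fin (n + 1)) ℂ) ^ (I.filter (fun c => c < b)).card
          * φ b * g (insert b I) := by
  rcases Nat.lt_or_ge d 2 with hd2 | hd2
  · -- `d = 1`
    have hd1 : d = 1 := by omega
    subst hd1
    exact Pool.Agent.H27.OP.koszul_exact n 1 3 hd (by norm_num) N φ hφ hli hsp i (by omega) m hm f
      hf hf0 hz
  · obtain ⟨e, rfl⟩ : ∃ e, d = e + 2 := ⟨d - 2, by omega⟩
    obtain ⟨B, rfl⟩ := exists_Bs φ hφ hli hsp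
    have hdel : ∀ (h : Finset (Fin N) → MvPolynomial (Fin (n + 1)) ℂ) (I : Finset (Fin N)),
        (SK B).del h I
          = ∑ b ∈ Iᶜ, (-1 : MvPolynomial (Fin (n + 1)) ℂ) ^ (I.filter (fun c => c < b)).card
            * B.φ b * h (insert b I) := by
      intro h I
      have h1 : Iᶜ = Finset.univ.filter (fun b => ¬ b ∈ I) := by
        ext b; simp
      rw [SK_del, h1, Finset.sum_filter]
      refine Finset.sum_congr rfl fun b _ => ?_
      rw [aJ_apply]
      by_cases hb : b ∈ I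
      · rw [if_pos hb, if_neg (not_not.mpr hb), mul_zero]
      · rw [if_neg hb, if_pos hb, sgn, smul_eq_C_mul, map_pow, map_neg, C_1]
        ring
    have hfG : f ∈ GK (Fin (n + 1)) ℂ N i m := fun I =>
      ⟨(mem_homogeneousSubmodule _ _).mp (hf I), fun hI => hf0 I hI⟩
    have hfz : (SK B).del f = 0 := by
      funext J
      rw [hdel]
      by_cases hJ : J.card + 1 = i
      · exact hz J hJ
      · refine Finset.sum_eq_zero fun b hb => ?_
        rw [hf0 (insert b J) (by
          rw [Finset.card_insert_of_notMem (Finset.mem_compl.mp hb)]; exact hJ), mul_zero]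
    have hfZ : f ∈ ZK B i m := Submodule.mem_inf.mpr ⟨hfG, LinearMap.mem_ker.mpr hfz⟩
    obtain ⟨ω0, hω0⟩ := exact_K B (a := i) (K := m) (by omega) hm (by omega) hfZ
    have h1 : (SK B).del ω0 ∈ (AK B).G i (m - (e + 2) + (e + 2)) := by
      rw [hω0, Nat.sub_add_cancel (by omega)]
      exact hfG
    obtain ⟨ω, hω, hωd⟩ := (AK B).lift h1
    refine ⟨ω, fun I => (mem_homogeneousSubmodule _ _).mpr (hω I).1, fun I hI => (hω I).2 hI, ?_⟩
    intro I _
    rw [← hdel, hωd, hω0]

end Pool.Agent.H39.OP
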