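import Pool.Agent.H39.OP.FHLH

/-!
# MP_85ff8f_ag: the main induction
-/

open MvPolynomial Function

namespace Pool.Agent.H39.OP

open Pool.Agent.H27.OP

section lists

variable {P : Type*}

lemma wt_perm {I : Type*} {l l' : List (Finset I × List P)} (h : l.Perm l') : wt l = wt l' :=
  (h.map _).sum_eq

lemma mem_unique {l : List (Finset ℕ × List P)} (hd : l.Pairwise (fun q q' => Disjoint q.1 q'.1))
    {q q' : Finset ℕ × List P} (hq : q ∈ l) (hq' : q' ∈ l) {i : ℕ} (hi : i ∈ q.1)
    (hi' : i ∈ q'.1) : q = q' := by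
  induction l with
  | nil => exact absurd hq List.not_mem_nil
  | cons p l ih =>
    rw [List.pairwise_cons] at hd
    rcases List.mem_cons.mp hq with h | h <;> rcases List.mem_cons.mp hq' with h' | h'
    · rw [h, h']
    · exact absurd hi' (Finset.disjoint_left.mp (by rw [h]; exact hd.1 q' h') hi)
    · exact absurd hi (Finset.disjoint_left.mp (by rw [h']; exact hd.1 q h) hi')
    · exact ih hd.2 h h'

lemma card_slots {l : List (Finset ℕ × List P)}
    (hd : l.Pairwise (fun q q' => Disjoint q.1 q'.1)) : (slots l).card = wt l := by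
  induction l with
  | nil => simp [slots, wt]
  | cons q l ih =>
    rw [List.pairwise_cons] at hd
    rw [slots, Finset.card_union_of_disjoint, wt_cons, ih hd.2]
    rw [Finset.disjoint_left]
    intro i hi hi'
    obtain ⟨q', hq', hi2⟩ := mem_slots.mp hi'
    exact Finset.disjoint_left.mp (hd.1 q' hq') hi hi2

lemma exists_row {l : List (Finset ℕ × List P)}
    (hd : l.Pairwise (fun q q' => Disjoint q.1 q'.1)) :
    ∃ row : ℕ → Finset ℕ, (∀ q ∈ l, ∀ i ∈ q.1, row i = q.1) ∧ ∀ i, i ∉ slots l → row i = {i} := by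
  classical
  refine ⟨fun i => if h : ∃ q ∈ l, i ∈ q.1 then h.choose.1 else {i}, ?_, ?_⟩
  · intro q hq i hi
    have h : ∃ q ∈ l, i ∈ q.1 := ⟨q, hq, hi⟩
    dsimp only
    rw [dif_pos h]
    have h1 := h.choose_spec
    rw [mem_unique hd h1.1 hq h1.2 hi]
  · intro i hi
    dsimp only
    rw [dif_neg]
    intro h
    exact hi (mem_slots.mpr h)

/-- number of rows of length one -/
noncomputable def sing (l : List (Finset ℕ × List P)) : ℕ :=
  (l.map (fun q => if q.1.card = 1 then 1 else 0)).sum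

lemma sing_cons (q : Finset ℕ × List P) (l : List (Finset ℕ × List P)) :
    sing (q :: l) = (if q.1.card = 1 then 1 else 0) + sing l := by simp [sing]

lemma two_mul_length_le {l : List (Finset ℕ × List P)} (hne : ∀ q ∈ l, q.1.Nonempty) :
    2 * l.length ≤ wt l + sing l := by
  induction l with
  | nil => simp
  | cons q l ih =>
    have h1 := ih (fun q' hq' => hne q' (List.mem_cons_of_mem _ hq'))
    have h2 := Finset.card_pos.mpr (hne q List.mem_cons_self)
    rw [List.length_cons, wt_cons, sing_cons]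
    split_ifs with h <;> omega

lemma exists_single {l : List (Finset ℕ × List P)} (h : 1 ≤ sing l) :
    ∃ q ∈ l, q.1.card = 1 := by
  induction l with
  | nil => simp [sing] at h
  | cons q l ih =>
    rw [sing_cons] at h
    by_cases hq : q.1.card = 1
    · exact ⟨q, List.mem_cons_self, hq⟩
    · rw [if_neg hq, zero_add] at h
      obtain ⟨q', hq', h'⟩ := ih h
      exact ⟨q', List.mem_cons_of_mem _ hq', h'⟩

/-- the number of rows, as a number of values of `row` -/
lemma card_image_row {l : List (Finset ℕ × List P)} {row : ℕ → Finset ℕ}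
    (hne : ∀ q ∈ l, q.1.Nonempty)
    (hd : l.Pairwise (fun q q' => Disjoint q.1 q'.1))
    (hrow : ∀ q ∈ l, ∀ i ∈ q.1, row i = q.1) :
    ((slots l).image row).card = l.length ∧ ∀ R ∈ (slots l).image row, ∃ q ∈ l, R = q.1 := by
  induction l with
  | nil => simp [slots]
  | cons q l ih =>
    rw [List.pairwise_cons] at hd
    obtain ⟨h1, h2⟩ := ih (fun q' hq' => hne q' (List.mem_cons_of_mem _ hq')) hd.2
      (fun q' hq' => hrow q' (List.mem_cons_of_mem _ hq'))
    have h3 : q.1.image row = {q.1} := by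
      ext R
      simp only [Finset.mem_image, Finset.mem_singleton]
      constructor
      · rintro ⟨i, hi, rfl⟩
        exact hrow q List.mem_cons_self i hi
      · rintro rfl
        obtain ⟨i, hi⟩ := hne q List.mem_cons_self
        exact ⟨i, hi, hrow q List.mem_cons_self i hi⟩
    have h4 : q.1 ∉ (slots l).image row := by
      intro h
      obtain ⟨q', hq', h5⟩ := h2 _ h
      obtain ⟨i, hi⟩ := hne q List.mem_cons_self
      exact Finset.disjoint_left.mp (hd.1 q' hq') hi (by rw [← h5]; exact hi)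
    constructor
    · rw [slots, Finset.image_union, h3, ← Finset.insert_eq, Finset.card_insert_of_notMem h4, h1,
        List.length_cons]
    · intro R hR
      rw [slots, Finset.image_union, h3, Finset.mem_union, Finset.mem_singleton] at hR
      rcases hR with h | h
      · exact ⟨q, List.mem_cons_self, h⟩
      · obtain ⟨q', hq', h5⟩ := h2 R h
        exact ⟨q', List.mem_cons_of_mem _ hq', h5⟩

lemma card_om {l : List (Finset ℕ × List P)} {row : ℕ → Finset ℕ}
    (hd : l.Pairwise (fun q q' => Disjoint q.1 q'.1))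
    (hrow : ∀ q ∈ l, ∀ i ∈ q.1, row i = q.1) :
    sing l ≤ ((slots l).filter (fun i => row i = {i})).card := by
  induction l with
  | nil => simp [sing]
  | cons q l ih =>
    rw [List.pairwise_cons] at hd
    have h1 := ih hd.2 (fun q' hq' => hrow q' (List.mem_cons_of_mem _ hq'))
    rw [sing_cons, slots, Finset.filter_union, Finset.card_union_of_disjoint]
    · refine Nat.add_le_add ?_ h1
      split_ifs with h
      · obtain ⟨i, hi⟩ := Finset.card_eq_one.mp h
        rw [Nat.one_le_iff_ne_zero, Finset.card_ne_zero]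
        refine ⟨i, ?_⟩
        have h2 : i ∈ q.1 := by rw [hi]; exact Finset.mem_singleton_self i
        rw [Finset.mem_filter]
        exact ⟨h2, by rw [hrow q List.mem_cons_self i h2, hi]⟩
      · exact Nat.zero_le _
    · rw [Finset.disjoint_left]
      intro i hi hi'
      obtain ⟨q', hq', hi2⟩ := mem_slots.mp (Finset.mem_filter.mp hi').1
      exact Finset.disjoint_left.mp (hd.1 q' hq') (Finset.mem_filter.mp hi).1 hi2

end lists

variable {r e : ℕ} {E : Type*} [AddCommGroup E] [Module ℂ E]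
  (S : Fk (Fin r) ℂ (Module.End ℂ E) (e + 2))

lemma Cfg.perm {l l' : List (Finset ℕ × List (MvPolynomial (Fin r) ℂ))} (h : Cfg l)
    (hp : l.Perm l') : Cfg l' where
  ne q hq := h.ne q (hp.mem_iff.mpr hq)
  len q hq := h.len q (hp.mem_iff.mpr hq)
  hom q hq := h.hom q (hp.mem_iff.mpr hq)
  disj := h.disj.perm hp (fun h => h.symm)

lemma Cfg.tail {q : Finset ℕ × List (MvPolynomial (Fin r) ℂ)}
    {l : List (Finset ℕ × List (MvPolynomial (Fin r) ℂ))} (h : Cfg (q :: l)) : Cfg l where
  ne q' hq' := h.ne q' (List.mem_cons_of_mem _ hq')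
  len q' hq' := h.len q' (List.mem_cons_of_mem _ hq')
  hom q' hq' := h.hom q' (List.mem_cons_of_mem _ hq')
  disj := (List.pairwise_cons.mp h.disj).2

lemma hom_yu (y : ℕ → Sd r (e + 1)) {l : List (Finset ℕ × List (MvPolynomial (Fin r) ℂ))}
    (h : Cfg l) : ∀ q ∈ l, ∀ i ∈ q.1, ∀ u ∈ q.2,
      ((y i : MvPolynomial (Fin r) ℂ) * u).IsHomogeneous (e + 2) := by
  intro q hq i _ u hu
  exact ((mem_homogeneousSubmodule _ _).mp (y i).2).mul (h.hom q hq u hu)

/-- products of rows preserve boundaries -/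
lemma Pr_range (y : ℕ → Sd r (e + 1)) {l : List (Finset ℕ × List (MvPolynomial (Fin r) ℂ))}
    (h : Cfg l) {x : E} (hx : x ∈ LinearMap.range S.del) :
    Pr S (fun i => (y i : MvPolynomial (Fin r) ℂ)) l x ∈ LinearMap.range S.del := by
  obtain ⟨x', rfl⟩ := hx
  have h1 := del_Pr S (fun i => (y i : MvPolynomial (Fin r) ℂ)) l (hom_yu y h)
  have h2 := congrArg (fun A : Module.End ℂ E => A x') h1
  simp only [Module.End.mul_apply] at h2
  rcases neg_one_pow_eq_or (Module.End ℂ E) (wt l) with h3 | h3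
  · rw [h3, Module.End.one_apply] at h2
    exact ⟨_, h2⟩
  · rw [h3, LinearMap.neg_apply, Module.End.one_apply] at h2
    exact ⟨-(Pr S (fun i => (y i : MvPolynomial (Fin r) ℂ)) l x'), by rw [map_neg, h2, neg_neg]⟩

/-- forms of degree `≥ d` times a cycle are boundaries -/
lemma m_range {κ₀ : E} (hκ₀ : S.del κ₀ = 0) {j : ℕ} (hj : e + 2 ≤ j) {g : MvPolynomial (Fin r) ℂ}
    (hg : g.IsHomogeneous j) : S.m g κ₀ ∈ LinearMap.range S.del := by
  classical
  obtain ⟨L, hL⟩ : ∃ L : MvPolynomial (Fin r) ℂ →ₗ[ℂ] E, ∀ p, L p = S.m p κ₀ :=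
    ⟨(LinearMap.applyₗ κ₀) ∘ₗ S.m.toLinearMap, fun p => rfl⟩
  rw [← hL, ← sum_coeff L hg]
  refine Submodule.sum_mem _ fun μ hμ => Submodule.smul_mem _ _ ?_
  rw [mem_Mo] at hμ
  obtain ⟨ν, hνμ, hν⟩ : ∃ ν : Fin r →₀ ℕ, ν ≤ μ ∧ ν.degree = e + 2 := by
    rw [← hμ] at hj
    exact Finsupp.exists_le_degree_eq μ (e + 2) hj
  have h1 : monomial μ (1 : ℂ) = monomial ν 1 * monomial (μ - ν) 1 := by
    rw [monomial_mul, one_mul, add_tsub_cancel_of_le hνμ]
  have h2 : (monomial ν (1 : ℂ)).IsHomogeneous (e + 2) := isHomogeneous_monomial _ hν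
  rw [hL, h1, map_mul]
  refine ⟨S.Ee (monomial ν 1) (S.m (monomial (μ - ν) 1) κ₀), ?_⟩
  have h3 := congrArg (fun A : Module.End ℂ E => A (S.m (monomial (μ - ν) 1) κ₀)) (S.del_Ee h2)
  simp only [Module.End.mul_apply, LinearMap.sub_apply] at h3
  have h4 := congrArg (fun A : Module.End ℂ E => A κ₀) (S.del_m (monomial (μ - ν) 1))
  simp only [Module.End.mul_apply] at h4
  rw [h3, h4, hκ₀, map_zero, map_zero, sub_zero, Module.End.mul_apply]

theorem claim_small {κ₀ : E} (hκ₀ : S.del κ₀ = 0) {w K s : ℕ} (h : e + 2 ≤ K - s) :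
    Claim S κ₀ w K s := by
  intro l y g _ hcfg _ hg
  exact Pr_range S y hcfg (m_range S hκ₀ h hg)

/-- it suffices to treat configurations which start with a row of length one -/
lemma move_range (y : ℕ → Sd r (e + 1)) (l₁ l₂ : List (Finset ℕ × List (MvPolynomial (Fin r) ℂ)))
    (q : Finset ℕ × List (MvPolynomial (Fin r) ℂ)) {x : E}
    (h : Pr S (fun i => (y i : MvPolynomial (Fin r) ℂ)) (q :: (l₁ ++ l₂)) x
      ∈ LinearMap.range S.del) :
    Pr S (fun i => (y i : MvPolynomial (Fin r) ℂ)) (l₁ ++ q :: l₂) x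
      ∈ LinearMap.range S.del := by
  rw [Pr_cons] at h
  rw [Pr_move]
  rcases neg_one_pow_eq_or (Module.End ℂ E) (q.1.card * wt l₁) with h3 | h3
  · rw [h3, one_mul]; exact h
  · rw [h3, neg_one_mul, LinearMap.neg_apply]; exact Submodule.neg_mem _ h

theorem claim_step {κ₀ : E} (hκ₀ : S.del κ₀ = 0) {w K s : ℕ} (hC : Claim S κ₀ w K s)
    (hK : s + 1 ≤ K) (h3 : 2 * w + 1 ≤ 3 * (s + 1))
    (hr : (K - (s + 1) = e + 1 ∧ e + 3 ≤ s + 2) ∨ e + 3 ≤ s + 1) : Claim S κ₀ w K (s + 1) := by
  intro l y g hlen hcfg hwt hg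
  have hs := two_mul_length_le hcfg.ne
  obtain ⟨q, hq, hq1⟩ : ∃ q ∈ l, q.1.card = 1 := exists_single (by omega)
  obtain ⟨t, ht⟩ := Finset.card_eq_one.mp hq1
  obtain ⟨l₁, l₂, rfl⟩ := List.append_of_mem hq
  apply move_range
  have hperm : (l₁ ++ q :: l₂).Perm (q :: (l₁ ++ l₂)) := List.perm_middle
  have hcfg' := hcfg.perm hperm
  have hwt' : wt (q :: (l₁ ++ l₂)) = w := by rw [← wt_perm hperm, hwt]
  have hlen' : (q :: (l₁ ++ l₂)).length = s + 1 := by rw [← hperm.length_eq, hlen]
  clear hcfg hwt hlen hs hperm hq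
  obtain ⟨R, T₀⟩ := q
  simp only at ht
  subst ht
  generalize l₁ ++ l₂ = l' at *
  have hs := two_mul_length_le hcfg'.ne
  by_contra hcon
  obtain ⟨Φ, hΦ0, hΦ⟩ := Submodule.exists_le_ker_of_notMem hcon
  apply hΦ0
  have hΦ' : ∀ x, Φ (S.del x) = 0 := fun x => hΦ ⟨x, rfl⟩
  obtain ⟨row, hrow, hrow'⟩ := exists_row hcfg'.disj
  have hxz : ∀ i : ℕ, ∃ xz : Sd r 1 × Sd r 1, ∀ q ∈ ((({t} : Finset ℕ), T₀) :: l'), q.1 = {i} →
      q.2 = [((xz.2 : Sd r 1) : MvPolynomial (Fin r) ℂ), (xz.1 : MvPolynomial (Fin r) ℂ)] := by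
    intro i
    by_cases h : ∃ q ∈ ((({t} : Finset ℕ), T₀) :: l'), q.1 = {i}
    · obtain ⟨q, hq, hqi⟩ := h
      have h1 := hcfg'.len q hq
      rw [hqi, Finset.card_singleton] at h1
      obtain ⟨u, v, huv⟩ := List.length_eq_two.mp h1
      have h2 := hcfg'.hom q hq
      rw [huv] at h2
      refine ⟨(⟨v, (mem_homogeneousSubmodule _ _).mpr (h2 v (by simp))⟩,
        ⟨u, (mem_homogeneousSubmodule _ _).mpr (h2 u (by simp))⟩), ?_⟩
      intro q' hq' hqi'
      have h3 : q' = q := mem_unique hcfg'.disj hq' hq (i := i)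
        (by rw [hqi']; exact Finset.mem_singleton_self i)
        (by rw [hqi]; exact Finset.mem_singleton_self i)
      rw [h3, huv]
    · refine ⟨(0, 0), fun q hq hqi => absurd ⟨q, hq, hqi⟩ h⟩
  choose xz hxz using hxz
  have hmap : ((({t} : Finset ℕ), T₀) :: l').map (rw' (fun i => (xz i).1) (fun i => (xz i).2))
      = ((({t} : Finset ℕ), T₀) :: l') := by
    conv_rhs => rw [← List.map_id ((({t} : Finset ℕ), T₀) :: l')]
    apply List.map_congr_left
    intro q hq
    unfold rw'
    split_ifs with h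
    · obtain ⟨i, hi⟩ := Finset.card_eq_one.mp h
      have h4 := hxz i q hq hi
      rw [hi, Finset.sum_singleton, Finset.sum_singleton, ← h4, ← hi]
      rfl
    · rfl
  obtain ⟨hi1, hi2⟩ := card_image_row hcfg'.ne hcfg'.disj hrow
  have hom := card_om hcfg'.disj hrow
  have hsl := card_slots hcfg'.disj
  have hlen2 : l'.length = s := by
    rw [List.length_cons] at hlen'; omega
  by_cases hcase : e + 3 ≤ s + 1
  · have hH := HLH_alpha S Φ hΦ' hC hK hlen2 hcfg' hwt' hrow hg
    have := HL _ _ _ _ rfl hH (by rw [hi1, hlen']; omega) (by rw [hi1, hsl]; omega) y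
      (fun i => (xz i).1) (fun i => (xz i).2)
    unfold FF at this
    rw [hmap] at this
    exact this
  · obtain ⟨hKe, hes⟩ := hr.resolve_right hcase
    obtain ⟨f, hf⟩ := Infinite.exists_notMem_finset (slots ((({t} : Finset ℕ), T₀) :: l'))
    have hrf := hrow' f hf
    have hH := HLH_beta S Φ hΦ' hκ₀ hC hK hKe hlen2 hcfg' hwt' hrow hf hrf
    rw [hKe] at hg
    have himg : ((insert f (slots ((({t} : Finset ℕ), T₀) :: l'))).image row).card = s + 2 := by
      rw [Finset.image_insert, Finset.card_insert_of_notMem, hi1, hlen']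
      intro h
      obtain ⟨q, hq, h5⟩ := hi2 _ h
      rw [hrf] at h5
      apply hf
      refine mem_slots.mpr ⟨q, hq, ?_⟩
      rw [← h5]; exact Finset.mem_singleton_self f
    have := HL _ _ _ _ rfl hH (by rw [himg]; omega)
      (by rw [himg, Finset.card_insert_of_notMem hf, hsl]; omega)
      (update y f ⟨g, (mem_homogeneousSubmodule _ _).mpr hg⟩)
      (fun i => (xz i).1) (fun i => (xz i).2)
    unfold FF at this
    rw [hmap] at this
    dsimp only at this
    rw [update_self] at this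
    have h6 : Pr S (fun i => ((update y f ⟨g, (mem_homogeneousSubmodule _ _).mpr hg⟩ i :
        Sd r (e + 1)) : MvPolynomial (Fin r) ℂ)) ((({t} : Finset ℕ), T₀) :: l')
        = Pr S (fun i => (y i : MvPolynomial (Fin r) ℂ)) ((({t} : Finset ℕ), T₀) :: l') := by
      apply Pr_congr
      intro q hq i hi
      rw [update_of_ne]
      rintro rfl
      exact hf (mem_slots.mpr ⟨q, hq, hi⟩)
    rw [h6] at this
    exact this

theorem claim_all {κ₀ : E} (hκ₀ : S.del κ₀ = 0) {w K : ℕ} (hwK : w ≤ K) (h2 : 2 * (e + 2) ≤ K + 1)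
    (h3 : 2 * w + 3 * (e + 2) ≤ 3 * K + 2) : ∀ s ≤ w, Claim S κ₀ w K s := by
  intro s
  induction s with
  | zero => intro _; exact claim_small S hκ₀ (by omega)
  | succ s ih =>
    intro hs
    by_cases h : e + 2 ≤ K - (s + 1)
    · exact claim_small S hκ₀ h
    · refine claim_step S hκ₀ (ih (by omega)) (by omega) (by omega) ?_
      by_cases h4 : K - (s + 1) = e + 1
      · left; exact ⟨h4, by omega⟩
      · right; omega

theorem claim_refined {κ₀ : E} (hκ₀ : S.del κ₀ = 0) {w K : ℕ} (hwK : w ≤ K)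
    (h2 : 2 * (e + 2) ≤ K) (h3 : 2 * w + 3 * (e + 2) ≤ 3 * K + 3) : Claim S κ₀ w K w := by
  by_cases hs : e + 2 ≤ K - w
  · exact claim_small S hκ₀ hs
  obtain ⟨v, rfl⟩ : ∃ v, w = v + 2 := ⟨w - 2, by omega⟩
  have hC : Claim S κ₀ v (K - 1) v :=
    claim_all S hκ₀ (by omega) (by omega) (by omega) v le_rfl
  have hC2 : Claim S κ₀ (v + 2) K (v + 1) := by
    intro l y g hlen hcfg hwt hg
    obtain ⟨q, hq, hq2⟩ : ∃ q ∈ l, q.1.card ≠ 1 := by
      by_contra hcon
      push Not at hcon
      have : wt l = l.length := by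
        clear hwt hlen hcfg
        induction l with
        | nil => rfl
        | cons q l ih =>
          rw [wt_cons, List.length_cons, hcon q List.mem_cons_self,
            ih (fun q' hq' => hcon q' (List.mem_cons_of_mem _ hq')), add_comm]
      omega
    obtain ⟨l₁, l₂, rfl⟩ := List.append_of_mem hq
    apply move_range
    have hperm : (l₁ ++ q :: l₂).Perm (q :: (l₁ ++ l₂)) := List.perm_middle
    have hcfg' := hcfg.perm hperm
    have hwt' : wt (q :: (l₁ ++ l₂)) = v + 2 := by rw [← wt_perm hperm, hwt]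
    have hlen' : (q :: (l₁ ++ l₂)).length = v + 1 := by rw [← hperm.length_eq, hlen]
    clear hcfg hwt hlen hperm hq
    generalize l₁ ++ l₂ = l' at *
    rw [wt_cons] at hwt'
    rw [List.length_cons] at hlen'
    have h5 : l'.length ≤ wt l' := by
      have hne := hcfg'.tail.ne
      clear hcfg' hwt' hlen'
      induction l' with
      | nil => simp
      | cons q l ih =>
        rw [wt_cons, List.length_cons]
        have h6 := Finset.card_pos.mpr (hne q List.mem_cons_self)
        have h7 := ih (fun q' hq' => hne q' (List.mem_cons_of_mem _ hq'))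
        omega
    have h6 := Finset.card_pos.mpr (hcfg'.ne q List.mem_cons_self)
    have h7 : wt l' = v := by omega
    rw [Pr_cons]
    have h8 : Pr S (fun i => (y i : MvPolynomial (Fin r) ℂ)) l' (S.m g κ₀)
        ∈ LinearMap.range S.del :=
      hC l' y g (by omega) hcfg'.tail h7 (by
        have : K - 1 - v = K - (v + 1) := by omega
        rw [this]; exact hg)
    have h9 : Cfg [q] :=
      ⟨fun q' hq' => hcfg'.ne q' (by rw [List.mem_singleton.mp hq']; exact List.mem_cons_self),
       fun q' hq' => hcfg'.len q' (by rw [List.mem_singleton.mp hq']; exact List.mem_cons_self),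
       fun q' hq' => hcfg'.hom q' (by rw [List.mem_singleton.mp hq']; exact List.mem_cons_self),
       List.pairwise_singleton _ _⟩
    have h10 := Pr_range S y h9 h8
    rw [Pr_cons, Pr_nil, mul_one] at h10
    exact h10
  refine claim_step S hκ₀ hC2 (by omega) (by omega) ?_
  by_cases h4 : K - (v + 2) = e + 1
  · left; exact ⟨h4, by omega⟩
  · right; omega

end Pool.Agent.H39.OP
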