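import Pool.Agent.H39.OP.Polar

/-!
# Job OP-C5 : planar vanishing

`F` is multilinear in slots with values in `ℂ^d` (`= Fin d → ℂ`), the slots are partitioned in rows
(`row`), `F` is symmetric in each row, `t` is a row on its own, and the exchange relation of `t`
with every other row holds.  If there are at least `d + 1` rows then `F = 0`.

PROOF.  By `polar` it suffices to show `F a = 0` when `a i = w (row i)` for all `i ∈ Act`
(`w : ρ → ℂ^d`).  Choose `r : Fin d → ρ` injective with values in
`(Act.image row).erase (row t)` (this set has at least `d` elements).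
(1) Claim: if `a i = w (row i)` for `i ∈ Act`, `i ≠ t`, and the vectors `w (r 0), …, w (r (d-1))`
are linearly independent (determinant of the matrix `j k ↦ w (r j) k` nonzero), then `F a = 0`
(for an arbitrary value `a t`).  The vectors span `ℂ^d`, so `a t = ∑_j c_j • w (r j)`, and
`F a = ∑_j c_j * F (update a t (w (r j)))`.  Let `b = update a t (w (r j))` and `R_j` the set of
`y ∈ Act` with `row y = r j` (nonempty, does not contain `t`).  For `y ∈ R_j`, `b y = w (r j) = b t`
so `b ∘ swap t y = b`; `hG` gives `F b + |R_j| * F b = 0`, so `F b = 0`.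
(2) In general, for `τ : ℂ` let `w^τ = w` except `w^τ (r j) = w (r j) + τ • Pi.single j 1`, and let
`a^τ i = w^τ (row i)` for `i ∈ Act \ {t}` and `a^τ i = a i` otherwise.  By `coef` (finset: the
`i ∈ Act` with `row i ∈ range r`; it does not contain `t`), `F a^τ = p.eval τ` for a polynomial `p`
with `p.coeff 0 = F a`.  The determinant of the matrix `j k ↦ w^τ (r j) k = W + τ • 1` is `q.eval τ`
for a NONZERO polynomial `q` (for example `q = ± charpoly` of `-W`:
`Matrix.det (scalar τ + W) = (Matrix.charpoly (-W)).eval τ`, `Matrix.eval_charpoly`/`eval_det`,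
monic).  By (1), `p * q` vanishes at every `τ`, so `p * q = 0`, `p = 0` and `F a = p.coeff 0 = 0`.
-/

open Function Polynomial Finset

namespace Pool.Agent.H39.OP

theorem PV_zero {I B : Type*} [DecidableEq I] [AddCommGroup B] [Module ℂ B] {T : Finset I}
    {F : (I → B) → ℂ} (h : MulAt T F) {t : I} (ht : t ∈ T) (a : I → B) :
    F (update a t 0) = 0 := by
  have h1 := h.smul t ht a 0 0
  rw [zero_smul, zero_mul] at h1
  exact h1

theorem PV_sum {I B ι : Type*} [DecidableEq I] [AddCommGroup B] [Module ℂ B] {T : Finset I}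
    {F : (I → B) → ℂ} (h : MulAt T F) {t : I} (ht : t ∈ T) (a : I → B) (s : Finset ι)
    (c : ι → ℂ) (v : ι → B) :
    F (update a t (∑ j ∈ s, c j • v j)) = ∑ j ∈ s, c j * F (update a t (v j)) := by
  classical
  induction s using Finset.induction_on with
  | empty => simp only [Finset.sum_empty]; exact PV_zero h ht a
  | insert j s hj ih =>
    rw [Finset.sum_insert hj, Finset.sum_insert hj, h.add t ht, h.smul t ht, ih]

theorem PV_one {I ρ : Type*} [DecidableEq I] [DecidableEq ρ] (d : ℕ)
    (Act : Finset I) (row : I → ρ) (t : I) (htA : t ∈ Act)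
    (F : (I → (Fin d → ℂ)) → ℂ) (h : MulAt Act F)
    (hG : ∀ y ∈ Act, row y ≠ row t → ∀ a,
      F a + ∑ y' ∈ Act.filter (fun y' => row y' = row y), F (a ∘ Equiv.swap t y') = 0)
    (r : Fin d → ρ) (hr : ∀ j, ∃ y ∈ Act, row y = r j) (hrt : ∀ j, r j ≠ row t)
    (w : ρ → (Fin d → ℂ)) (a : I → (Fin d → ℂ)) (ha : ∀ i ∈ Act, i ≠ t → a i = w (row i))
    (hdet : Matrix.det (Matrix.of fun j k => w (r j) k) ≠ 0) : F a = 0 := by
  set W : Matrix (Fin d) (Fin d) ℂ := Matrix.of fun j k => w (r j) k with hW
  have hsum : a t = ∑ j, (Matrix.vecMul (a t) W⁻¹) j • w (r j) := by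
    have h1 : Matrix.vecMul (Matrix.vecMul (a t) W⁻¹) W = a t := by
      rw [Matrix.vecMul_vecMul, Matrix.nonsing_inv_mul W (isUnit_iff_ne_zero.mpr hdet),
        Matrix.vecMul_one]
    conv_lhs => rw [← h1]
    rw [Matrix.vecMul_eq_sum]
    rfl
  have h2 : F a = F (update a t (a t)) := by rw [update_eq_self]
  rw [h2, hsum, PV_sum h htA]
  refine Finset.sum_eq_zero fun j _ => ?_
  have hb : F (update a t (w (r j))) = 0 := by
    obtain ⟨y, hyA, hy⟩ := hr j
    have h3 := hG y hyA (by rw [hy]; exact hrt j) (update a t (w (r j)))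
    have h4 : ∀ y' ∈ Act.filter (fun y' => row y' = row y),
        F (update a t (w (r j)) ∘ Equiv.swap t y') = F (update a t (w (r j))) := by
      intro y' hy'
      rw [Finset.mem_filter] at hy'
      have hne : y' ≠ t := by
        rintro rfl
        exact hrt j (by rw [← hy, ← hy'.2])
      congr 1
      funext k
      rw [comp_apply]
      by_cases hk : k = t
      · subst hk
        rw [Equiv.swap_apply_left, update_self, update_of_ne hne, ha y' hy'.1 hne, hy'.2, hy]
      · by_cases hk' : k = y'
        · subst hk'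
          rw [Equiv.swap_apply_right, update_self, update_of_ne hne, ha k hy'.1 hne, hy'.2, hy]
        · rw [Equiv.swap_apply_of_ne_of_ne hk hk']
    rw [Finset.sum_congr rfl h4, Finset.sum_const, nsmul_eq_mul] at h3
    have h5 : (1 + ((Act.filter (fun y' => row y' = row y)).card : ℂ)) *
        F (update a t (w (r j))) = 0 := by rw [add_mul, one_mul]; exact h3
    rcases mul_eq_zero.mp h5 with h6 | h6
    · exfalso
      have h7 : ((1 + (Act.filter (fun y' => row y' = row y)).card : ℕ) : ℂ) = 0 := by
        push_cast; exact h6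
      have h8 : 1 + (Act.filter (fun y' => row y' = row y)).card = 0 := by exact_mod_cast h7
      omega
    · exact h6
  rw [hb, mul_zero]

theorem PV {I ρ : Type*} [DecidableEq I] [DecidableEq ρ] (d : ℕ)
    (Act : Finset I) (row : I → ρ) (t : I) (htA : t ∈ Act)
    (ht : ∀ i ∈ Act, row i = row t → i = t)
    (F : (I → (Fin d → ℂ)) → ℂ) (h : MulAt Act F)
    (hS : ∀ i ∈ Act, ∀ j ∈ Act, row i = row j → ∀ a, F (a ∘ Equiv.swap i j) = F a)
    (hG : ∀ y ∈ Act, row y ≠ row t → ∀ a,
      F a + ∑ y' ∈ Act.filter (fun y' => row y' = row y), F (a ∘ Equiv.swap t y') = 0)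
    (hc : d + 1 ≤ (Act.image row).card) :
    ∀ a, F a = 0 := by
  refine polar Act row F h hS fun w a ha => ?_
  have hmem : row t ∈ Act.image row := Finset.mem_image_of_mem row htA
  have hcard : d ≤ ((Act.image row).erase (row t)).card := by
    rw [Finset.card_erase_of_mem hmem]
    omega
  obtain ⟨e⟩ : Nonempty (Fin d ↪ {x // x ∈ (Act.image row).erase (row t)}) :=
    Function.Embedding.nonempty_of_card_le (by simpa using hcard)
  set r : Fin d → ρ := fun j => (e j).1 with hrdef
  have hrinj : Injective r := fun i j hij => e.injective (Subtype.ext hij)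
  have hr : ∀ j, ∃ y ∈ Act, row y = r j := by
    intro j
    have h1 := (e j).2
    rw [Finset.mem_erase, Finset.mem_image] at h1
    exact h1.2
  have hrt : ∀ j, r j ≠ row t := by
    intro j
    have h1 := (e j).2
    rw [Finset.mem_erase] at h1
    exact h1.1
  set dl : ρ → (Fin d → ℂ) := fun x => ∑ j, if r j = x then Pi.single j (1 : ℂ) else 0 with hdl
  have hdlr : ∀ j, dl (r j) = Pi.single j 1 := by
    intro j
    simp only [hdl]
    rw [Finset.sum_eq_single j]
    · rw [if_pos rfl]
    · intro k _ hk
      rw [if_neg fun h => hk (hrinj h)]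
    · intro hj
      exact absurd (Finset.mem_univ j) hj
  obtain ⟨p, hp, hp0, -⟩ := coef (Act.erase t) F (h.mono (Finset.erase_subset t Act)) a
    (fun m => dl (row m))
  set W : Matrix (Fin d) (Fin d) ℂ := Matrix.of fun j k => w (r j) k with hW
  have hpq : p * (-W).charpoly = 0 := by
    refine Polynomial.funext fun τ => ?_
    rw [eval_mul, eval_zero, Matrix.eval_charpoly]
    by_cases hd : (Matrix.scalar (Fin d) τ - -W).det = 0
    · rw [hd, mul_zero]
    · rw [hp τ]
      rw [PV_one d Act row t htA F h hG r hr hrt (fun x => w x + τ • dl x)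
        (fun m => if m ∈ Act.erase t then a m + τ • dl (row m) else a m) ?_ ?_, zero_mul]
      · intro i hi hit
        have : i ∈ Act.erase t := Finset.mem_erase.mpr ⟨hit, hi⟩
        simp only [this, if_true]
        rw [ha i hi]
      · have hM : (Matrix.of fun j k => (w (r j) + τ • dl (r j)) k) =
            Matrix.scalar (Fin d) τ - -W := by
          ext j k
          rw [Matrix.of_apply, hdlr, sub_neg_eq_add, Matrix.add_apply, Pi.add_apply, Pi.smul_apply,
            hW, Matrix.of_apply, Matrix.scalar_apply, Matrix.diagonal_apply, smul_eq_mul, add_comm]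
          by_cases hjk : j = k
          · subst hjk
            rw [if_pos rfl, Pi.single_eq_same, mul_one]
          · rw [if_neg hjk, Pi.single_eq_of_ne (Ne.symm hjk), mul_zero]
        rw [hM]
        exact hd
  have hp1 : p = 0 := by
    rcases mul_eq_zero.mp hpq with h1 | h1
    · exact h1
    · exact absurd h1 (Matrix.charpoly_monic _).ne_zero
  rw [← hp0, hp1, coeff_zero]

end Pool.Agent.H39.OP
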