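import Pool.Agent.H39.OP.FDefs

/-!
# Job OP-D0 : the polynomial instance of `PD`

PROOF.  `D = e + 1`.  `pr q = ∏ j, q j` (homogeneous of degree `e + 1`,
`IsHomogeneous.prod`).  `pr_upd`: `a' = ∏_{k ≠ j} q k` (degree `e`),
`∏ k, (update q j u) k = (∏_{k ∈ univ.erase j} q k) * u` (`Finset.prod_update_of_mem` or
`Finset.mul_prod_erase`).  `span`: a form of degree `e + 1` is the sum of
`coeff μ p • monomial μ 1` over `μ` of degree `e + 1`, and `monomial μ 1` with `μ.degree = e + 1` is
the product of the `e + 1` variables of the multiset `Finsupp.toMultiset μ` (write it as a list of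
length `e + 1`), so it is `pr q` with `q j = X (…)`.  (Work with the submodule of `Sd r (e+1)`; its
elements are subtypes.)
`plane`: `v k = x ^ k * z ^ (e + 1 - k)` for `k : Fin (e + 2)`; if every `q j` is `x` or `z` then
`pr q = v k` for `k = #{j | q j = x}` (product over the filter and its complement).
The field `mu` must be `muP r e` (stated as `polyPD_mu`, by `rfl`).
-/

open MvPolynomial Function

namespace Pool.Agent.H39.OP

open Pool.Agent.H27.OP

lemma polyPD_monomial (r : ℕ) : ∀ (n : ℕ) (μ : Fin r →₀ ℕ), μ.degree = n →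
    ∃ f : Fin n → Fin r, (∏ j, (X (f j) : MvPolynomial (Fin r) ℂ)) = monomial μ 1 := by
  intro n
  induction n with
  | zero =>
    intro μ hμ
    refine ⟨fun j => j.elim0, ?_⟩
    have h0 : μ = 0 := (Finsupp.degree_eq_zero_iff μ).mp hμ
    subst h0
    simp
  | succ n ih =>
    intro μ hμ
    have hne : μ ≠ 0 := by
      rintro rfl
      simp at hμ
    obtain ⟨i, hi⟩ := Finsupp.ne_iff.mp hne
    have hle : Finsupp.single i 1 ≤ μ := by
      rw [Finsupp.single_le_iff]
      exact Nat.one_le_iff_ne_zero.mpr (by simpa using hi)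
    have hdec : Finsupp.single i 1 + (μ - Finsupp.single i 1) = μ := by
      rw [add_comm]
      exact tsub_add_cancel_of_le hle
    have hdeg : (μ - Finsupp.single i 1).degree = n := by
      have h1 := congrArg Finsupp.degree hdec
      rw [map_add, Finsupp.degree_single, hμ] at h1
      omega
    obtain ⟨f, hf⟩ := ih _ hdeg
    refine ⟨Fin.cons i f, ?_⟩
    rw [Fin.prod_univ_succ]
    simp only [Fin.cons_zero, Fin.cons_succ]
    rw [hf]
    conv_rhs => rw [← hdec]
    rw [X, monomial_mul, one_mul]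

/-- the product of `e + 1` linear forms -/
noncomputable def polyPD_pr (r e : ℕ) (q : Fin (e + 1) → Sd r 1) : Sd r (e + 1) :=
  ⟨∏ j, (q j : MvPolynomial (Fin r) ℂ), by
    rw [mem_homogeneousSubmodule]
    have h := IsHomogeneous.prod (Finset.univ : Finset (Fin (e + 1)))
      (fun j => (q j : MvPolynomial (Fin r) ℂ)) (fun _ => 1)
      (fun j _ => (mem_homogeneousSubmodule _ _).mp (q j).2)
    simpa using h⟩

lemma polyPD_pr_coe (r e : ℕ) (q : Fin (e + 1) → Sd r 1) :
    ((polyPD_pr r e q : Sd r (e + 1)) : MvPolynomial (Fin r) ℂ) =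
      ∏ j, (q j : MvPolynomial (Fin r) ℂ) := rfl

lemma polyPD_pr_upd (r e : ℕ) (q : Fin (e + 1) → Sd r 1) (j : Fin (e + 1)) :
    ∃ a' : Sd r e, ∀ u : Sd r 1, polyPD_pr r e (update q j u) = muP r e a' u := by
  refine ⟨⟨∏ k ∈ Finset.univ.erase j, (q k : MvPolynomial (Fin r) ℂ), ?_⟩, ?_⟩
  · rw [mem_homogeneousSubmodule]
    have h := IsHomogeneous.prod (Finset.univ.erase j : Finset (Fin (e + 1)))
      (fun j => (q j : MvPolynomial (Fin r) ℂ)) (fun _ => 1)
      (fun j _ => (mem_homogeneousSubmodule _ _).mp (q j).2)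
    simpa using h
  · intro u
    apply Subtype.ext
    rw [polyPD_pr_coe, muP_coe, ← Finset.prod_erase_mul _ _ (Finset.mem_univ j)]
    rw [update_self]
    congr 1
    apply Finset.prod_congr rfl
    intro k hk
    rw [update_of_ne (Finset.ne_of_mem_erase hk)]

lemma polyPD_span (r e : ℕ) (a : Sd r (e + 1)) :
    a ∈ Submodule.span ℂ (Set.range (polyPD_pr r e)) := by
  have key : (a : MvPolynomial (Fin r) ℂ) ∈
      Submodule.map (homogeneousSubmodule (Fin r) ℂ (e + 1)).subtype
        (Submodule.span ℂ (Set.range (polyPD_pr r e))) := by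
    rw [(a : MvPolynomial (Fin r) ℂ).as_sum]
    apply Submodule.sum_mem
    intro μ hμ
    have hdeg : μ.degree = e + 1 := by
      have h := (mem_homogeneousSubmodule _ _).mp a.2
      by_contra hne
      exact (mem_support_iff.mp hμ) (h.coeff_eq_zero hne)
    obtain ⟨f, hf⟩ := polyPD_monomial r (e + 1) μ hdeg
    have h1 : monomial μ (coeff μ (a : MvPolynomial (Fin r) ℂ)) =
        coeff μ (a : MvPolynomial (Fin r) ℂ) • monomial μ (1 : ℂ) := by
      rw [smul_monomial]
      simp
    rw [h1]
    apply Submodule.smul_mem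
    refine ⟨polyPD_pr r e (fun j => ⟨X (f j), (mem_homogeneousSubmodule _ _).mpr
      (isHomogeneous_X _ _)⟩), Submodule.subset_span ⟨_, rfl⟩, ?_⟩
    rw [← hf]
    rfl
  obtain ⟨s, hs, hsa⟩ := key
  have : s = a := Subtype.ext hsa
  rw [← this]
  exact hs

lemma polyPD_plane (r e : ℕ) (x z : Sd r 1) :
    ∃ v : Fin (e + 1 + 1) → Sd r (e + 1), ∀ q : Fin (e + 1) → Sd r 1, (∀ j, q j = x ∨ q j = z) →
    ∃ k, polyPD_pr r e q = v k := by
  classical
  refine ⟨fun k => ⟨(x : MvPolynomial (Fin r) ℂ) ^ (k : ℕ) *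
    (z : MvPolynomial (Fin r) ℂ) ^ (e + 1 - (k : ℕ)), ?_⟩, ?_⟩
  · rw [mem_homogeneousSubmodule]
    have hx := ((mem_homogeneousSubmodule _ _).mp x.2).pow (k : ℕ)
    have hz := ((mem_homogeneousSubmodule _ _).mp z.2).pow (e + 1 - (k : ℕ))
    have h := hx.mul hz
    have hk : 1 * (k : ℕ) + 1 * (e + 1 - (k : ℕ)) = e + 1 := by
      have := k.2
      omega
    rw [hk] at h
    exact h
  · intro q hq
    set s := (Finset.univ : Finset (Fin (e + 1))).filter (fun j => q j = x) with hs
    have hcard : s.card ≤ e + 1 := by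
      have := Finset.card_le_univ s
      simpa using this
    refine ⟨⟨s.card, by omega⟩, ?_⟩
    apply Subtype.ext
    rw [polyPD_pr_coe]
    show _ = (x : MvPolynomial (Fin r) ℂ) ^ s.card *
      (z : MvPolynomial (Fin r) ℂ) ^ (e + 1 - s.card)
    rw [← Finset.prod_mul_prod_compl s]
    congr 1
    · rw [Finset.prod_congr rfl (g := fun _ => (x : MvPolynomial (Fin r) ℂ))]
      · rw [Finset.prod_const]
      · intro j hj
        rw [(Finset.mem_filter.mp hj).2]
    · rw [Finset.prod_congr rfl (g := fun _ => (z : MvPolynomial (Fin r) ℂ))]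
      · rw [Finset.prod_const, Finset.card_compl, Fintype.card_fin]
      · intro j hj
        rw [Finset.mem_compl, hs, Finset.mem_filter] at hj
        rcases hq j with h | h
        · exact absurd ⟨Finset.mem_univ j, h⟩ hj
        · rw [h]

theorem exists_polyPD (r e : ℕ) :
    ∃ P : PD (Sd r 1) (Sd r (e + 1)) (Sd r e) (e + 1), P.mu = muP r e :=
  ⟨{ mu := muP r e
     pr := polyPD_pr r e
     pr_upd := polyPD_pr_upd r e
     span := polyPD_span r e
     plane := polyPD_plane r e }, rfl⟩

/-- the polynomial instance -/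
noncomputable def polyPD (r e : ℕ) : PD (Sd r 1) (Sd r (e + 1)) (Sd r e) (e + 1) :=
  (exists_polyPD r e).choose

lemma polyPD_mu (r e : ℕ) : (polyPD r e).mu = muP r e := (exists_polyPD r e).choose_spec

end Pool.Agent.H39.OP
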