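import Mathlib

/-!
# Job OP-C2 : the positivity lemma

`G m b` (`m` a position, `b` a binary word) does not depend on the letter of `b` at `m`, and
satisfies `G m b = - h true (b[m ↦ true]) - h false (b[m ↦ false])` where
`h c b = ∑_{k : b k = c} G k b`.  Then `G = 0`.

PROOF.  Compute `N = ∑_c ∑_b |h c b|² ≥ 0`, where `|h c b|² = conj (h c b) * ∑_{k : b k = c} G k b`.
So `N = ∑_k ∑_c ∑_{b : b k = c} G k b * conj (h c b)`.  For fixed `k` pair the `b` with `b k = true`
with `b' = b[k ↦ false]`; `G k b' = G k b`.  Hence
`N = ∑_k ∑_{b : b k = true} G k b * conj (h true b + h false (b[k ↦ false]))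
   = - ∑_k ∑_{b : b k = true} |G k b|²` by the relation (as `b[k ↦ true] = b`).
The real number `N` is `≥ 0` and `≤ 0`, so every `G k b` with `b k = true` is `0`, and by `hG` every
`G k b` is `0`.
-/

open Function Finset

namespace Pool.Agent.H39.OP

/-- Summing over both values of one letter counts every word twice. -/
theorem Pos_double {M : Type*} [Fintype M] [DecidableEq M] (k : M) (F : (M → Bool) → ℂ) :
    ∑ b, (F (update b k true) + F (update b k false)) = 2 * ∑ b, F b := by
  have h1 : ∀ b : M → Bool, F (update b k true) + F (update b k false)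
      = F b + F (update b k (!(b k))) := by
    intro b
    cases hb : b k with
    | true =>
      have : update b k true = b := by rw [← hb]; exact update_eq_self k b
      rw [this]; rfl
    | false =>
      have : update b k false = b := by rw [← hb]; exact update_eq_self k b
      rw [this, add_comm]; rfl
  rw [Finset.sum_congr rfl (fun b _ => h1 b), Finset.sum_add_distrib]
  have h2 : ∑ b : M → Bool, F (update b k (!(b k))) = ∑ b, F b := by
    have hinv : Involutive (fun b : M → Bool => update b k (!(b k))) := by
      intro b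
      simp
    exact Equiv.sum_comp (hinv.toPerm) F
  rw [h2]; ring

theorem pos_lemma {M : Type*} [Fintype M] [DecidableEq M] (G : M → (M → Bool) → ℂ)
    (hG : ∀ m b c, G m (update b m c) = G m b)
    (hr : ∀ m b, G m b
      = - (∑ k ∈ univ.filter (fun k => update b m true k = true), G k (update b m true))
        - ∑ k ∈ univ.filter (fun k => update b m false k = false), G k (update b m false)) :
    ∀ m b, G m b = 0 := by
  set h : Bool → (M → Bool) → ℂ := fun c b => ∑ k ∈ univ.filter (fun k => b k = c), G k b with hh
  -- step 1: the double sum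
  have step1 : ∀ b : M → Bool, ∑ c : Bool, h c b * (starRingEnd ℂ) (h c b)
      = ∑ k, G k b * (starRingEnd ℂ) (h (b k) b) := by
    intro b
    have : ∀ c : Bool, h c b * (starRingEnd ℂ) (h c b)
        = ∑ k, (if b k = c then G k b * (starRingEnd ℂ) (h (b k) b) else 0) := by
      intro c
      rw [← Finset.sum_filter]
      have e : h c b * (starRingEnd ℂ) (h c b)
          = (∑ k ∈ univ.filter (fun k => b k = c), G k b) * (starRingEnd ℂ) (h c b) := rfl
      rw [e, Finset.sum_mul]
      refine Finset.sum_congr rfl fun k hk => ?_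
      rw [(Finset.mem_filter.mp hk).2]
    rw [Finset.sum_congr rfl (fun c _ => this c), Finset.sum_comm]
    refine Finset.sum_congr rfl fun k _ => ?_
    simp
  -- step 2
  have step2 : ∀ k, 2 * ∑ b, G k b * (starRingEnd ℂ) (h (b k) b)
      = - ∑ b, G k b * (starRingEnd ℂ) (G k b) := by
    intro k
    rw [← Pos_double k (fun b => G k b * (starRingEnd ℂ) (h (b k) b)), ← Finset.sum_neg_distrib]
    refine Finset.sum_congr rfl fun b _ => ?_
    simp only [hG, update_self]
    rw [← mul_add, ← map_add]
    have e := hr k b
    have e2 : h true (update b k true) + h false (update b k false) = - G k b := by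
      have : G k b = - h true (update b k true) - h false (update b k false) := e
      rw [this]; ring
    rw [e2, map_neg]; ring
  have step3 : (2 : ℂ) * ∑ b, ∑ c : Bool, h c b * (starRingEnd ℂ) (h c b)
      = - ∑ k, ∑ b, G k b * (starRingEnd ℂ) (G k b) := by
    rw [Finset.sum_congr rfl (fun b _ => step1 b), Finset.sum_comm, Finset.mul_sum,
      ← Finset.sum_neg_distrib]
    exact Finset.sum_congr rfl fun k _ => step2 k
  have step4 : (2 : ℝ) * ∑ b, ∑ c : Bool, Complex.normSq (h c b)
      = - ∑ k, ∑ b, Complex.normSq (G k b) := by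
    have : (((2 : ℝ) * ∑ b, ∑ c : Bool, Complex.normSq (h c b) : ℝ) : ℂ)
        = ((- ∑ k, ∑ b, Complex.normSq (G k b) : ℝ) : ℂ) := by
      push_cast
      simp only [Complex.mul_conj] at step3
      exact step3
    exact_mod_cast this
  have pos : 0 ≤ ∑ b, ∑ c : Bool, Complex.normSq (h c b) :=
    Finset.sum_nonneg fun b _ => Finset.sum_nonneg fun c _ => Complex.normSq_nonneg _
  have nn : ∀ k ∈ (univ : Finset M), 0 ≤ ∑ b, Complex.normSq (G k b) := fun k _ =>
    Finset.sum_nonneg fun b _ => Complex.normSq_nonneg _
  have z : ∑ k, ∑ b, Complex.normSq (G k b) = 0 := by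
    have := Finset.sum_nonneg nn
    linarith
  intro m b
  have zm := (Finset.sum_eq_zero_iff_of_nonneg nn).mp z m (Finset.mem_univ m)
  have zb := (Finset.sum_eq_zero_iff_of_nonneg
    (fun b _ => Complex.normSq_nonneg (G m b))).mp zm b (Finset.mem_univ b)
  exact Complex.normSq_eq_zero.mp zb

end Pool.Agent.H39.OP
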