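import Pool.Agent.H39.OP.Coef
import Pool.Agent.H39.OP.Pos

/-!
# Job OP-C3 : the restriction lemma

`F q x z` is additive and homogeneous in the letters `q m`, `m ∈ Act`, and in `x`, antisymmetric in
`(x, z)`, satisfies the Jacobi identity at every active position, and vanishes when all active
letters are in `{x, z}`.  Then `F = 0`.

PROOF.  Show by induction on `T ⊆ Act` (`Finset.induction_on`) the statement `P(T)`:
for all `q x z` with `q m ∈ {x, z}` for all `m ∈ Act \ T` we have `F q x z = 0`.
`P(∅)` is `hbase`; `P(Act)` is the claim.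

Step `P(T) → P(insert m₀ T)`, `m₀ ∈ Act \ T` (if `m₀ ∉ Act` nothing changes; or do the induction
along subsets of `Act`).  Let `S = Act \ T` as a finset and `M' = {m // m ∈ S}` (a Fintype).
Fix `x z w : U` and `q₀ : M → U` (the letters outside `S`).  For `b : M' → Bool` let `Q b : M → U`
be the word with letters `q₀ m` for `m ∉ S` and, for `m ∈ S`, `x` if `b m = true`, `z` if
`b m = false`.  Put `G m b = F (update (Q b) m w) x z`  (`m : M'`); it does not depend on `b m`.
(1) For all `b`:  `F (Q b) w z = - ∑_{m : b m = true} G m b`.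
    Indeed for all `τ : ℂ`, `P(T)` applies to the vectors `x + τ • w`, `z` and the word which is
    `x + τ • w` at the `m ∈ S` with `b m = true` and `Q b` elsewhere, so `F (that) (x + τ w) z = 0`.
    By `hxadd`, `hxsmul` this is `F (that) x z + τ F (that) w z`.  By `coef` (twice, with
    `T := image of {m | b m = true}`, and `MulAt` of `fun q => F q x z`, `fun q => F q w z`) it is a
    polynomial `p₁ + X * p₂` in `τ`, which vanishes for all `τ`, hence is zero
    (`Polynomial.funext`); its coefficient 1 is
    `∑_{m : b m = true} F (update (Q b) m w) x z + F (Q b) w z = 0`.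
(2) For all `b`:  `F (Q b) x w = - ∑_{m : b m = false} G m b`: the same with `z + τ • w`
    (use antisymmetry: `F q x z = - F q z x` and apply the argument of (1) to `(z, x)`).
(3) Jacobi at `m` for the word `Q b`: `G m b = F (update (Q b) m w) x z
    = - F (update (Q b) m x) z w - F (update (Q b) m z) w x
    = F (update (Q b) m x) w z + F (update (Q b) m z) x w
    = F (Q (b[m ↦ true])) w z + F (Q (b[m ↦ false])) x w`
    `= - ∑_{k : b[m↦true] k = true} G k (b[m↦true]) - ∑_{k : b[m↦false] k = false} G k (b[m↦false])`.
By `pos_lemma`, `G = 0`, which is `P(insert m₀ T)`: a word `q` with `q m ∈ {x, z}` for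
`m ∈ Act \ insert m₀ T` is `update (Q b) m₀ (q m₀)` for `q₀ = q`, `w = q m₀` and a suitable `b`.
-/

open Function Polynomial Finset

namespace Pool.Agent.H39.OP

private theorem RL_lin {M U : Type*} [DecidableEq M] [AddCommGroup U] [Module ℂ U]
    (Act : Finset M) (F : (M → U) → U → U → ℂ)
    (hm : ∀ x z, MulAt Act (fun q => F q x z))
    (hxadd : ∀ q x x' z, F q (x + x') z = F q x z + F q x' z)
    (hxsmul : ∀ q (c : ℂ) x z, F q (c • x) z = c * F q x z)
    (S : Finset M) (hS : S ⊆ Act)
    (hP : ∀ q x z, (∀ m ∈ S, q m = x ∨ q m = z) → F q x z = 0)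
    (T : Finset M) (hT : T ⊆ S) (q : M → U) (x z w : U) (h1 : ∀ m ∈ T, q m = x)
    (h2 : ∀ m ∈ S, m ∉ T → q m = z) :
    F q w z = - ∑ m ∈ T, F (update q m w) x z := by
  obtain ⟨p1, hp1, -, hp1c⟩ := coef T (fun q => F q x z) ((hm x z).mono (hT.trans hS)) q
    (fun _ => w)
  obtain ⟨p2, hp2, hp2c, -⟩ := coef T (fun q => F q w z) ((hm w z).mono (hT.trans hS)) q
    (fun _ => w)
  have h0 : p1 + X * p2 = 0 := by
    apply Polynomial.funext
    intro τ
    rw [eval_add, eval_mul, eval_X, eval_zero, hp1, hp2]
    have h3 := hP (fun m => if m ∈ T then q m + τ • w else q m) (x + τ • w) z (by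
      intro m hmS
      by_cases hmT : m ∈ T
      · left
        rw [if_pos hmT, h1 m hmT]
      · right
        rw [if_neg hmT, h2 m hmS hmT])
    rw [hxadd, hxsmul] at h3
    exact h3
  have h4 := congrArg (fun p : ℂ[X] => p.coeff 1) h0
  simp only [coeff_add, coeff_zero] at h4
  rw [show (1 : ℕ) = 0 + 1 from rfl, coeff_X_mul, hp2c] at h4
  simp only [zero_add] at h4
  rw [hp1c] at h4
  linear_combination h4

private theorem RL_step {M U : Type*} [DecidableEq M] [AddCommGroup U] [Module ℂ U]
    (Act : Finset M) (F : (M → U) → U → U → ℂ)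
    (hm : ∀ x z, MulAt Act (fun q => F q x z))
    (hxadd : ∀ q x x' z, F q (x + x') z = F q x z + F q x' z)
    (hxsmul : ∀ q (c : ℂ) x z, F q (c • x) z = c * F q x z)
    (hanti : ∀ q x z, F q z x = - F q x z)
    (hjac : ∀ m ∈ Act, ∀ q w x z,
      F (update q m w) x z + F (update q m x) z w + F (update q m z) w x = 0)
    (S : Finset M) (hS : S ⊆ Act)
    (hP : ∀ q x z, (∀ m ∈ S, q m = x ∨ q m = z) → F q x z = 0)
    (m₀ : M) (hm₀ : m₀ ∈ S) (q : M → U) (x z : U)
    (hq : ∀ m ∈ S, m ≠ m₀ → q m = x ∨ q m = z) : F q x z = 0 := by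
  classical
  let Q : ({m // m ∈ S} → Bool) → M → U := fun b m =>
    if h : m ∈ S then (if b ⟨m, h⟩ = true then x else z) else q m
  have hQin : ∀ (b : {m // m ∈ S} → Bool) (m : {m // m ∈ S}),
      Q b m = if b m = true then x else z := by
    intro b m
    simp only [Q]
    rw [dif_pos m.2]
  have hQout : ∀ (b : {m // m ∈ S} → Bool) (m : M), m ∉ S → Q b m = q m := by
    intro b m h
    simp only [Q]
    rw [dif_neg h]
  set w := q m₀ with hw
  have hupd : ∀ (b : {m // m ∈ S} → Bool) (m : {m // m ∈ S}) (c : Bool),
      update (Q b) (m : M) (if c = true then x else z) = Q (update b m c) := by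
    intro b m c
    funext k
    by_cases hk : k = (m : M)
    · subst hk
      rw [update_self, hQin, update_self]
    · rw [update_of_ne hk]
      by_cases hkS : k ∈ S
      · have h1 := hQin b ⟨k, hkS⟩
        have h2 := hQin (update b m c) ⟨k, hkS⟩
        have h3 : (⟨k, hkS⟩ : {m // m ∈ S}) ≠ m := fun h => hk (congrArg Subtype.val h)
        rw [update_of_ne h3] at h2
        exact h1.trans h2.symm
      · rw [hQout _ _ hkS, hQout _ _ hkS]
  have hupd2 : ∀ (b : {m // m ∈ S} → Bool) (m : {m // m ∈ S}) (c : Bool),
      update (Q (update b m c)) (m : M) w = update (Q b) (m : M) w := by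
    intro b m c
    rw [← hupd, update_idem]
  have key : ∀ (b : {m // m ∈ S} → Bool),
      F (Q b) w z = - ∑ k ∈ univ.filter (fun k => b k = true), F (update (Q b) (k : M) w) x z ∧
      F (Q b) w x = ∑ k ∈ univ.filter (fun k => b k = false), F (update (Q b) (k : M) w) x z := by
    intro b
    constructor
    · have h1 := RL_lin Act F hm hxadd hxsmul S hS hP
        ((univ.filter (fun k : {m // m ∈ S} => b k = true)).map (Function.Embedding.subtype _))
        (by
          intro m hmm
          obtain ⟨k, -, rfl⟩ := Finset.mem_map.1 hmm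
          exact k.2) (Q b) x z w
        (by
          intro m hmm
          obtain ⟨k, hk, rfl⟩ := Finset.mem_map.1 hmm
          have h2 := (Finset.mem_filter.1 hk).2
          show Q b (k : M) = x
          rw [hQin, if_pos h2])
        (by
          intro m hmS hmm
          have h2 : ¬ b ⟨m, hmS⟩ = true := by
            intro h3
            exact hmm (Finset.mem_map.2 ⟨⟨m, hmS⟩, Finset.mem_filter.2 ⟨Finset.mem_univ _, h3⟩, rfl⟩)
          have h3 := hQin b ⟨m, hmS⟩
          rw [if_neg h2] at h3
          exact h3)
      rw [h1, Finset.sum_map]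
      rfl
    · have h1 := RL_lin Act F hm hxadd hxsmul S hS hP
        ((univ.filter (fun k : {m // m ∈ S} => b k = false)).map (Function.Embedding.subtype _))
        (by
          intro m hmm
          obtain ⟨k, -, rfl⟩ := Finset.mem_map.1 hmm
          exact k.2) (Q b) z x w
        (by
          intro m hmm
          obtain ⟨k, hk, rfl⟩ := Finset.mem_map.1 hmm
          have h2 := (Finset.mem_filter.1 hk).2
          show Q b (k : M) = z
          rw [hQin, if_neg (by rw [h2]; simp)])
        (by
          intro m hmS hmm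
          have h2 : b ⟨m, hmS⟩ = true := by
            by_contra h3
            rw [Bool.not_eq_true] at h3
            exact hmm (Finset.mem_map.2 ⟨⟨m, hmS⟩, Finset.mem_filter.2 ⟨Finset.mem_univ _, h3⟩, rfl⟩)
          have h3 := hQin b ⟨m, hmS⟩
          rw [if_pos h2] at h3
          exact h3)
      rw [h1, Finset.sum_map, ← Finset.sum_neg_distrib]
      refine Finset.sum_congr rfl fun k _ => ?_
      rw [hanti, neg_neg]
      rfl
  have hG := pos_lemma (fun (m : {m // m ∈ S}) (b : {m // m ∈ S} → Bool) =>
      F (update (Q b) (m : M) w) x z)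
    (by
      intro m b c
      show F (update (Q (update b m c)) (m : M) w) x z = F (update (Q b) (m : M) w) x z
      rw [hupd2])
    (by
      intro m b
      have hj := hjac m (hS m.2) (Q b) w x z
      have e1 := hupd b m true
      have e0 := hupd b m false
      rw [if_pos rfl] at e1
      rw [if_neg (by simp)] at e0
      rw [e1, e0, (key (update b m false)).2, hanti _ w z, (key (update b m true)).1] at hj
      show F (update (Q b) (m : M) w) x z =
        - (∑ k ∈ univ.filter (fun k => update b m true k = true),
          F (update (Q (update b m true)) (k : M) w) x z) -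
        ∑ k ∈ univ.filter (fun k => update b m false k = false),
          F (update (Q (update b m false)) (k : M) w) x z
      linear_combination hj)
  have h1 := hG ⟨m₀, hm₀⟩ (fun m => decide (q m = x))
  have h2 : update (Q (fun m => decide (q m = x))) m₀ w = q := by
    funext k
    by_cases hk : k = m₀
    · subst hk
      rw [update_self]
    · rw [update_of_ne hk]
      by_cases hkS : k ∈ S
      · have h3 := hQin (fun m => decide (q m = x)) ⟨k, hkS⟩
        have h4 : Q (fun m => decide (q m = x)) k = if decide (q k = x) = true then x else z := h3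
        rw [h4]
        rcases hq k hkS hk with h5 | h5
        · rw [if_pos (by rw [h5]; simp), h5]
        · by_cases h6 : q k = x
          · rw [if_pos (by rw [h6]; simp), h6]
          · rw [if_neg (by simpa using h6), h5]
      · exact hQout (fun m => decide (q m = x)) k hkS
  have h3 : F (update (Q (fun m => decide (q m = x))) m₀ w) x z = 0 := h1
  rw [h2] at h3
  exact h3

theorem RL {M U : Type*} [DecidableEq M] [AddCommGroup U] [Module ℂ U] (Act : Finset M)
    (F : (M → U) → U → U → ℂ)
    (hm : ∀ x z, MulAt Act (fun q => F q x z))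
    (hxadd : ∀ q x x' z, F q (x + x') z = F q x z + F q x' z)
    (hxsmul : ∀ q (c : ℂ) x z, F q (c • x) z = c * F q x z)
    (hanti : ∀ q x z, F q z x = - F q x z)
    (hjac : ∀ m ∈ Act, ∀ q w x z,
      F (update q m w) x z + F (update q m x) z w + F (update q m z) w x = 0)
    (hbase : ∀ q x z, (∀ m ∈ Act, q m = x ∨ q m = z) → F q x z = 0) :
    ∀ q x z, F q x z = 0 := by
  have main : ∀ T : Finset M, T ⊆ Act →
      ∀ q x z, (∀ m ∈ Act \ T, q m = x ∨ q m = z) → F q x z = 0 := by
    intro T
    induction T using Finset.induction_on with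
    | empty =>
      intro _ q x z h
      exact hbase q x z (fun m hmA => h m (by simpa using hmA))
    | insert m₀ T hm₀ ih =>
      intro hT q x z h
      have hmA : m₀ ∈ Act := hT (Finset.mem_insert_self _ _)
      have hTA : T ⊆ Act := fun k hk => hT (Finset.mem_insert_of_mem hk)
      refine RL_step Act F hm hxadd hxsmul hanti hjac (Act \ T) Finset.sdiff_subset (ih hTA) m₀
        (Finset.mem_sdiff.2 ⟨hmA, hm₀⟩) q x z ?_
      intro m hmS hne
      refine h m (Finset.mem_sdiff.2 ⟨(Finset.mem_sdiff.1 hmS).1, ?_⟩)
      intro h5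
      rcases Finset.mem_insert.1 h5 with h6 | h6
      · exact hne h6
      · exact (Finset.mem_sdiff.1 hmS).2 h6
  intro q x z
  exact main Act (Finset.Subset.refl _) q x z (by simp)

end Pool.Agent.H39.OP
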