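import Pool.Agent.H39.OP.HLGood
import Pool.Agent.H39.OP.RL
import Pool.Agent.H39.OP.PV

/-!
# Job OP-C7 : if all active slots are good with one bivector and there are `≥ D + 2` rows, `F = 0`

PROOF.  Fix `a₀ X Z`; we show `F a₀ X Z = 0`.
Step 1 (reduction to products).  `fun a => F a X Z` is `MulAt Act`, every element of `A` is in the
span of `range P.pr`; so it suffices to show `F a X Z = 0` for all `a` with `a i ∈ range P.pr` for
`i ∈ Act` (induction over finsets `T ⊆ Act`: the claim `F a X Z = 0` for all `a` with
`a i ∈ range P.pr` for `i ∈ Act \ T`, using `Submodule.span_induction` in slot `i`).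
Step 2 (RL).  Take `M = I × Fin D`, `ActM = Act ×ˢ univ`, and
`F₀ q x z = F (fun i => if i ∈ Act then P.pr (fun j => q (i, j)) else a₀ i) (update X l₀ x)
(update Z l₀ z)`.  Updating `q` at `(i, j)`, `i ∈ Act`, replaces the slot `i` by `P.mu a' u` for a
suitable `a'` independent of `u` (`P.pr_upd`), so `MulAt ActM (F₀ · x z)`, and the Jacobi identity of
`F₀` at `(i, j)` is `Good P F i l₀`.  Additivity in `x` is `h.mulX`; `F₀ q z x = - F₀ q x z` is
`h.alt` applied to `update X l₀ x`, `update Z l₀ z`.
Step 3 (base of RL by PV).  Suppose `q (i, j) ∈ {x, z}` for all `i ∈ Act`, `j`.  Let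
`v : Fin (D + 1) → A` be given by `P.plane x z`.  Define `F₁ : (I → (Fin (D + 1) → ℂ)) → ℂ` by
`F₁ b = F (fun i => if i ∈ Act then ∑ k, b i k • v k else a₀ i) (update X l₀ x) (update Z l₀ z)`.
`PV (D + 1)` applies (`MulAt Act F₁`; `hS` from `h.sym`, `hG` from `h.gar`: for `i, j ∈ Act` the
swapped family is again of the given form), so `F₁ = 0`; and the family in question is
`b i = Pi.single (k i) 1` where `P.pr (q (i, ·)) = v (k i)`.
With `q` such that the slots are the given products, `x = X l₀`, `z = Z l₀` (`update_eq_self`), RL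
gives `F a X Z = 0`.
-/

open Function

namespace Pool.Agent.H39.OP

variable {U A A' : Type*} [AddCommGroup U] [Module ℂ U] [AddCommGroup A] [Module ℂ A]
    [AddCommGroup A'] [Module ℂ A'] {D : ℕ} {P : PD U A A' D}
    {I Ω ρ : Type*} [DecidableEq I] [DecidableEq Ω] [DecidableEq ρ]

private theorem HLBase_swap_mem {Act : Finset I} {i j : I} (hi : i ∈ Act) (hj : j ∈ Act) (m : I) :
    Equiv.swap i j m ∈ Act ↔ m ∈ Act := by
  by_cases h1 : m = i
  · subst h1
    rw [Equiv.swap_apply_left]
    exact ⟨fun _ => hi, fun _ => hj⟩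
  · by_cases h2 : m = j
    · subst h2
      rw [Equiv.swap_apply_right]
      exact ⟨fun _ => hj, fun _ => hi⟩
    · rw [Equiv.swap_apply_of_ne_of_ne h1 h2]

private theorem HLBase_comp {B : Type*} {Act : Finset I} {i j : I} (hi : i ∈ Act) (hj : j ∈ Act)
    (g : B → A) (b : I → B) (a : I → A) :
    (fun m => if m ∈ Act then g ((b ∘ Equiv.swap i j) m) else a m) =
      (fun m => if m ∈ Act then g (b m) else a m) ∘ Equiv.swap i j := by
  funext m
  show (if m ∈ Act then g (b (Equiv.swap i j m)) else a m) =
    (if Equiv.swap i j m ∈ Act then g (b (Equiv.swap i j m)) else a (Equiv.swap i j m))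
  by_cases h : m ∈ Act
  · rw [if_pos h, if_pos ((HLBase_swap_mem hi hj m).2 h)]
  · have h1 : m ≠ i := by rintro rfl; exact h hi
    have h2 : m ≠ j := by rintro rfl; exact h hj
    rw [if_neg h, if_neg (fun h3 => h ((HLBase_swap_mem hi hj m).1 h3)),
      Equiv.swap_apply_of_ne_of_ne h1 h2]

/-- the case where the active slots are products with letters in a plane -/
private theorem HLBase_plane {row : I → ρ} {t : I} {Act : Finset I} {Om : Finset Ω}
    {F : (I → A) → (Ω → U) → (Ω → U) → ℂ} (h : HLH P row t Act Om F)
    (hc : D + 2 ≤ (Act.image row).card) (a : I → A) (X Z : Ω → U) (x z : U)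
    (q : I → Fin D → U) (hq : ∀ i ∈ Act, ∀ j, q i j = x ∨ q i j = z) :
    F (fun i => if i ∈ Act then P.pr (q i) else a i) X Z = 0 := by
  obtain ⟨v, hv⟩ := P.plane x z
  let g : (Fin (D + 1) → ℂ) → A := fun b => ∑ k, b k • v k
  have hgadd : ∀ b b', g (b + b') = g b + g b' := fun b b' => by
    simp only [g, Pi.add_apply, add_smul, Finset.sum_add_distrib]
  have hgsmul : ∀ (c : ℂ) b, g (c • b) = c • g b := fun c b => by
    simp only [g, Pi.smul_apply, smul_eq_mul, mul_smul, Finset.smul_sum]
  have hupd : ∀ (b : I → (Fin (D + 1) → ℂ)) (m : I), m ∈ Act → ∀ u,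
      (fun i => if i ∈ Act then g (update b m u i) else a i) =
        update (fun i => if i ∈ Act then g (b i) else a i) m (g u) := by
    intro b m hm u
    funext i
    by_cases hi : i = m
    · subst hi
      rw [update_self, update_self, if_pos hm]
    · rw [update_of_ne hi, update_of_ne hi]
  have hPV := PV (D + 1) Act row t h.tAct h.trow
    (fun b : I → (Fin (D + 1) → ℂ) => F (fun i => if i ∈ Act then g (b i) else a i) X Z)
    { add := by
        intro m hm b u u'
        show F (fun i => if i ∈ Act then g (update b m (u + u') i) else a i) X Z = _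
        rw [hupd b m hm, hgadd, (h.mulA X Z).add m hm, hupd b m hm, hupd b m hm]
      smul := by
        intro m hm b c u
        show F (fun i => if i ∈ Act then g (update b m (c • u) i) else a i) X Z = _
        rw [hupd b m hm, hgsmul, (h.mulA X Z).smul m hm, hupd b m hm] }
    (by
      intro i hi j hj hij b
      show F (fun m => if m ∈ Act then g ((b ∘ Equiv.swap i j) m) else a m) X Z = _
      rw [HLBase_comp hi hj g b a, h.sym i hi j hj hij])
    (by
      intro y hy hyt b
      have h1 := h.gar y hy hyt (fun i => if i ∈ Act then g (b i) else a i) X Z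
      rw [← h1]
      congr 1
      refine Finset.sum_congr rfl fun y' hy' => ?_
      show F (fun m => if m ∈ Act then g ((b ∘ Equiv.swap t y') m) else a m) X Z = _
      rw [HLBase_comp h.tAct (Finset.mem_filter.1 hy').1 g b a])
    (by omega)
  have hk : ∀ i, ∃ k, i ∈ Act → P.pr (q i) = v k := by
    intro i
    by_cases hi : i ∈ Act
    · obtain ⟨k, hk⟩ := hv (q i) (hq i hi)
      exact ⟨k, fun _ => hk⟩
    · exact ⟨0, fun h' => absurd h' hi⟩
  choose k hk using hk
  have h2 := hPV (fun i => (Pi.single (k i) 1 : Fin (D + 1) → ℂ))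
  have h3 : (fun i => if i ∈ Act then g (Pi.single (k i) 1 : Fin (D + 1) → ℂ) else a i) =
      (fun i => if i ∈ Act then P.pr (q i) else a i) := by
    funext i
    by_cases hi : i ∈ Act
    · rw [if_pos hi, if_pos hi, hk i hi]
      simp only [g]
      rw [Finset.sum_eq_single (k i)]
      · rw [Pi.single_eq_same, one_smul]
      · intro j _ hj
        rw [Pi.single_eq_of_ne hj, zero_smul]
      · intro hj
        exact absurd (Finset.mem_univ _) hj
    · rw [if_neg hi, if_neg hi]
  rw [← h3]
  exact h2

/-- the case where the active slots are products -/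
private theorem HLBase_prod {row : I → ρ} {t : I} {Act : Finset I} {Om : Finset Ω}
    {F : (I → A) → (Ω → U) → (Ω → U) → ℂ} (h : HLH P row t Act Om F) {l₀ : Ω} (hl : l₀ ∈ Om)
    (hgood : ∀ i ∈ Act, Good P F i l₀) (hc : D + 2 ≤ (Act.image row).card)
    (a : I → A) (X Z : Ω → U) (ha : ∀ i ∈ Act, a i ∈ Set.range P.pr) : F a X Z = 0 := by
  have hq0 : ∀ i, ∃ q : Fin D → U, i ∈ Act → P.pr q = a i := by
    intro i
    by_cases hi : i ∈ Act
    · obtain ⟨q, hq⟩ := ha i hi
      exact ⟨q, fun _ => hq⟩
    · exact ⟨fun _ => 0, fun h' => absurd h' hi⟩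
  choose q0 hq0 using hq0
  let fam : (I × Fin D → U) → I → A :=
    fun q i => if i ∈ Act then P.pr (fun j => q (i, j)) else a i
  have hfam : ∀ (q : I × Fin D → U) (i : I) (j : Fin D) (u : U), i ∈ Act →
      fam (update q (i, j) u) = update (fam q) i (P.pr (update (fun j => q (i, j)) j u)) := by
    intro q i j u hi
    funext m
    by_cases hm : m = i
    · subst hm
      rw [update_self]
      simp only [fam]
      rw [if_pos hi]
      congr 1
      funext j'
      by_cases hj : j' = j
      · subst hj
        rw [update_self, update_self]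
      · rw [update_of_ne hj, update_of_ne (fun h' => hj (Prod.ext_iff.1 h').2)]
    · rw [update_of_ne hm]
      simp only [fam]
      have : ∀ j', update q (i, j) u (m, j') = q (m, j') := fun j' =>
        update_of_ne (fun h' => hm (Prod.ext_iff.1 h').1) _ _
      simp only [this]
  have hRL := RL (Act ×ˢ (Finset.univ : Finset (Fin D)))
    (fun (q : I × Fin D → U) (x z : U) => F (fam q) (update X l₀ x) (update Z l₀ z))
    (by
      intro x z
      refine ⟨?_, ?_⟩
      · rintro ⟨i, j⟩ hm q u v
        have hi := (Finset.mem_product.1 hm).1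
        obtain ⟨a', ha'⟩ := P.pr_upd (fun j => q (i, j)) j
        show F (fam (update q (i, j) (u + v))) _ _ =
          F (fam (update q (i, j) u)) _ _ + F (fam (update q (i, j) v)) _ _
        rw [hfam q i j _ hi, hfam q i j _ hi, hfam q i j _ hi, ha', ha', ha', map_add,
          (h.mulA _ _).add i hi]
      · rintro ⟨i, j⟩ hm q c u
        have hi := (Finset.mem_product.1 hm).1
        obtain ⟨a', ha'⟩ := P.pr_upd (fun j => q (i, j)) j
        show F (fam (update q (i, j) (c • u))) _ _ = c * F (fam (update q (i, j) u)) _ _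
        rw [hfam q i j _ hi, hfam q i j _ hi, ha', ha', map_smul, (h.mulA _ _).smul i hi])
    (by
      intro q x x' z
      exact (h.mulX (fam q) (update Z l₀ z)).add l₀ hl X x x')
    (by
      intro q c x z
      exact (h.mulX (fam q) (update Z l₀ z)).smul l₀ hl X c x)
    (by
      intro q x z
      have h1 := h.alt l₀ hl (fam q) (update X l₀ x) (update Z l₀ z)
      rw [update_idem, update_idem, update_self, update_self] at h1
      exact h1)
    (by
      rintro ⟨i, j⟩ hm q w x z
      have hi := (Finset.mem_product.1 hm).1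
      obtain ⟨a', ha'⟩ := P.pr_upd (fun j => q (i, j)) j
      show F (fam (update q (i, j) w)) _ _ + F (fam (update q (i, j) x)) _ _
        + F (fam (update q (i, j) z)) _ _ = 0
      rw [hfam q i j _ hi, hfam q i j _ hi, hfam q i j _ hi, ha', ha', ha']
      exact hgood i hi (fam q) X Z a' w x z)
    (by
      intro q x z hq
      exact HLBase_plane h hc a (update X l₀ x) (update Z l₀ z) x z (fun i j => q (i, j))
        (fun i hi j => hq (i, j) (Finset.mem_product.2 ⟨hi, Finset.mem_univ _⟩)))
  have h1 := hRL (fun m => q0 m.1 m.2) (X l₀) (Z l₀)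
  simp only [update_eq_self] at h1
  have h2 : fam (fun m => q0 m.1 m.2) = a := by
    funext i
    by_cases hi : i ∈ Act
    · simp only [fam]
      rw [if_pos hi]
      exact hq0 i hi
    · simp only [fam]
      rw [if_neg hi]
  rw [h2] at h1
  exact h1

theorem HL_base {row : I → ρ} {t : I} {Act : Finset I} {Om : Finset Ω}
    {F : (I → A) → (Ω → U) → (Ω → U) → ℂ} (h : HLH P row t Act Om F) {l₀ : Ω} (hl : l₀ ∈ Om)
    (hgood : ∀ i ∈ Act, Good P F i l₀) (hc : D + 2 ≤ (Act.image row).card) :
    ∀ a X Z, F a X Z = 0 := by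
  intro a X Z
  have main : ∀ T : Finset I, T ⊆ Act → ∀ a : I → A,
      (∀ i ∈ Act, i ∉ T → a i ∈ Set.range P.pr) → F a X Z = 0 := by
    intro T
    induction T using Finset.induction_on with
    | empty =>
      intro _ a ha
      exact HLBase_prod h hl hgood hc a X Z (fun i hi => ha i hi (Finset.notMem_empty i))
    | insert i₀ T hi₀ ih =>
      intro hT a ha
      have hi₀A : i₀ ∈ Act := hT (Finset.mem_insert_self _ _)
      have hTA : T ⊆ Act := fun k hk => hT (Finset.mem_insert_of_mem hk)
      have key : ∀ u ∈ Submodule.span ℂ (Set.range P.pr), F (update a i₀ u) X Z = 0 := by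
        intro u hu
        induction hu using Submodule.span_induction with
        | mem v hv =>
          refine ih hTA (update a i₀ v) fun i hi hiT => ?_
          by_cases hii : i = i₀
          · subst hii
            rw [update_self]
            exact hv
          · rw [update_of_ne hii]
            refine ha i hi fun h5 => ?_
            rcases Finset.mem_insert.1 h5 with h6 | h6
            · exact hii h6
            · exact hiT h6
        | zero => exact PV_zero (h.mulA X Z) hi₀A a
        | add v v' _ _ h1 h2 => rw [(h.mulA X Z).add i₀ hi₀A, h1, h2, add_zero]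
        | smul c v _ h1 => rw [(h.mulA X Z).smul i₀ hi₀A, h1, mul_zero]
      have h1 := key (a i₀) (P.span (a i₀))
      rwa [update_eq_self] at h1
  exact main Act (Finset.Subset.refl _) a (fun i hi hi' => absurd hi hi')

end Pool.Agent.H39.OP
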