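import Pool.Agent.H39.OP.Defs

/-!
# Job OP-C6 : goodness

`Good P F i l`: the slot `i` satisfies the Jacobi identity with the bivector `l`.

(a) `good_single`: in the situation `HLH`, an active slot `y ≠ t` which is a row on its own is good
with all `l ∈ Om`.
PROOF. `gar` for `y`: the filter is `{y}`, so `F a X Z = - F (a ∘ swap t y) X Z` for all `a`.
For `a₁ = update a y (mu a' w)`, `a₁ ∘ swap t y = update (a ∘ swap t y) t (mu a' w)`.  So the Jacobi
sum of `y` at `a` is minus the Jacobi sum of `t` at `a ∘ swap t y`, which is `0` by `jac`.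

(b) `HLH_psi`: if `y ∈ Act`, `y ≠ t`, the row of `y` contains another active slot, `l₀ ∈ Om`, then
the Jacobi sum `Psi` of `y` and `l₀` satisfies `HLH` with `Act.erase y`, `Om.erase l₀`.
PROOF. `tAct`, `trow` clear.
`mulA`: for `m ∈ Act.erase y`, `update (update a m u) y v = update (update a y v) m u`
(`update_comm`), then `mulA` of `F` three times.  `mulX`: the same with `m ≠ l₀`:
`update (update X m u) l₀ v = update (update X l₀ v) m u`.  `alt`: for `l ≠ l₀`,
`update (update X l (Z l)) l₀ x = update (update X l₀ x) l ((update Z l₀ z) l)` etc., then `alt` of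
`F` three times.
`sym`: for `i, j ∈ Act.erase y` in the same row, `update (a ∘ swap i j) y v =
(update a y v) ∘ swap i j` (as `swap i j` fixes `y`), `sym` of `F`.
`gar`: let `y₁ ∈ Act.erase y` with `row y₁ ≠ row t`.  For `y' ∈ Act.erase y` (`y' ≠ y`, `t ≠ y`)
`update (a ∘ swap t y') y v = (update a y v) ∘ swap t y'`.  If `row y₁ ≠ row y` the filter set is
the same as for `F` and the relation is the sum of three relations `gar` of `F`.
If `row y₁ = row y`, then `gar` for `F` has the extra summand `F ((update a y v) ∘ swap t y)`, and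
`(update a y v) ∘ swap t y = update (update a y (a t)) t v` (`v = mu a' w` etc.), so the extra terms
add up to the Jacobi sum of `t` at `update a y (a t)` with `l₀`, which is `0` by `jac`.
`jac`: for `l ≠ l₀`, `update`s commute; the Jacobi sum of `Psi` at `t, l` is the sum of three Jacobi
sums of `F` at `t, l`, at the points `update a y (mu a' w)`, `update X l₀ x`, … .
-/

open Function

namespace Pool.Agent.H39.OP

variable {U A A' : Type*} [AddCommGroup U] [Module ℂ U] [AddCommGroup A] [Module ℂ A]
    [AddCommGroup A'] [Module ℂ A'] {D : ℕ} {P : PD U A A' D}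
    {I Ω ρ : Type*} [DecidableEq I] [DecidableEq Ω] [DecidableEq ρ]

/-- the slot `i` satisfies the Jacobi identity with the bivector `l` -/
def Good (P : PD U A A' D) (F : (I → A) → (Ω → U) → (Ω → U) → ℂ) (i : I) (l : Ω) : Prop :=
  ∀ (a : I → A) (X Z : Ω → U) (a' : A') (w x z : U),
    F (update a i (P.mu a' w)) (update X l x) (update Z l z)
      + F (update a i (P.mu a' x)) (update X l z) (update Z l w)
      + F (update a i (P.mu a' z)) (update X l w) (update Z l x) = 0

theorem HLGood_swap {B : Type*} (a : I → B) {y t : I} (hyt : y ≠ t) (v : B) :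
    (update a y v) ∘ Equiv.swap t y = update (a ∘ Equiv.swap t y) t v := by
  funext i
  simp only [comp_apply]
  by_cases hi : i = t
  · rw [hi, Equiv.swap_apply_left, update_self, update_self]
  · rw [update_of_ne hi, comp_apply]
    by_cases hi2 : i = y
    · rw [hi2, Equiv.swap_apply_right, update_of_ne hyt.symm]
    · rw [Equiv.swap_apply_of_ne_of_ne hi hi2, update_of_ne hi2]

theorem HLGood_swap2 {B : Type*} (a : I → B) {y t : I} (hyt : y ≠ t) (v : B) :
    (update a y v) ∘ Equiv.swap t y = update (update a y (a t)) t v := by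
  funext i
  simp only [comp_apply]
  by_cases hi : i = t
  · rw [hi, Equiv.swap_apply_left, update_self, update_self]
  · rw [update_of_ne hi]
    by_cases hi2 : i = y
    · rw [hi2, Equiv.swap_apply_right, update_of_ne hyt.symm, update_self]
    · rw [Equiv.swap_apply_of_ne_of_ne hi hi2, update_of_ne hi2, update_of_ne hi2]

theorem HLGood_swap3 {B : Type*} (a : I → B) {y i j : I} (hi : y ≠ i) (hj : y ≠ j) (v : B) :
    update (a ∘ Equiv.swap i j) y v = (update a y v) ∘ Equiv.swap i j := by
  funext k
  simp only [comp_apply]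
  by_cases hk : k = y
  · rw [hk, update_self, Equiv.swap_apply_of_ne_of_ne hi hj, update_self]
  · rw [update_of_ne hk, comp_apply, update_of_ne]
    intro h
    apply hk
    have h2 := congrArg (Equiv.swap i j) h
    rwa [Equiv.swap_apply_self, Equiv.swap_apply_of_ne_of_ne hi hj] at h2

theorem good_single {row : I → ρ} {t : I} {Act : Finset I} {Om : Finset Ω}
    {F : (I → A) → (Ω → U) → (Ω → U) → ℂ} (h : HLH P row t Act Om F) {y : I} (hy : y ∈ Act)
    (hyt : y ≠ t) (hrow : ∀ i ∈ Act, row i = row y → i = y) {l : Ω} (hl : l ∈ Om) :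
    Good P F y l := by
  intro a X Z a' w x z
  have hrt : row y ≠ row t := fun h1 => hyt (h.trow y hy h1)
  have hfil : Act.filter (fun y' => row y' = row y) = {y} := by
    ext i
    simp only [Finset.mem_filter, Finset.mem_singleton]
    constructor
    · rintro ⟨h1, h2⟩
      exact hrow i h1 h2
    · rintro rfl
      exact ⟨hy, rfl⟩
  have hswap : ∀ (a : I → A) (X Z : Ω → U), F a X Z = - F (a ∘ Equiv.swap t y) X Z := by
    intro a X Z
    have h1 := h.gar y hy hrt a X Z
    rw [hfil, Finset.sum_singleton] at h1
    exact eq_neg_of_add_eq_zero_left h1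
  rw [hswap (update a y (P.mu a' w)), hswap (update a y (P.mu a' x)),
    hswap (update a y (P.mu a' z)), HLGood_swap a hyt, HLGood_swap a hyt, HLGood_swap a hyt]
  have h2 := h.jac l hl (a ∘ Equiv.swap t y) X Z a' w x z
  linear_combination -h2

/-- the Jacobi sum of `y` and `l₀` -/
def Psi (P : PD U A A' D) (F : (I → A) → (Ω → U) → (Ω → U) → ℂ) (y : I) (l₀ : Ω) (a' : A')
    (w x z : U) : (I → A) → (Ω → U) → (Ω → U) → ℂ := fun a X Z =>
    F (update a y (P.mu a' w)) (update X l₀ x) (update Z l₀ z)
      + F (update a y (P.mu a' x)) (update X l₀ z) (update Z l₀ w)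
      + F (update a y (P.mu a' z)) (update X l₀ w) (update Z l₀ x)

theorem HLH_psi {row : I → ρ} {t : I} {Act : Finset I} {Om : Finset Ω}
    {F : (I → A) → (Ω → U) → (Ω → U) → ℂ} (h : HLH P row t Act Om F) {y : I} (hy : y ∈ Act)
    (hyt : y ≠ t) {l₀ : Ω} (hl : l₀ ∈ Om) (a' : A') (w x z : U) :
    HLH P row t (Act.erase y) (Om.erase l₀) (Psi P F y l₀ a' w x z) := by
  have halt : ∀ l ∈ Om.erase l₀, ∀ (a : I → A) (X Z : Ω → U) (p r : U),
      F a (update (update X l (Z l)) l₀ p) (update (update Z l (X l)) l₀ r) =
        - F a (update X l₀ p) (update Z l₀ r) := by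
    intro l hl2 a X Z p r
    have hne : l ≠ l₀ := Finset.ne_of_mem_erase hl2
    have h1 := h.alt l (Finset.mem_of_mem_erase hl2) a (update X l₀ p) (update Z l₀ r)
    rw [update_of_ne hne, update_of_ne hne] at h1
    rw [update_comm hne, update_comm hne]
    exact h1
  refine ⟨Finset.mem_erase.2 ⟨hyt.symm, h.tAct⟩, ?_, ?_, ?_, ?_, ?_, ?_, ?_⟩
  · intro i hi hr
    exact h.trow i (Finset.mem_of_mem_erase hi) hr
  · intro X Z
    constructor
    · intro m hm q u v
      have hne : m ≠ y := Finset.ne_of_mem_erase hm
      have hmA := Finset.mem_of_mem_erase hm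
      simp only [Psi, update_comm hne]
      have h1 := (h.mulA (update X l₀ x) (update Z l₀ z)).add m hmA (update q y (P.mu a' w)) u v
      have h2 := (h.mulA (update X l₀ z) (update Z l₀ w)).add m hmA (update q y (P.mu a' x)) u v
      have h3 := (h.mulA (update X l₀ w) (update Z l₀ x)).add m hmA (update q y (P.mu a' z)) u v
      rw [h1, h2, h3]
      ring
    · intro m hm q c u
      have hne : m ≠ y := Finset.ne_of_mem_erase hm
      have hmA := Finset.mem_of_mem_erase hm
      simp only [Psi, update_comm hne]
      have h1 := (h.mulA (update X l₀ x) (update Z l₀ z)).smul m hmA (update q y (P.mu a' w)) c u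
      have h2 := (h.mulA (update X l₀ z) (update Z l₀ w)).smul m hmA (update q y (P.mu a' x)) c u
      have h3 := (h.mulA (update X l₀ w) (update Z l₀ x)).smul m hmA (update q y (P.mu a' z)) c u
      rw [h1, h2, h3]
      ring
  · intro a Z
    constructor
    · intro m hm q u v
      have hne : m ≠ l₀ := Finset.ne_of_mem_erase hm
      have hmA := Finset.mem_of_mem_erase hm
      simp only [Psi, update_comm hne]
      have h1 := (h.mulX (update a y (P.mu a' w)) (update Z l₀ z)).add m hmA (update q l₀ x) u v
      have h2 := (h.mulX (update a y (P.mu a' x)) (update Z l₀ w)).add m hmA (update q l₀ z) u v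
      have h3 := (h.mulX (update a y (P.mu a' z)) (update Z l₀ x)).add m hmA (update q l₀ w) u v
      rw [h1, h2, h3]
      ring
    · intro m hm q c u
      have hne : m ≠ l₀ := Finset.ne_of_mem_erase hm
      have hmA := Finset.mem_of_mem_erase hm
      simp only [Psi, update_comm hne]
      have h1 := (h.mulX (update a y (P.mu a' w)) (update Z l₀ z)).smul m hmA (update q l₀ x) c u
      have h2 := (h.mulX (update a y (P.mu a' x)) (update Z l₀ w)).smul m hmA (update q l₀ z) c u
      have h3 := (h.mulX (update a y (P.mu a' z)) (update Z l₀ x)).smul m hmA (update q l₀ w) c u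
      rw [h1, h2, h3]
      ring
  · intro l hl2 a X Z
    simp only [Psi]
    rw [halt l hl2, halt l hl2, halt l hl2]
    ring
  · intro i hi j hj hr a X Z
    have hiy : y ≠ i := (Finset.ne_of_mem_erase hi).symm
    have hjy : y ≠ j := (Finset.ne_of_mem_erase hj).symm
    have hiA := Finset.mem_of_mem_erase hi
    have hjA := Finset.mem_of_mem_erase hj
    simp only [Psi]
    rw [HLGood_swap3 a hiy hjy, HLGood_swap3 a hiy hjy, HLGood_swap3 a hiy hjy,
      h.sym i hiA j hjA hr, h.sym i hiA j hjA hr, h.sym i hiA j hjA hr]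
  · intro y₁ hy₁ hrt a X Z
    have hy₁A := Finset.mem_of_mem_erase hy₁
    have hterm : ∀ y' ∈ (Act.erase y).filter (fun y' => row y' = row y₁),
        Psi P F y l₀ a' w x z (a ∘ Equiv.swap t y') X Z =
        F ((update a y (P.mu a' w)) ∘ Equiv.swap t y') (update X l₀ x) (update Z l₀ z)
        + F ((update a y (P.mu a' x)) ∘ Equiv.swap t y') (update X l₀ z) (update Z l₀ w)
        + F ((update a y (P.mu a' z)) ∘ Equiv.swap t y') (update X l₀ w) (update Z l₀ x) := by
      intro y' hy'
      have hne : y ≠ y' := (Finset.ne_of_mem_erase (Finset.mem_of_mem_filter y' hy')).symm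
      simp only [Psi]
      rw [HLGood_swap3 a hyt hne, HLGood_swap3 a hyt hne, HLGood_swap3 a hyt hne]
    rw [Finset.sum_congr rfl hterm, Finset.sum_add_distrib, Finset.sum_add_distrib]
    have g1 := h.gar y₁ hy₁A hrt (update a y (P.mu a' w)) (update X l₀ x) (update Z l₀ z)
    have g2 := h.gar y₁ hy₁A hrt (update a y (P.mu a' x)) (update X l₀ z) (update Z l₀ w)
    have g3 := h.gar y₁ hy₁A hrt (update a y (P.mu a' z)) (update X l₀ w) (update Z l₀ x)
    by_cases hr : row y = row y₁
    · have hfil : Act.filter (fun y' => row y' = row y₁) =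
          insert y ((Act.erase y).filter (fun y' => row y' = row y₁)) := by
        ext i
        simp only [Finset.mem_filter, Finset.mem_insert, Finset.mem_erase]
        constructor
        · rintro ⟨h1, h2⟩
          by_cases hi : i = y
          · exact Or.inl hi
          · exact Or.inr ⟨⟨hi, h1⟩, h2⟩
        · rintro (rfl | ⟨⟨_, h1⟩, h2⟩)
          · exact ⟨hy, hr⟩
          · exact ⟨h1, h2⟩
      have hnot : y ∉ (Act.erase y).filter (fun y' => row y' = row y₁) := by
        simp
      rw [hfil, Finset.sum_insert hnot] at g1 g2 g3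
      rw [HLGood_swap2 a hyt] at g1 g2 g3
      have g4 := h.jac l₀ hl (update a y (a t)) X Z a' w x z
      simp only [Psi]
      linear_combination g1 + g2 + g3 - g4
    · have hfil : Act.filter (fun y' => row y' = row y₁) =
          (Act.erase y).filter (fun y' => row y' = row y₁) := by
        ext i
        simp only [Finset.mem_filter, Finset.mem_erase]
        constructor
        · rintro ⟨h1, h2⟩
          refine ⟨⟨?_, h1⟩, h2⟩
          rintro rfl
          exact hr h2
        · rintro ⟨⟨_, h1⟩, h2⟩
          exact ⟨h1, h2⟩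
      rw [hfil] at g1 g2 g3
      simp only [Psi]
      linear_combination g1 + g2 + g3
  · intro l hl2 a X Z b' w' x' z'
    have hne : l ≠ l₀ := Finset.ne_of_mem_erase hl2
    have hlO := Finset.mem_of_mem_erase hl2
    have e1 : ∀ (p v : A), update (update a t p) y v = update (update a y v) t p :=
      fun p v => update_comm hyt.symm _ _ _
    have e2 : ∀ (X : Ω → U) (p v : U), update (update X l p) l₀ v = update (update X l₀ v) l p :=
      fun X p v => update_comm hne _ _ _
    simp only [Psi, e1, e2]
    have j1 := h.jac l hlO (update a y (P.mu a' w)) (update X l₀ x) (update Z l₀ z) b' w' x' z'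
    have j2 := h.jac l hlO (update a y (P.mu a' x)) (update X l₀ z) (update Z l₀ w) b' w' x' z'
    have j3 := h.jac l hlO (update a y (P.mu a' z)) (update X l₀ w) (update Z l₀ x) b' w' x' z'
    linear_combination j1 + j2 + j3

end Pool.Agent.H39.OP
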