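import Pool.Agent.H39.OP.Coef

/-!
# Job OP-C4 : polarisation

PROOF.  Show by induction on `T ⊆ Act`: for all `w : ρ → B` and all `a` with `a i = w (row i)` for
`i ∈ Act \ T`, `F a = 0`.  `T = ∅` is `h0`; `T = Act` is the claim.
Step `T' = insert i₀ T`, `i₀ ∈ Act \ T`.  Let `a` be given with `a i = w (row i)` on `Act \ T'`.
Let `R = (Act \ T).filter (row · = row i₀)` (contains `i₀`), `u = a i₀`,
`a₀ = update a i₀ (w (row i₀))`.
For every `τ : ℂ` the family `fun i => if i ∈ R then a₀ i + τ • u else a₀ i` satisfies the induction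
hypothesis for `T` with `w' = update w (row i₀) (w (row i₀) + τ • u)`, so `F` vanishes on it.
By `coef` (for the finset `R ⊆ Act`), the polynomial vanishes identically and its coefficient 1 is
`∑_{i ∈ R} F (update a₀ i u) = 0`.  Each term equals `F (update a₀ i₀ u) = F a`: for `i ∈ R`,
`(update a₀ i u) ∘ swap i i₀ = update a₀ i₀ u` because `a₀ i = a₀ i₀ = w (row i₀)`, and `hS`.
So `|R| * F a = 0` with `|R| ≥ 1`.
-/

open Function Polynomial Finset

namespace Pool.Agent.H39.OP

theorem polar {I ρ B : Type*} [DecidableEq I] [DecidableEq ρ] [AddCommGroup B] [Module ℂ B]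
    (Act : Finset I) (row : I → ρ) (F : (I → B) → ℂ) (h : MulAt Act F)
    (hS : ∀ i ∈ Act, ∀ j ∈ Act, row i = row j → ∀ a, F (a ∘ Equiv.swap i j) = F a)
    (h0 : ∀ (w : ρ → B) (a : I → B), (∀ i ∈ Act, a i = w (row i)) → F a = 0) :
    ∀ a, F a = 0 := by
  have key : ∀ T : Finset I, T ⊆ Act → ∀ (w : ρ → B) (a : I → B),
      (∀ i ∈ Act, i ∉ T → a i = w (row i)) → F a = 0 := by
    intro T
    induction T using Finset.induction_on with
    | empty => exact fun _ w a ha => h0 w a fun i hi => ha i hi (Finset.notMem_empty i)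
    | insert i₀ T hi₀ ih =>
      intro hT w a ha
      have hi₀A : i₀ ∈ Act := hT (Finset.mem_insert_self i₀ T)
      have hTA : T ⊆ Act := fun i hi => hT (Finset.mem_insert_of_mem hi)
      have ha' : ∀ i ∈ Act, i ∉ T → i ≠ i₀ → a i = w (row i) := fun i hi hiT hne =>
        ha i hi fun hc => (Finset.mem_insert.1 hc).elim hne hiT
      obtain ⟨p, hp, -, hp1⟩ := coef (Act.filter fun i => i ∉ T ∧ row i = row i₀) F
        (h.mono (Finset.filter_subset _ _)) (update a i₀ (w (row i₀))) (fun _ => a i₀)
      have hR : ∀ i, i ∈ Act.filter (fun i => i ∉ T ∧ row i = row i₀) ↔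
          i ∈ Act ∧ i ∉ T ∧ row i = row i₀ := fun i => Finset.mem_filter
      have ha0 : ∀ i ∈ Act, i ∉ T → update a i₀ (w (row i₀)) i = w (row i) := by
        intro i hi hiT
        by_cases hne : i = i₀
        · subst hne
          rw [update_self]
        · rw [update_of_ne hne]
          exact ha' i hi hiT hne
      have hp0 : p = 0 := by
        refine Polynomial.funext fun τ => ?_
        rw [Polynomial.eval_zero, hp]
        refine ih hTA (update w (row i₀) (w (row i₀) + τ • a i₀)) _ ?_
        intro i hi hiT
        by_cases hrow : row i = row i₀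
        · have hiR : i ∈ Act.filter (fun i => i ∉ T ∧ row i = row i₀) := (hR i).2 ⟨hi, hiT, hrow⟩
          rw [if_pos hiR, ha0 i hi hiT, hrow, update_self]
        · have hiR : i ∉ Act.filter (fun i => i ∉ T ∧ row i = row i₀) :=
            fun hc => hrow ((hR i).1 hc).2.2
          rw [if_neg hiR, ha0 i hi hiT, update_of_ne hrow]
      rw [hp0, Polynomial.coeff_zero] at hp1
      have hterm : ∀ m ∈ Act.filter (fun i => i ∉ T ∧ row i = row i₀),
          F (update (update a i₀ (w (row i₀))) m (a i₀)) = F a := by
        intro m hm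
        obtain ⟨hmA, hmT, hmr⟩ := (hR m).1 hm
        by_cases hne : m = i₀
        · subst hne
          rw [update_idem, update_eq_self]
        · rw [← hS m hmA i₀ hi₀A hmr (update (update a i₀ (w (row i₀))) m (a i₀))]
          congr 1
          funext i
          rw [comp_apply]
          by_cases h1 : i = i₀
          · subst h1
            rw [Equiv.swap_apply_right, update_self]
          · by_cases h2 : i = m
            · subst h2
              rw [Equiv.swap_apply_left, update_of_ne (Ne.symm h1), update_self,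
                ha' i hmA hmT h1, hmr]
            · rw [Equiv.swap_apply_of_ne_of_ne h2 h1, update_of_ne h2, update_of_ne h1]
      rw [Finset.sum_congr rfl hterm, Finset.sum_const, eq_comm, nsmul_eq_mul,
        mul_eq_zero] at hp1
      refine hp1.resolve_left ?_
      rw [Nat.cast_eq_zero, Finset.card_eq_zero]
      exact Finset.ne_empty_of_mem ((hR i₀).2 ⟨hi₀A, hi₀, rfl⟩)
  exact fun a => key Act subset_rfl (fun _ => 0) a fun i hi hiA => absurd hi hiA

end Pool.Agent.H39.OP
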