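import Pool.Agent.H39.OP.Defs

/-!
# Job OP-C1 : polynomial dependence on a parameter

PROOF. Induction on `T` (`Finset.induction_on`, generalising `q`; only `MulAt T F` for the smaller
set is needed, `MulAt` restricts to subsets).  `T = ∅`: `p = C (F q)`.
Step `T = insert m T'`, `m ∉ T'`: the argument at `τ` is
`update (fun k => if k ∈ T' then q k + τ • w k else q k) m (q m + τ • w m)`, so by additivity at
`m` it is `F(.. m ↦ q m) + τ * F(.. m ↦ w m)`.  Apply the induction hypothesis to `q` and to
`update q m (w m)` (for both the argument at `m` is the constant value, as `m ∉ T'`;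
`update q m (q m) = q`) : polynomials `p₁`, `p₂`; take `p = p₁ + X * p₂`.
`coeff 0 = p₁.coeff 0`, `coeff 1 = p₁.coeff 1 + p₂.coeff 0`.
-/

open Function Polynomial

namespace Pool.Agent.H39.OP

lemma MulAt.mono {M U : Type*} [DecidableEq M] [AddCommGroup U] [Module ℂ U] {T T' : Finset M}
    {F : (M → U) → ℂ} (h : MulAt T F) (hT : T' ⊆ T) : MulAt T' F :=
  ⟨fun m hm => h.add m (hT hm), fun m hm => h.smul m (hT hm)⟩

theorem coef {M U : Type*} [DecidableEq M] [AddCommGroup U] [Module ℂ U] (T : Finset M)
    (F : (M → U) → ℂ) (h : MulAt T F) (q w : M → U) :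
    ∃ p : ℂ[X], (∀ τ : ℂ, p.eval τ = F (fun m => if m ∈ T then q m + τ • w m else q m)) ∧
      p.coeff 0 = F q ∧ p.coeff 1 = ∑ m ∈ T, F (update q m (w m)) := by
  induction T using Finset.induction_on generalizing q with
  | empty => exact ⟨C (F q), by simp, by simp, by simp [coeff_C]⟩
  | insert m T' hm ih =>
    have hmono : MulAt T' F := h.mono (Finset.subset_insert m T')
    obtain ⟨p₁, h₁, h₁0, h₁1⟩ := ih hmono q
    obtain ⟨p₂, h₂, h₂0, -⟩ := ih hmono (update q m (w m))
    refine ⟨p₁ + X * p₂, ?_, ?_, ?_⟩
    · intro τ
      have e0 : (fun k => if k ∈ insert m T' then q k + τ • w k else q k)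
          = update (fun k => if k ∈ T' then q k + τ • w k else q k) m (q m + τ • w m) := by
        funext k
        by_cases hk : k = m
        · subst hk; simp
        · rw [update_of_ne hk]; simp [Finset.mem_insert, hk]
      have e1 : update (fun k => if k ∈ T' then q k + τ • w k else q k) m (q m)
          = (fun k => if k ∈ T' then q k + τ • w k else q k) := by
        funext k
        by_cases hk : k = m
        · subst hk; simp [hm]
        · rw [update_of_ne hk]
      have e2 : update (fun k => if k ∈ T' then q k + τ • w k else q k) m (w m)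
          = (fun k => if k ∈ T' then update q m (w m) k + τ • w k
              else update q m (w m) k) := by
        funext k
        by_cases hk : k = m
        · subst hk; simp [hm]
        · rw [update_of_ne hk, update_of_ne hk]
      rw [e0, h.add m (Finset.mem_insert_self m T'), h.smul m (Finset.mem_insert_self m T'),
        e1, e2, eval_add, eval_mul, eval_X, h₁, h₂]
    · simp [h₁0]
    · rw [Finset.sum_insert hm, coeff_add, h₁1, show (1 : ℕ) = 0 + 1 from rfl, coeff_X_mul, h₂0,
        add_comm]

end Pool.Agent.H39.OP
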