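import Pool.Agent.H39.OP.C1

/-!
# Job OP-D1a : the differential of `Ep`, `Cp`

All proofs are by induction on the list `T` (generalising `R`), using `Ep_cons`, `Cp_cons`.
* `Ep_eq_zero`, `Cp_eq_zero`: lengths (`Finset.card_erase_of_mem`).
* `del_Ep`: `del * Ep y T R = (-1)^|R| Ep y T R * del + ∑_{i ∈ R} m (y i) * Cp y T (R.erase i)`.
  Induction: `del * Ep(u::T; R) = ∑_i (del * Ep(T; R∖i)) * Ee(y_i u)`; insert the induction
  hypothesis and `del * Ee(y_i u) = m(y_i u) - Ee(y_i u) * del` (`Fk.del_Ee`, `y_i u` homogeneous of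
  degree `d`), with `(-1)^{|R|-1} = (-1)^{|T|}` when `Ep(T; R∖i) ≠ 0` (lengths).  The double sum
  `∑_i ∑_{k ≠ i} m(y_k) Cp(T; R∖i∖k) Ee(y_i u)` and `∑_i (-1)^{|T|} Ep(T; R∖i) m(y_i u)` add up to
  `∑_k m(y_k) Cp(u::T; R∖k)` by `Cp_cons` (`m` commutes with everything: `Fk.mEe`, `Fk.mm`, so with
  `Ep`, `Cp`; `Finset.erase_right_comm`; exchange the order of summation over pairs `i ≠ k`).
* `del_Cp`: `del * Cp(u::T; R) = (-1)^{|T|} m u * del * Ep(T; R) + ∑_i (del * Cp(T; R∖i)) Ee(y_i u)`
  (`Fk.del_m`).  Insert `del_Ep` and the induction hypothesis; the terms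
  `(-1)^{|T|} m u ∑_i m(y_i) Cp(T; R∖i)` and `∑_i (-1)^{|R|-1} Cp(T; R∖i) m(y_i u)` cancel, since
  `Cp(T; R∖i) ≠ 0` only if `|T| = |R|`; the `del` terms are
  `(-1)^{|T|} m u (-1)^{|R|} Ep(T; R) del` (nonzero only if `|T| = |R|`) and
  `- ∑_i (-1)^{|R|-1} Cp(T; R∖i) Ee(y_i u) del`, which is `(-1)^{|R|} Cp(u::T; R) del`.
-/

open MvPolynomial Function

namespace Pool.Agent.H39.OP

open Pool.Agent.H27.OP

variable {σ k : Type*} [Fintype σ] [Field k] {O : Type*} [Ring O] [Algebra k O] {d : ℕ}
variable {I : Type*} [DecidableEq I] (S : Fk σ k O d)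

theorem Ep_eq_zero (y : I → MvPolynomial σ k) (T : List (MvPolynomial σ k)) (R : Finset I)
    (h : T.length ≠ R.card) : Ep S y T R = 0 := by
  induction T generalizing R with
  | nil =>
    rw [Ep_nil, if_neg]
    intro hR
    apply h
    simp [hR]
  | cons u T ih =>
    rw [Ep_cons]
    refine Finset.sum_eq_zero fun i hi => ?_
    rw [ih (R.erase i), zero_mul]
    intro hc
    apply h
    rw [List.length_cons, hc, Finset.card_erase_add_one hi]

theorem Cp_eq_zero (y : I → MvPolynomial σ k) (T : List (MvPolynomial σ k)) (R : Finset I)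
    (h : T.length ≠ R.card + 1) : Cp S y T R = 0 := by
  induction T generalizing R with
  | nil => rw [Cp_nil]
  | cons u T ih =>
    rw [Cp_cons]
    have h1 : T.length ≠ R.card := by
      intro hc
      apply h
      rw [List.length_cons, hc]
    rw [Ep_eq_zero S y T R h1, mul_zero, mul_zero, zero_add]
    refine Finset.sum_eq_zero fun i hi => ?_
    rw [ih (R.erase i), zero_mul]
    intro hc
    apply h1
    rw [hc, Finset.card_erase_add_one hi]

private theorem CpDel_m_Ep (a : MvPolynomial σ k) (y : I → MvPolynomial σ k)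
    (T : List (MvPolynomial σ k)) (R : Finset I) :
    S.m a * Ep S y T R = Ep S y T R * S.m a := by
  induction T generalizing R with
  | nil =>
    rw [Ep_nil]
    split_ifs <;> simp
  | cons u T ih =>
    rw [Ep_cons, Finset.mul_sum, Finset.sum_mul]
    refine Finset.sum_congr rfl fun i _ => ?_
    rw [← mul_assoc, ih, mul_assoc, S.mEe, mul_assoc]

theorem m_Cp (a : MvPolynomial σ k) (y : I → MvPolynomial σ k) (T : List (MvPolynomial σ k))
    (R : Finset I) : S.m a * Cp S y T R = Cp S y T R * S.m a := by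
  induction T generalizing R with
  | nil => rw [Cp_nil, mul_zero, zero_mul]
  | cons u T ih =>
    rw [Cp_cons, mul_add, add_mul, Finset.mul_sum, Finset.sum_mul]
    congr 1
    · have h1 : S.m a * (S.m u * Ep S y T R) = S.m u * Ep S y T R * S.m a := by
        rw [← mul_assoc, S.mm a u, mul_assoc, CpDel_m_Ep, mul_assoc]
      rcases neg_one_pow_eq_or O T.length with h | h
      · rw [h, one_mul, h1]
      · rw [h, neg_one_mul, mul_neg, h1, neg_mul]
    · refine Finset.sum_congr rfl fun i _ => ?_
      rw [← mul_assoc, ih, mul_assoc, S.mEe, mul_assoc]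

private theorem CpDel_swap {M : Type*} [AddCommMonoid M] (R : Finset I) (f g : I → I → M)
    (h : ∀ i ∈ R, ∀ k ∈ R, i ≠ k → f i k = g k i) :
    ∑ i ∈ R, ∑ k ∈ R.erase i, f i k = ∑ k ∈ R, ∑ i ∈ R.erase k, g k i := by
  rw [Finset.sum_comm' (t' := R) (s' := fun k => R.erase k)]
  · refine Finset.sum_congr rfl fun k hk => Finset.sum_congr rfl fun i hi => ?_
    rw [Finset.mem_erase] at hi
    exact h i hi.2 k hk hi.1
  · intro i k
    simp only [Finset.mem_erase]
    constructor
    · rintro ⟨h1, h2, h3⟩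
      exact ⟨⟨Ne.symm h2, h1⟩, h3⟩
    · rintro ⟨⟨h1, h2⟩, h3⟩
      exact ⟨h2, Ne.symm h1, h3⟩

theorem del_Ep (y : I → MvPolynomial σ k) (T : List (MvPolynomial σ k)) (R : Finset I)
    (hy : ∀ i ∈ R, ∀ u ∈ T, (y i * u).IsHomogeneous d) :
    S.del * Ep S y T R = (-1) ^ R.card * (Ep S y T R * S.del)
      + ∑ i ∈ R, S.m (y i) * Cp S y T (R.erase i) := by
  induction T generalizing R with
  | nil =>
    simp only [Ep_nil, Cp_nil, mul_zero, Finset.sum_const_zero, add_zero]
    split_ifs with h
    · subst h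
      simp
    · simp
  | cons u T ih =>
    have hL : ∀ i ∈ R, S.del * (Ep S y T (R.erase i) * S.Ee (y i * u))
        = (-1) ^ R.card * (Ep S y T (R.erase i) * S.Ee (y i * u) * S.del)
          + S.m (y i) * ((-1) ^ T.length * (S.m u * Ep S y T (R.erase i)))
          + ∑ k ∈ R.erase i, S.m (y k) * Cp S y T ((R.erase i).erase k) * S.Ee (y i * u) := by
      intro i hi
      have hc : (R.erase i).card + 1 = R.card := Finset.card_erase_add_one hi
      have h1 := ih (R.erase i) (fun j hj v hv =>
        hy j (Finset.mem_of_mem_erase hj) v (List.mem_cons_of_mem _ hv))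
      have h2 : S.del * S.Ee (y i * u) = S.m (y i * u) - S.Ee (y i * u) * S.del :=
        S.del_Ee (hy i hi u List.mem_cons_self)
      rw [← mul_assoc, h1, add_mul, Finset.sum_mul]
      congr 1
      have h3 : (-1 : O) ^ (R.erase i).card * (Ep S y T (R.erase i) * S.m (y i * u))
          = S.m (y i) * ((-1) ^ T.length * (S.m u * Ep S y T (R.erase i))) := by
        by_cases hT : T.length = (R.erase i).card
        · rw [← hT, ← CpDel_m_Ep, map_mul]
          rcases neg_one_pow_eq_or O T.length with h | h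
          · rw [h, one_mul, one_mul, mul_assoc]
          · rw [h, neg_one_mul, neg_one_mul, mul_neg, mul_assoc]
        · rw [Ep_eq_zero S y T _ hT]
          simp
      rw [mul_assoc, mul_assoc, h2, mul_sub, mul_sub, h3, ← hc, pow_succ, mul_assoc,
        mul_assoc]
      rw [neg_one_mul, mul_neg, sub_eq_add_neg, add_comm]
    rw [Ep_cons, Finset.mul_sum, Finset.sum_congr rfl hL, Finset.sum_add_distrib,
      Finset.sum_add_distrib, Finset.sum_mul, Finset.mul_sum, add_assoc]
    congr 1
    rw [CpDel_swap R (fun i k => S.m (y k) * Cp S y T ((R.erase i).erase k) * S.Ee (y i * u))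
      (fun k i => S.m (y k) * (Cp S y T ((R.erase k).erase i) * S.Ee (y i * u)))]
    · rw [← Finset.sum_add_distrib]
      refine Finset.sum_congr rfl fun i _ => ?_
      rw [Cp_cons, mul_add, Finset.mul_sum]
    · intro i _ k _ _
      rw [Finset.erase_right_comm, mul_assoc]

theorem del_Cp (y : I → MvPolynomial σ k) (T : List (MvPolynomial σ k)) (R : Finset I)
    (hy : ∀ i ∈ R, ∀ u ∈ T, (y i * u).IsHomogeneous d) :
    S.del * Cp S y T R = (-1) ^ R.card * (Cp S y T R * S.del) := by
  induction T generalizing R with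
  | nil => rw [Cp_nil, mul_zero, zero_mul, mul_zero]
  | cons u T ih =>
    have hE := del_Ep S y T R (fun j hj v hv => hy j hj v (List.mem_cons_of_mem _ hv))
    have hL : ∀ i ∈ R, S.del * (Cp S y T (R.erase i) * S.Ee (y i * u))
        = (-1) ^ R.card * (Cp S y T (R.erase i) * S.Ee (y i * u) * S.del)
          - (-1) ^ T.length * (S.m u * (S.m (y i) * Cp S y T (R.erase i))) := by
      intro i hi
      have hc : (R.erase i).card + 1 = R.card := Finset.card_erase_add_one hi
      have h1 := ih (R.erase i) (fun j hj v hv =>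
        hy j (Finset.mem_of_mem_erase hj) v (List.mem_cons_of_mem _ hv))
      have h2 : S.del * S.Ee (y i * u) = S.m (y i * u) - S.Ee (y i * u) * S.del :=
        S.del_Ee (hy i hi u List.mem_cons_self)
      have h3 : (-1 : O) ^ (R.erase i).card * (Cp S y T (R.erase i) * S.m (y i * u))
          = - ((-1) ^ T.length * (S.m u * (S.m (y i) * Cp S y T (R.erase i)))) := by
        by_cases hT : T.length = (R.erase i).card + 1
        · rw [hT, ← m_Cp, map_mul, S.mm (y i) u, pow_succ, mul_assoc, mul_assoc,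
            neg_one_mul, mul_neg, neg_neg]
        · rw [Cp_eq_zero S y T _ hT]
          simp
      rw [← mul_assoc, h1, mul_assoc, mul_assoc, h2, mul_sub, mul_sub, h3, ← hc, pow_succ,
        mul_assoc, mul_assoc]
      rw [neg_one_mul, mul_neg]
      abel
    rw [Cp_cons, mul_add, Finset.mul_sum, Finset.sum_congr rfl hL, Finset.sum_sub_distrib]
    have h4 : S.del * ((-1) ^ T.length * (S.m u * Ep S y T R))
        = (-1) ^ R.card * ((-1) ^ T.length * (S.m u * Ep S y T R) * S.del)
          + ∑ i ∈ R, (-1) ^ T.length * (S.m u * (S.m (y i) * Cp S y T (R.erase i))) := by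
      rw [← Finset.mul_sum, ← Finset.mul_sum]
      have h5 : S.del * (S.m u * Ep S y T R)
          = (-1) ^ R.card * (S.m u * Ep S y T R * S.del)
            + S.m u * ∑ i ∈ R, S.m (y i) * Cp S y T (R.erase i) := by
        rw [← mul_assoc, S.del_m, mul_assoc, hE, mul_add]
        congr 1
        rcases neg_one_pow_eq_or O R.card with h | h
        · rw [h, one_mul, one_mul, mul_assoc]
        · rw [h, neg_one_mul, neg_one_mul, mul_neg, mul_assoc]
      rcases neg_one_pow_eq_or O T.length with h | h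
      · rw [h, one_mul, one_mul, h5]
      · rw [h, neg_one_mul, neg_one_mul, mul_neg, h5, neg_mul, mul_neg]
        abel
    rw [h4, add_mul, mul_add, Finset.sum_mul, Finset.mul_sum]
    abel

end Pool.Agent.H39.OP
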