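import Pool.Agent.H39.OP.CpDel

/-!
# Job OP-D1b : identities for `c1`, `Cp`

All proofs are by induction on the list `T` (generalising `R`), using `Ep_cons`, `Cp_cons`.
* `Cp_congr`: `Cp y T R` only depends on `y` on `R` (prove the same for `Ep` first).
* `Cp_perm`: `Cp (y ∘ e) T R = Cp y T (R.map e)` (`e` a permutation; `(R.map e).erase (e i) =
  (R.erase i).map e`, `Finset.sum_map`).
* `Cp_add`, `Cp_smul`: linearity in the slot `i ∈ R` (the summand `i` of `Cp_cons` is linear through
  `Ee(y_i u)` and does not contain `y_i` elsewhere (`Cp_congr`), the other summands by induction; the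
  same for `Ep`).
* `Cp_single`: `Cp y [z, x] {i} = c1 (y i) x z`.
* `Cp_garnir`: immediate from `Cp_cons` (the `Ep` terms cancel since `m u * m v = m v * m u`), `m`
  commutes with `Cp` (`m_Cp`).
* `c1_jacobi`: expand (`m x * Ee (b * w * z)` and `- m x * Ee (b * z * w)` cancel etc.).
* `c1_boundary`: expand with `Fk.del_Ee`, `Fk.mEe`; e.g.
  `del * Ee(bx) * Ee(fz) = m(bx) * Ee(fz) - Ee(bx) * m(fz) + Ee(bx) * Ee(fz) * del`.
* `Cp_comm`: if `Y * Ee p = (-1)^n * (Ee p * Y)` for all `p` and `Y` commutes with all `m a` then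
  `Y * Cp y T R = (-1)^{n |R|} * (Cp y T R * Y)`; apply it to `Y = Cp y' T' R'`, `n = |R'|`
  (which satisfies the hypothesis, again by induction, `Fk.EeEe`).
-/

open MvPolynomial Function

namespace Pool.Agent.H39.OP

open Pool.Agent.H27.OP

variable {σ k : Type*} [Fintype σ] [Field k] {O : Type*} [Ring O] [Algebra k O] {d : ℕ}
variable {I : Type*} [DecidableEq I] (S : Fk σ k O d)

private theorem CpId_Ep_congr (y y' : I → MvPolynomial σ k) (T : List (MvPolynomial σ k))
    (R : Finset I) (h : ∀ i ∈ R, y i = y' i) : Ep S y T R = Ep S y' T R := by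
  induction T generalizing R with
  | nil => rw [Ep_nil, Ep_nil]
  | cons u T ih =>
    rw [Ep_cons, Ep_cons]
    refine Finset.sum_congr rfl fun i hi => ?_
    rw [ih (R.erase i) (fun j hj => h j (Finset.mem_of_mem_erase hj)), h i hi]

theorem Cp_congr (y y' : I → MvPolynomial σ k) (T : List (MvPolynomial σ k)) (R : Finset I)
    (h : ∀ i ∈ R, y i = y' i) : Cp S y T R = Cp S y' T R := by
  induction T generalizing R with
  | nil => rw [Cp_nil, Cp_nil]
  | cons u T ih =>
    rw [Cp_cons, Cp_cons, CpId_Ep_congr S y y' T R h]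
    congr 1
    refine Finset.sum_congr rfl fun i hi => ?_
    rw [ih (R.erase i) (fun j hj => h j (Finset.mem_of_mem_erase hj)), h i hi]

private theorem CpId_Ep_perm (e : Equiv.Perm I) (y : I → MvPolynomial σ k)
    (T : List (MvPolynomial σ k)) (R : Finset I) :
    Ep S (y ∘ e) T R = Ep S y T (R.map e.toEmbedding) := by
  induction T generalizing R with
  | nil => simp only [Ep_nil, Finset.map_eq_empty]
  | cons u T ih =>
    rw [Ep_cons, Ep_cons, Finset.sum_map]
    refine Finset.sum_congr rfl fun i hi => ?_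
    rw [ih (R.erase i), Finset.map_erase]
    rfl

theorem Cp_perm (e : Equiv.Perm I) (y : I → MvPolynomial σ k) (T : List (MvPolynomial σ k))
    (R : Finset I) : Cp S (y ∘ e) T R = Cp S y T (R.map e.toEmbedding) := by
  induction T generalizing R with
  | nil => rw [Cp_nil, Cp_nil]
  | cons u T ih =>
    rw [Cp_cons, Cp_cons, Finset.sum_map, CpId_Ep_perm]
    congr 1
    refine Finset.sum_congr rfl fun i hi => ?_
    rw [ih (R.erase i), Finset.map_erase]
    rfl

private theorem CpId_Ep_upd (y : I → MvPolynomial σ k) (T : List (MvPolynomial σ k))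
    (R : Finset I) (i : I) (u : MvPolynomial σ k) :
    Ep S (update y i u) T (R.erase i) = Ep S y T (R.erase i) :=
  CpId_Ep_congr S _ _ T _ fun _ hk => update_of_ne (Finset.ne_of_mem_erase hk) _ _

private theorem CpId_Cp_upd (y : I → MvPolynomial σ k) (T : List (MvPolynomial σ k))
    (R : Finset I) (i : I) (u : MvPolynomial σ k) :
    Cp S (update y i u) T (R.erase i) = Cp S y T (R.erase i) :=
  Cp_congr S _ _ T _ fun _ hk => update_of_ne (Finset.ne_of_mem_erase hk) _ _

private theorem CpId_Ep_add (y : I → MvPolynomial σ k) (T : List (MvPolynomial σ k))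
    (R : Finset I) {i : I} (hi : i ∈ R) (u v : MvPolynomial σ k) :
    Ep S (update y i (u + v)) T R = Ep S (update y i u) T R + Ep S (update y i v) T R := by
  induction T generalizing R with
  | nil =>
    have h : R ≠ ∅ := Finset.ne_empty_of_mem hi
    rw [Ep_nil, Ep_nil, Ep_nil, if_neg h, add_zero]
  | cons w T ih =>
    rw [Ep_cons, Ep_cons, Ep_cons, ← Finset.sum_add_distrib]
    refine Finset.sum_congr rfl fun j hj => ?_
    by_cases hij : j = i
    · subst hij
      rw [CpId_Ep_upd, CpId_Ep_upd, CpId_Ep_upd, update_self, update_self, update_self,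
        add_mul, map_add, mul_add]
    · rw [update_of_ne hij, update_of_ne hij, update_of_ne hij,
        ih (R.erase j) (Finset.mem_erase.2 ⟨Ne.symm hij, hi⟩), add_mul]

theorem Cp_add (y : I → MvPolynomial σ k) (T : List (MvPolynomial σ k)) (R : Finset I)
    {i : I} (hi : i ∈ R) (u v : MvPolynomial σ k) :
    Cp S (update y i (u + v)) T R = Cp S (update y i u) T R + Cp S (update y i v) T R := by
  induction T generalizing R with
  | nil => rw [Cp_nil, Cp_nil, Cp_nil, add_zero]
  | cons w T ih =>
    have hs : ∑ j ∈ R, Cp S (update y i (u + v)) T (R.erase j) *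
          S.Ee (update y i (u + v) j * w) =
        ∑ j ∈ R, Cp S (update y i u) T (R.erase j) * S.Ee (update y i u j * w) +
        ∑ j ∈ R, Cp S (update y i v) T (R.erase j) * S.Ee (update y i v j * w) := by
      rw [← Finset.sum_add_distrib]
      refine Finset.sum_congr rfl fun j hj => ?_
      by_cases hij : j = i
      · subst hij
        rw [CpId_Cp_upd, CpId_Cp_upd, CpId_Cp_upd, update_self, update_self, update_self,
          add_mul, map_add, mul_add]
      · rw [update_of_ne hij, update_of_ne hij, update_of_ne hij,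
          ih (R.erase j) (Finset.mem_erase.2 ⟨Ne.symm hij, hi⟩), add_mul]
    rw [Cp_cons, Cp_cons, Cp_cons, CpId_Ep_add S y T R hi, hs, mul_add, mul_add]
    abel

private theorem CpId_Ep_smul (y : I → MvPolynomial σ k) (T : List (MvPolynomial σ k))
    (R : Finset I) {i : I} (hi : i ∈ R) (c : k) (u : MvPolynomial σ k) :
    Ep S (update y i (c • u)) T R = c • Ep S (update y i u) T R := by
  induction T generalizing R with
  | nil =>
    have h : R ≠ ∅ := Finset.ne_empty_of_mem hi
    rw [Ep_nil, Ep_nil, if_neg h, smul_zero]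
  | cons w T ih =>
    rw [Ep_cons, Ep_cons, Finset.smul_sum]
    refine Finset.sum_congr rfl fun j hj => ?_
    by_cases hij : j = i
    · subst hij
      rw [CpId_Ep_upd, CpId_Ep_upd, update_self, update_self,
        smul_mul_assoc, map_smul, mul_smul_comm]
    · rw [update_of_ne hij, update_of_ne hij,
        ih (R.erase j) (Finset.mem_erase.2 ⟨Ne.symm hij, hi⟩), smul_mul_assoc]

theorem Cp_smul (y : I → MvPolynomial σ k) (T : List (MvPolynomial σ k)) (R : Finset I)
    {i : I} (hi : i ∈ R) (c : k) (u : MvPolynomial σ k) :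
    Cp S (update y i (c • u)) T R = c • Cp S (update y i u) T R := by
  induction T generalizing R with
  | nil => rw [Cp_nil, Cp_nil, smul_zero]
  | cons w T ih =>
    have hs : ∑ j ∈ R, Cp S (update y i (c • u)) T (R.erase j) *
          S.Ee (update y i (c • u) j * w) =
        c • ∑ j ∈ R, Cp S (update y i u) T (R.erase j) * S.Ee (update y i u j * w) := by
      rw [Finset.smul_sum]
      refine Finset.sum_congr rfl fun j hj => ?_
      by_cases hij : j = i
      · subst hij
        rw [CpId_Cp_upd, CpId_Cp_upd, update_self, update_self,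
          smul_mul_assoc, map_smul, mul_smul_comm]
      · rw [update_of_ne hij, update_of_ne hij,
          ih (R.erase j) (Finset.mem_erase.2 ⟨Ne.symm hij, hi⟩), smul_mul_assoc]
    rw [Cp_cons, Cp_cons, CpId_Ep_smul S y T R hi, hs, mul_smul_comm, mul_smul_comm, smul_add]

theorem Cp_single (y : I → MvPolynomial σ k) (i : I) (x z : MvPolynomial σ k) :
    Cp S y [z, x] {i} = c1 S (y i) x z := by
  have h0 : ({i} : Finset I).erase i = ∅ := by simp
  have h1 : Ep S y [x] {i} = S.Ee (y i * x) := by
    rw [Ep_cons, Finset.sum_singleton, h0, Ep_nil, if_pos rfl, one_mul]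
  have h2 : Cp S y [x] ∅ = S.m x := by
    rw [Cp_cons, Finset.sum_empty, Ep_nil, if_pos rfl]
    simp
  rw [Cp_cons, Finset.sum_singleton, h0, h1, h2, c1]
  simp only [List.length_cons, List.length_nil, zero_add, pow_one, neg_one_mul]
  abel

theorem Cp_garnir (y : I → MvPolynomial σ k) (T : List (MvPolynomial σ k)) (R : Finset I)
    (u v : MvPolynomial σ k) :
    ∑ i ∈ R, Cp S y T (R.erase i) * c1 S (y i) u v
      = S.m u * Cp S y (v :: T) R - S.m v * Cp S y (u :: T) R := by
  rw [Cp_cons, Cp_cons, mul_add, mul_add, Finset.mul_sum, Finset.mul_sum]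
  have h1 : S.m u * ((-1) ^ T.length * (S.m v * Ep S y T R)) =
      S.m v * ((-1) ^ T.length * (S.m u * Ep S y T R)) := by
    rcases neg_one_pow_eq_or O T.length with h | h
    · rw [h, one_mul, one_mul, ← mul_assoc, ← mul_assoc, S.mm u v]
    · rw [h, neg_one_mul, neg_one_mul, mul_neg, mul_neg, ← mul_assoc, ← mul_assoc, S.mm u v]
  rw [h1, add_sub_add_left_eq_sub, ← Finset.sum_sub_distrib]
  refine Finset.sum_congr rfl fun i _ => ?_
  rw [c1, mul_sub, ← mul_assoc, ← mul_assoc, ← mul_assoc, ← mul_assoc, m_Cp, m_Cp]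

theorem c1_jacobi (b w x z : MvPolynomial σ k) :
    c1 S (b * w) x z + c1 S (b * x) z w + c1 S (b * z) w x = 0 := by
  unfold c1
  rw [show b * x * w = b * w * x by ring, show b * z * x = b * x * z by ring,
    show b * z * w = b * w * z by ring]
  abel

theorem c1_boundary (b f x z : MvPolynomial σ k) (h1 : (b * x).IsHomogeneous d)
    (h2 : (b * z).IsHomogeneous d) (h3 : (f * x).IsHomogeneous d)
    (h4 : (f * z).IsHomogeneous d) :
    S.m f * c1 S b x z + S.m b * c1 S f x z
      = S.del * (S.Ee (b * x) * S.Ee (f * z) + S.Ee (f * x) * S.Ee (b * z))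
        - (S.Ee (b * x) * S.Ee (f * z) + S.Ee (f * x) * S.Ee (b * z)) * S.del := by
  have key : ∀ p q : MvPolynomial σ k, p.IsHomogeneous d → q.IsHomogeneous d →
      S.del * (S.Ee p * S.Ee q) = S.m p * S.Ee q - S.m q * S.Ee p + S.Ee p * S.Ee q * S.del := by
    intro p q hp hq
    rw [← mul_assoc, S.del_Ee hp, sub_mul, mul_assoc (S.Ee p), S.del_Ee hq, mul_sub,
      ← S.mEe, ← mul_assoc]
    abel
  rw [mul_add, add_mul, key _ _ h1 h4, key _ _ h3 h2]
  unfold c1
  rw [mul_sub, mul_sub, ← mul_assoc, ← mul_assoc, ← mul_assoc, ← mul_assoc, ← map_mul, ← map_mul,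
    ← map_mul, ← map_mul]
  abel

private theorem CpId_sgn (n m : ℕ) (a b c Y : O) (h1 : Y * a = (-1) ^ n * (a * Y))
    (h2 : Y * b = (-1) ^ m * (b * Y)) (hc : c = a * b) :
    Y * c = (-1) ^ (n + m) * (c * Y) := by
  subst hc
  rw [← mul_assoc, h1, mul_assoc, mul_assoc, h2, pow_add]
  rcases neg_one_pow_eq_or O m with h | h
  · rw [h, one_mul, mul_one, mul_assoc]
  · rw [h, neg_one_mul, mul_neg, mul_neg, mul_neg_one, neg_mul, mul_assoc]

private theorem CpId_Ep_comm (Y : O) (n : ℕ) (hE : ∀ p, Y * S.Ee p = (-1) ^ n * (S.Ee p * Y))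
    (y : I → MvPolynomial σ k) (T : List (MvPolynomial σ k)) (R : Finset I) :
    Y * Ep S y T R = (-1) ^ (n * R.card) * (Ep S y T R * Y) := by
  induction T generalizing R with
  | nil =>
    rw [Ep_nil]
    split_ifs with h
    · subst h
      simp
    · simp
  | cons u T ih =>
    rw [Ep_cons, Finset.mul_sum, Finset.sum_mul, Finset.mul_sum]
    refine Finset.sum_congr rfl fun i hi => ?_
    have hc : n * (R.erase i).card + n = n * R.card := by
      rw [← Finset.card_erase_add_one hi]
      ring
    rw [← hc]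
    exact CpId_sgn _ _ _ _ _ _ (ih (R.erase i)) (hE _) rfl

private theorem CpId_Cp_comm (Y : O) (n : ℕ) (hE : ∀ p, Y * S.Ee p = (-1) ^ n * (S.Ee p * Y))
    (hm : ∀ a, Y * S.m a = S.m a * Y)
    (y : I → MvPolynomial σ k) (T : List (MvPolynomial σ k)) (R : Finset I) :
    Y * Cp S y T R = (-1) ^ (n * R.card) * (Cp S y T R * Y) := by
  induction T generalizing R with
  | nil => rw [Cp_nil, mul_zero, zero_mul, mul_zero]
  | cons u T ih =>
    rw [Cp_cons, mul_add, add_mul, mul_add, Finset.mul_sum, Finset.sum_mul, Finset.mul_sum]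
    congr 1
    · have h1 : Y * (S.m u * Ep S y T R) = (-1) ^ (0 + n * R.card) * (S.m u * Ep S y T R * Y) :=
        CpId_sgn _ _ _ _ _ _ (by rw [pow_zero, one_mul, hm]) (CpId_Ep_comm S Y n hE y T R) rfl
      rw [zero_add] at h1
      rcases neg_one_pow_eq_or O T.length with h | h
      · rw [h, one_mul, h1]
      · rw [h, neg_one_mul, mul_neg, h1, neg_mul, mul_neg]
    · refine Finset.sum_congr rfl fun i hi => ?_
      have hc : n * (R.erase i).card + n = n * R.card := by
        rw [← Finset.card_erase_add_one hi]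
        ring
      rw [← hc]
      exact CpId_sgn _ _ _ _ _ _ (ih (R.erase i)) (hE _) rfl

theorem Cp_comm (y y' : I → MvPolynomial σ k) (T T' : List (MvPolynomial σ k))
    (R R' : Finset I) :
    Cp S y T R * Cp S y' T' R' = (-1) ^ (R.card * R'.card) * (Cp S y' T' R' * Cp S y T R) := by
  have h1 : ∀ p, S.Ee p * Cp S y T R = (-1) ^ (1 * R.card) * (Cp S y T R * S.Ee p) := by
    intro p
    refine CpId_Cp_comm S (S.Ee p) 1 (fun q => ?_) (fun a => (S.mEe a p).symm) y T R
    rw [pow_one, neg_one_mul, S.EeEe]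
  refine CpId_Cp_comm S (Cp S y T R) R.card (fun p => ?_) (fun a => (m_Cp S a y T R).symm) y' T' R'
  rw [h1 p, one_mul]
  rcases neg_one_pow_eq_or O R.card with h | h
  · rw [h, one_mul, one_mul]
  · rw [h, neg_one_mul, neg_one_mul, neg_neg]

end Pool.Agent.H39.OP
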