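import Mathlib

/-!
# MP_85ff8f_ag, three-halves theorem: basic definitions of the multilinear part

`MulAt T F` : `F : (M → U) → ℂ` is additive and homogeneous in every argument `m ∈ T`.
`PD U A A' D` : `A` plays the role of the forms of degree `D` in the linear forms `U`, `A'` of the
forms of degree `D - 1`; `mu` is multiplication `A' × U → A`, `pr` the product of `D` linear forms.
`HLH` : hypotheses of the Hitting Lemma.
-/

open Function

namespace Pool.Agent.H39.OP

/-- additivity and homogeneity at the positions of `T` -/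
structure MulAt {M U : Type*} [DecidableEq M] [AddCommGroup U] [Module ℂ U] (T : Finset M)
    (F : (M → U) → ℂ) : Prop where
  add : ∀ m ∈ T, ∀ (q : M → U) (u v : U),
    F (update q m (u + v)) = F (update q m u) + F (update q m v)
  smul : ∀ m ∈ T, ∀ (q : M → U) (c : ℂ) (u : U), F (update q m (c • u)) = c * F (update q m u)

/-- abstract data: forms of degree `D` (type `A`) and `D - 1` (type `A'`) in linear forms `U` -/
structure PD (U A A' : Type*) [AddCommGroup U] [Module ℂ U] [AddCommGroup A] [Module ℂ A]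
    [AddCommGroup A'] [Module ℂ A'] (D : ℕ) where
  mu : A' →ₗ[ℂ] U →ₗ[ℂ] A
  pr : (Fin D → U) → A
  pr_upd : ∀ (q : Fin D → U) (j : Fin D), ∃ a' : A', ∀ u : U, pr (update q j u) = mu a' u
  span : ∀ a : A, a ∈ Submodule.span ℂ (Set.range pr)
  plane : ∀ x z : U, ∃ v : Fin (D + 1) → A, ∀ q : Fin D → U, (∀ j, q j = x ∨ q j = z) →
    ∃ k, pr q = v k

/-- hypotheses of the Hitting Lemma.  `I` slots (active ones: `Act`), partitioned into rows by
`row`; `t` is an active slot which is a row on its own; `Ω` indexes the bivectors `X l ∧ Z l`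
(active ones: `Om`). -/
structure HLH {U A A' : Type*} [AddCommGroup U] [Module ℂ U] [AddCommGroup A] [Module ℂ A]
    [AddCommGroup A'] [Module ℂ A'] {D : ℕ} (P : PD U A A' D)
    {I Ω ρ : Type*} [DecidableEq I] [DecidableEq Ω] [DecidableEq ρ] (row : I → ρ) (t : I)
    (Act : Finset I) (Om : Finset Ω) (F : (I → A) → (Ω → U) → (Ω → U) → ℂ) : Prop where
  tAct : t ∈ Act
  trow : ∀ i ∈ Act, row i = row t → i = t
  mulA : ∀ X Z, MulAt Act (fun a => F a X Z)
  mulX : ∀ a Z, MulAt Om (fun X => F a X Z)
  alt : ∀ l ∈ Om, ∀ a X Z, F a (update X l (Z l)) (update Z l (X l)) = - F a X Z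
  sym : ∀ i ∈ Act, ∀ j ∈ Act, row i = row j → ∀ a X Z, F (a ∘ Equiv.swap i j) X Z = F a X Z
  gar : ∀ y ∈ Act, row y ≠ row t → ∀ a X Z,
    F a X Z + ∑ y' ∈ Act.filter (fun y' => row y' = row y), F (a ∘ Equiv.swap t y') X Z = 0
  jac : ∀ l ∈ Om, ∀ (a : I → A) (X Z : Ω → U) (a' : A') (w x z : U),
    F (update a t (P.mu a' w)) (update X l x) (update Z l z)
      + F (update a t (P.mu a' x)) (update X l z) (update Z l w)
      + F (update a t (P.mu a' z)) (update X l w) (update Z l x) = 0

end Pool.Agent.H39.OP
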