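import Pool.Agent.H39.OP.HLBase

/-!
# The Hitting Lemma
-/

open Function

namespace Pool.Agent.H39.OP

variable {U A A' : Type*} [AddCommGroup U] [Module ℂ U] [AddCommGroup A] [Module ℂ A]
    [AddCommGroup A'] [Module ℂ A'] {D : ℕ} {P : PD U A A' D}
    {I Ω ρ : Type*} [DecidableEq I] [DecidableEq Ω] [DecidableEq ρ]

theorem HL {row : I → ρ} {t : I} : ∀ (n : ℕ) (Act : Finset I) (Om : Finset Ω)
    (F : (I → A) → (Ω → U) → (Ω → U) → ℂ), Act.card = n → HLH P row t Act Om F →
    D + 2 ≤ (Act.image row).card → Act.card + 1 ≤ (Act.image row).card + Om.card →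
    ∀ a X Z, F a X Z = 0 := by
  intro n
  induction n with
  | zero =>
    intro Act Om F hn h _ _
    rw [Finset.card_eq_zero] at hn
    exact absurd h.tAct (by rw [hn]; exact Finset.notMem_empty _)
  | succ n ih =>
    intro Act Om F hn h hc hc2
    have himg : (Act.image row).card ≤ Act.card := Finset.card_image_le
    have hne : Om.Nonempty := by
      rw [← Finset.card_pos]; omega
    obtain ⟨l₀, hl₀⟩ := hne
    refine HL_base h hl₀ ?_ hc
    intro y hy
    by_cases hyt : y = t
    · subst hyt
      exact fun a X Z a' w x z => h.jac l₀ hl₀ a X Z a' w x z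
    by_cases hrow : ∀ i ∈ Act, row i = row y → i = y
    · exact good_single h hy hyt hrow hl₀
    push Not at hrow
    obtain ⟨i, hi, hiy, hne⟩ := hrow
    have himg2 : (Act.erase y).image row = Act.image row := by
      ext r
      simp only [Finset.mem_image, Finset.mem_erase]
      constructor
      · rintro ⟨j, ⟨_, hj⟩, hr⟩
        exact ⟨j, hj, hr⟩
      · rintro ⟨j, hj, hr⟩
        by_cases hjy : j = y
        · exact ⟨i, ⟨hne, hi⟩, by rw [hiy, ← hjy, hr]⟩
        · exact ⟨j, ⟨hjy, hj⟩, hr⟩
    intro a X Z a' w x z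
    have h1 := Finset.card_erase_of_mem hy
    have h2 := Finset.card_erase_of_mem hl₀
    have h3 : 0 < Om.card := Finset.card_pos.mpr ⟨l₀, hl₀⟩
    exact ih (Act.erase y) (Om.erase l₀) (Psi P F y l₀ a' w x z) (by omega)
      (HLH_psi h hy hyt hl₀ a' w x z) (by rw [himg2]; exact hc) (by rw [himg2]; omega) a X Z

end Pool.Agent.H39.OP
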