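import Pool.Agent.H39.OP.Rows
import Pool.Agent.H39.OP.HL

/-!
# MP_85ff8f_ag: configurations of rows and the functions to which the Hitting Lemma is applied

Everything for `d = e + 2`; slots are natural numbers.
-/

open MvPolynomial Function

namespace Pool.Agent.H39.OP

open Pool.Agent.H27.OP

/-- forms of degree `j` (as a type) -/
abbrev Sd (r j : ℕ) : Type := homogeneousSubmodule (Fin r) ℂ j

/-- multiplication by linear forms -/
noncomputable def muP (r e : ℕ) : Sd r e →ₗ[ℂ] Sd r 1 →ₗ[ℂ] Sd r (e + 1) :=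
  LinearMap.mk₂ ℂ (fun a u => ⟨a.1 * u.1, ((mem_homogeneousSubmodule _ _).mp a.2).mul
      ((mem_homogeneousSubmodule _ _).mp u.2)⟩)
    (fun a b u => Subtype.ext (add_mul _ _ _))
    (fun c a u => Subtype.ext (smul_mul_assoc _ _ _))
    (fun a u v => Subtype.ext (mul_add _ _ _))
    (fun c a u => Subtype.ext (mul_smul_comm _ _ _))

lemma muP_coe {r e : ℕ} (a : Sd r e) (u : Sd r 1) :
    ((muP r e a u : Sd r (e + 1)) : MvPolynomial (Fin r) ℂ) = (a : MvPolynomial (Fin r) ℂ) * u :=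
  rfl

variable {r e : ℕ}

/-- slots of a list of rows -/
def slots {P : Type*} : List (Finset ℕ × List P) → Finset ℕ
  | [] => ∅
  | q :: l => q.1 ∪ slots l

lemma mem_slots {P : Type*} {l : List (Finset ℕ × List P)} {i : ℕ} :
    i ∈ slots l ↔ ∃ q ∈ l, i ∈ q.1 := by
  induction l with
  | nil => simp [slots]
  | cons q l ih => simp [slots, ih]

/-- valid configurations of rows -/
structure Cfg (l : List (Finset ℕ × List (MvPolynomial (Fin r) ℂ))) : Prop where
  ne : ∀ q ∈ l, q.1.Nonempty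
  len : ∀ q ∈ l, q.2.length = q.1.card + 1
  hom : ∀ q ∈ l, ∀ u ∈ q.2, u.IsHomogeneous 1
  disj : l.Pairwise (fun q q' => Disjoint q.1 q'.1)

/-- replace the linear forms of a row `{i}` by `[Z i, X i]` -/
noncomputable def rw' (X Z : ℕ → Sd r 1) (q : Finset ℕ × List (MvPolynomial (Fin r) ℂ)) :
    Finset ℕ × List (MvPolynomial (Fin r) ℂ) :=
  if q.1.card = 1 then
    (q.1, [((∑ i ∈ q.1, Z i : Sd r 1) : MvPolynomial (Fin r) ℂ),
      ((∑ i ∈ q.1, X i : Sd r 1) : MvPolynomial (Fin r) ℂ)])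
  else q

lemma rw'_fst (X Z : ℕ → Sd r 1) (q : Finset ℕ × List (MvPolynomial (Fin r) ℂ)) :
    (rw' X Z q).1 = q.1 := by
  unfold rw'; split_ifs <;> rfl

variable {E : Type*} [AddCommGroup E] [Module ℂ E] (S : Fk (Fin r) ℂ (Module.End ℂ E) (e + 2))

/-- the functions of slots and bivectors -/
noncomputable def FF (Φ : E →ₗ[ℂ] ℂ) (l : List (Finset ℕ × List (MvPolynomial (Fin r) ℂ)))
    (κ : (ℕ → Sd r (e + 1)) → E) (a : ℕ → Sd r (e + 1)) (X Z : ℕ → Sd r 1) : ℂ :=
  Φ (Pr S (fun i => (a i : MvPolynomial (Fin r) ℂ)) (l.map (rw' X Z)) (κ a))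

/-- the claim of the main induction for configurations with `s` rows -/
def Claim (κ₀ : E) (w K s : ℕ) : Prop :=
  ∀ (l : List (Finset ℕ × List (MvPolynomial (Fin r) ℂ))) (y : ℕ → Sd r (e + 1))
    (g : MvPolynomial (Fin r) ℂ), l.length = s → Cfg l → wt l = w → g.IsHomogeneous (K - s) →
    Pr S (fun i => (y i : MvPolynomial (Fin r) ℂ)) l (S.m g κ₀) ∈ LinearMap.range S.del

end Pool.Agent.H39.OP
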