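import Pool.Agent.H39.OP.FDefs

/-!
# Job OP-D3b : exchange relations of `FF`

`l = ({t}, T₀) :: l'` a valid configuration of `s + 1` rows; `y : ℕ → P` the slot function.

(a) `FF_gar`: exchange of `t` with another row.
Let `q ∈ l'`, `R = q.1` (`t ∉ R`), `l' = l₁ ++ q :: l₂`, `T = (rw' X Z q).2`,
`rest = (l₁ ++ l₂).map (rw' X Z)`.  For every slot function `y`, by `Pr_cons`, `Cp_single`
(the first row is `({t}, [Z t, X t])`), `Pr_move` and `Cp_comm` (`{t}` against `R`):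
`Pr y (l.map _) = ε • (Cp y T R * c1 (y t) (X t) (Z t)) * Pr y rest` with a sign `ε` which depends
only on the cardinalities.  For `y' ∈ R` and `y ∘ swap t y'`: `Pr (y ∘ swap) rest = Pr y rest`
(`Pr_congr`, the rows of `rest` contain neither `t` nor `y'`),
`Cp (y ∘ swap t y') T R = Cp y T ((insert t R).erase y')` (`Cp_perm`), `(y ∘ swap) t = y y'`.
So the sum over `t` and all `y' ∈ R` is
`ε • (∑_{i ∈ insert t R} Cp y T ((insert t R).erase i) * c1 (y i) (X t) (Z t)) * Pr y rest`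
(the term `i = t` is the original one), which by `Cp_garnir` is
`ε • (m (X t) * Cp y (Z t :: T) (insert t R) - m (Z t) * Cp y (X t :: T) (insert t R)) * Pr y rest`.
Applied to `κ = m g κ₀` this is `ε • (Pr y ((insert t R, Z t :: T) :: rest) (m (X t * g) κ₀) - …)`
(`m_Cp`, `m_Pr`, `S.m` multiplicative), and both terms are in `range S.del` by
`Claim S κ₀ w K s` : `((insert t R, Z t :: T) :: rest)` has `s` rows, is `Cfg` (rows `T` of `rw'`:
length and homogeneity), same `wt`, and `X t * g` is homogeneous of degree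
`K - (s + 1) + 1 = K - s` as `s + 1 ≤ K`.  `Φ` kills `range S.del`.

(b) `FF_gar_f`: exchange of `t` with the extra slot `f`: `κ a = m (a f) κ₀`.
`Pr y (l.map _) = c1 (y t) (X t) (Z t) * Pr y rest`, `rest = l'.map (rw' X Z)`; the sum of the two terms
is `(c1 (y t) X Z * Pr y rest) (m (y f) κ₀) + (c1 (y f) X Z * Pr y rest) (m (y t) κ₀)
= ((m (y f) * c1 (y t) X Z + m (y t) * c1 (y f) X Z) * Pr y rest) κ₀` (`m_Pr`, `m` commutes with
`c1`), which by `c1_boundary` is `(del * W - W * del) (Pr y rest κ₀)`; `del (Pr y rest κ₀) =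
± Pr y rest (del κ₀) = 0` (`del_Pr`), so it is in `range S.del`.
-/

open MvPolynomial Function

namespace Pool.Agent.H39.OP

open Pool.Agent.H27.OP

variable {r e : ℕ} {E : Type*} [AddCommGroup E] [Module ℂ E]
  (S : Fk (Fin r) ℂ (Module.End ℂ E) (e + 2)) (Φ : E →ₗ[ℂ] ℂ)

lemma FGar_coe_hom {j : ℕ} (u : Sd r j) : (u : MvPolynomial (Fin r) ℂ).IsHomogeneous j :=
  (mem_homogeneousSubmodule _ _).mp u.2

lemma FGar_cfg_map {l : List (Finset ℕ × List (MvPolynomial (Fin r) ℂ))} (h : Cfg l)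
    (X Z : ℕ → Sd r 1) : Cfg (l.map (rw' X Z)) := by
  refine ⟨?_, ?_, ?_, ?_⟩
  · intro q hq
    obtain ⟨q', hq', rfl⟩ := List.mem_map.1 hq
    rw [rw'_fst]
    exact h.ne q' hq'
  · intro q hq
    obtain ⟨q', hq', rfl⟩ := List.mem_map.1 hq
    unfold rw'
    split_ifs with h1
    · simp [h1]
    · exact h.len q' hq'
  · intro q hq u hu
    obtain ⟨q', hq', rfl⟩ := List.mem_map.1 hq
    unfold rw' at hu
    split_ifs at hu with h1
    · simp only [List.mem_cons, List.not_mem_nil, or_false] at hu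
      rcases hu with rfl | rfl
      · exact FGar_coe_hom _
      · exact FGar_coe_hom _
    · exact h.hom q' hq' u hu
  · rw [List.pairwise_map]
    refine h.disj.imp ?_
    intro p q hpq
    rw [rw'_fst, rw'_fst]
    exact hpq

lemma FGar_wt_map (l : List (Finset ℕ × List (MvPolynomial (Fin r) ℂ)))
    (X Z : ℕ → Sd r 1) : wt (l.map (rw' X Z)) = wt l := by
  induction l with
  | nil => rfl
  | cons q l ih => rw [List.map_cons, wt_cons, wt_cons, ih, rw'_fst]

lemma FGar_row (X Z : ℕ → Sd r 1) (t : ℕ) (T₀ : List (MvPolynomial (Fin r) ℂ)) :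
    rw' X Z (({t} : Finset ℕ), T₀)
      = (({t} : Finset ℕ), [(Z t : MvPolynomial (Fin r) ℂ), (X t : MvPolynomial (Fin r) ℂ)]) := by
  simp [rw']

/-- form of the product for an arbitrary slot function -/
lemma FGar_prod (b : ℕ → MvPolynomial (Fin r) ℂ) (X Z : ℕ → Sd r 1) (t : ℕ)
    (T₀ : List (MvPolynomial (Fin r) ℂ))
    (l₁ l₂ : List (Finset ℕ × List (MvPolynomial (Fin r) ℂ)))
    (q : Finset ℕ × List (MvPolynomial (Fin r) ℂ)) :
    Pr S b (((({t} : Finset ℕ), T₀) :: (l₁ ++ q :: l₂)).map (rw' X Z))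
      = (-1) ^ (q.1.card * wt l₁) * ((-1) ^ q.1.card *
        (Cp S b (rw' X Z q).2 q.1 * c1 S (b t) (X t) (Z t)
          * Pr S b (l₁.map (rw' X Z) ++ l₂.map (rw' X Z)))) := by
  have hcomm : c1 S (b t) (X t : MvPolynomial (Fin r) ℂ) (Z t) * Cp S b (rw' X Z q).2 q.1
      = (-1) ^ q.1.card * (Cp S b (rw' X Z q).2 q.1 * c1 S (b t) (X t) (Z t)) := by
    have h := Cp_comm S b b [(Z t : MvPolynomial (Fin r) ℂ), (X t : MvPolynomial (Fin r) ℂ)]
      (rw' X Z q).2 {t} q.1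
    rw [Cp_single, Finset.card_singleton, one_mul] at h
    exact h
  rw [List.map_cons, Pr_cons, FGar_row, Cp_single, List.map_append, List.map_cons, Pr_move,
    FGar_wt_map, rw'_fst]
  rcases neg_one_pow_eq_or (Module.End ℂ E) (q.1.card * wt l₁) with h | h
  · rw [h, one_mul, one_mul, ← mul_assoc, hcomm, mul_assoc]
  · rw [h, neg_one_mul, neg_one_mul, mul_neg, ← mul_assoc, hcomm, mul_assoc]

lemma FGar_mem_neg_one_pow (n : ℕ) (A : Module.End ℂ E) {x : E}
    (h : A x ∈ LinearMap.range S.del) :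
    ((-1) ^ n * A : Module.End ℂ E) x ∈ LinearMap.range S.del := by
  rcases neg_one_pow_eq_or (Module.End ℂ E) n with h1 | h1
  · rw [h1, one_mul]
    exact h
  · rw [h1, neg_one_mul, LinearMap.neg_apply]
    exact (LinearMap.range S.del).neg_mem h

lemma FGar_claim {κ₀ : E} {w K s : ℕ} (hC : Claim S κ₀ w K s) (hK : s + 1 ≤ K) {t : ℕ}
    {T₀ : List (MvPolynomial (Fin r) ℂ)}
    {l₁ l₂ : List (Finset ℕ × List (MvPolynomial (Fin r) ℂ))}
    {q : Finset ℕ × List (MvPolynomial (Fin r) ℂ)}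
    (hlen : (l₁ ++ q :: l₂).length = s)
    (hcfg : Cfg (({t}, T₀) :: (l₁ ++ q :: l₂)))
    (hwt : wt ((({t} : Finset ℕ), T₀) :: (l₁ ++ q :: l₂)) = w)
    (a : ℕ → Sd r (e + 1)) (X Z : ℕ → Sd r 1) (u v : Sd r 1) {g : MvPolynomial (Fin r) ℂ}
    (hg : g.IsHomogeneous (K - (s + 1))) :
    (S.m (u : MvPolynomial (Fin r) ℂ)
      * Cp S (fun i => (a i : MvPolynomial (Fin r) ℂ)) ((v : MvPolynomial (Fin r) ℂ)
          :: (rw' X Z q).2) (insert t q.1)
      * Pr S (fun i => (a i : MvPolynomial (Fin r) ℂ)) (l₁.map (rw' X Z) ++ l₂.map (rw' X Z)))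
        (S.m g κ₀) ∈ LinearMap.range S.del := by
  have hcfg' := FGar_cfg_map hcfg X Z
  rw [List.map_cons, FGar_row, List.map_append, List.map_cons] at hcfg'
  have htq : t ∉ q.1 := by
    have h := (List.pairwise_cons.1 hcfg.disj).1 q (by simp)
    exact Finset.disjoint_singleton_left.1 h
  have hcfg₁ : Cfg ((rw' X Z q) :: (l₁.map (rw' X Z) ++ l₂.map (rw' X Z))) := by
    have hp : (l₁.map (rw' X Z) ++ (rw' X Z q) :: l₂.map (rw' X Z)).Perm
      ((rw' X Z q) :: (l₁.map (rw' X Z) ++ l₂.map (rw' X Z))) := List.perm_middle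
    refine ⟨?_, ?_, ?_, ?_⟩
    · intro p hp'
      exact hcfg'.ne p (List.mem_cons_of_mem _ (hp.mem_iff.2 hp'))
    · intro p hp'
      exact hcfg'.len p (List.mem_cons_of_mem _ (hp.mem_iff.2 hp'))
    · intro p hp'
      exact hcfg'.hom p (List.mem_cons_of_mem _ (hp.mem_iff.2 hp'))
    · exact hp.pairwise (List.pairwise_cons.1 hcfg'.disj).2 (fun h => h.symm)
  have hkey : S.m (u : MvPolynomial (Fin r) ℂ)
      * Cp S (fun i => (a i : MvPolynomial (Fin r) ℂ)) ((v : MvPolynomial (Fin r) ℂ)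
          :: (rw' X Z q).2) (insert t q.1)
      * Pr S (fun i => (a i : MvPolynomial (Fin r) ℂ)) (l₁.map (rw' X Z) ++ l₂.map (rw' X Z))
      * S.m g = Pr S (fun i => (a i : MvPolynomial (Fin r) ℂ))
        ((insert t q.1, (v : MvPolynomial (Fin r) ℂ) :: (rw' X Z q).2)
          :: (l₁.map (rw' X Z) ++ l₂.map (rw' X Z))) * S.m ((u : MvPolynomial (Fin r) ℂ) * g) := by
    rw [Pr_cons, map_mul, m_Cp, mul_assoc _ (S.m (u : MvPolynomial (Fin r) ℂ)) (Pr S _ _), m_Pr]
    simp only [mul_assoc]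
  have h1 := congrArg (fun A : Module.End ℂ E => A κ₀) hkey
  simp only [Module.End.mul_apply] at h1
  simp only [Module.End.mul_apply]
  rw [h1]
  refine hC _ a _ ?_ ?_ ?_ ?_
  · simp only [List.length_append, List.length_cons, List.length_map] at hlen ⊢
    omega
  · refine ⟨?_, ?_, ?_, ?_⟩
    · intro p hp
      rcases List.mem_cons.1 hp with rfl | hp
      · exact Finset.insert_nonempty _ _
      · exact hcfg₁.ne p (List.mem_cons_of_mem _ hp)
    · intro p hp
      rcases List.mem_cons.1 hp with rfl | hp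
      · have h := hcfg₁.len (rw' X Z q) (by simp)
        rw [rw'_fst] at h
        rw [List.length_cons, h, Finset.card_insert_of_notMem htq]
      · exact hcfg₁.len p (List.mem_cons_of_mem _ hp)
    · intro p hp x hx
      rcases List.mem_cons.1 hp with rfl | hp
      · rcases List.mem_cons.1 hx with rfl | hx
        · exact FGar_coe_hom _
        · exact hcfg₁.hom (rw' X Z q) (by simp) x hx
      · exact hcfg₁.hom p (List.mem_cons_of_mem _ hp) x hx
    · have hd := List.pairwise_cons.1 hcfg₁.disj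
      refine List.pairwise_cons.2 ⟨?_, hd.2⟩
      intro p hp
      have h2 := hd.1 p hp
      rw [rw'_fst] at h2
      have h3 := (List.pairwise_cons.1 hcfg'.disj).1 p (by
        rcases List.mem_append.1 hp with h | h
        · exact List.mem_append_left _ h
        · exact List.mem_append_right _ (List.mem_cons_of_mem _ h))
      exact Finset.disjoint_insert_left.2 ⟨Finset.disjoint_singleton_left.1 h3, h2⟩
  · rw [wt_cons, wt_append, wt_cons] at hwt
    rw [wt_cons, wt_append, FGar_wt_map, FGar_wt_map]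
    simp only at hwt ⊢
    rw [Finset.card_insert_of_notMem htq, ← hwt, Finset.card_singleton]
    omega
  · have h := (FGar_coe_hom u).mul hg
    have h2 : 1 + (K - (s + 1)) = K - s := by omega
    rwa [h2] at h

theorem FF_gar (hΦ : ∀ x, Φ (S.del x) = 0) {κ₀ : E} {w K s : ℕ}
    (hC : Claim S κ₀ w K s) (hK : s + 1 ≤ K) {t : ℕ} {T₀ : List (MvPolynomial (Fin r) ℂ)}
    {l' : List (Finset ℕ × List (MvPolynomial (Fin r) ℂ))} (hlen : l'.length = s)
    (hcfg : Cfg (({t}, T₀) :: l')) (hwt : wt ((({t} : Finset ℕ), T₀) :: l') = w)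
    (κ : (ℕ → Sd r (e + 1)) → E) (g : (ℕ → Sd r (e + 1)) → MvPolynomial (Fin r) ℂ)
    (hκ : ∀ a, κ a = S.m (g a) κ₀) (hg : ∀ a, (g a).IsHomogeneous (K - (s + 1)))
    (hgs : ∀ i ∈ slots (({t}, T₀) :: l'), ∀ j ∈ slots (({t}, T₀) :: l'), ∀ a,
      g (a ∘ Equiv.swap i j) = g a)
    {q : Finset ℕ × List (MvPolynomial (Fin r) ℂ)} (hq : q ∈ l')
    (a : ℕ → Sd r (e + 1)) (X Z : ℕ → Sd r 1) :
    FF S Φ (({t}, T₀) :: l') κ a X Z
      + ∑ y ∈ q.1, FF S Φ (({t}, T₀) :: l') κ (a ∘ Equiv.swap t y) X Z = 0 := by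
  obtain ⟨l₁, l₂, rfl⟩ := List.append_of_mem hq
  have hdt := (List.pairwise_cons.1 hcfg.disj)
  have htq : t ∉ q.1 := Finset.disjoint_singleton_left.1 (hdt.1 q (by simp))
  have hdq : ∀ p ∈ l₁ ++ l₂, Disjoint q.1 p.1 := by
    have h := hdt.2
    rw [List.pairwise_append] at h
    intro p hp
    rcases List.mem_append.1 hp with h1 | h1
    · exact (h.2.2 p h1 q (by simp)).symm
    · exact (List.pairwise_cons.1 h.2.1).1 p h1
  have htr : ∀ p ∈ l₁ ++ l₂, t ∉ p.1 := by
    intro p hp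
    refine Finset.disjoint_singleton_left.1 (hdt.1 p ?_)
    rcases List.mem_append.1 hp with h | h
    · exact List.mem_append_left _ h
    · exact List.mem_append_right _ (List.mem_cons_of_mem _ h)
  -- abbreviations
  set y₀ : ℕ → MvPolynomial (Fin r) ℂ := fun i => (a i : MvPolynomial (Fin r) ℂ) with hy₀
  set T := (rw' X Z q).2 with hT
  set rest := l₁.map (rw' X Z) ++ l₂.map (rw' X Z) with hrest
  set ε₁ : Module.End ℂ E := (-1) ^ (q.1.card * wt l₁) with hε₁
  set ε₂ : Module.End ℂ E := (-1) ^ q.1.card with hε₂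
  have hF : FF S Φ (({t}, T₀) :: (l₁ ++ q :: l₂)) κ a X Z
      = Φ ((ε₁ * (ε₂ * (Cp S y₀ T ((insert t q.1).erase t) * c1 S (y₀ t) (X t) (Z t)
        * Pr S y₀ rest))) (S.m (g a) κ₀)) := by
    unfold FF
    rw [FGar_prod, hκ, Finset.erase_insert htq]
  have hF' : ∀ y ∈ q.1, FF S Φ (({t}, T₀) :: (l₁ ++ q :: l₂)) κ (a ∘ Equiv.swap t y) X Z
      = Φ ((ε₁ * (ε₂ * (Cp S y₀ T ((insert t q.1).erase y) * c1 S (y₀ y) (X t) (Z t)
        * Pr S y₀ rest))) (S.m (g a) κ₀)) := by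
    intro y hy
    have hyt : y ≠ t := fun h => htq (h ▸ hy)
    have hfun : (fun i => ((a ∘ Equiv.swap t y) i : MvPolynomial (Fin r) ℂ))
        = y₀ ∘ (Equiv.swap t y) := rfl
    have hg' : g (a ∘ Equiv.swap t y) = g a := by
      refine hgs t ?_ y ?_ a
      · rw [mem_slots]
        exact ⟨_, List.mem_cons_self, Finset.mem_singleton_self t⟩
      · rw [mem_slots]
        exact ⟨q, List.mem_cons_of_mem _ hq, hy⟩
    have hpr : Pr S (y₀ ∘ (Equiv.swap t y)) rest = Pr S y₀ rest := by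
      refine Pr_congr S _ _ _ ?_
      intro p hp i hi
      rw [hrest, ← List.map_append] at hp
      obtain ⟨p', hp', rfl⟩ := List.mem_map.1 hp
      rw [rw'_fst] at hi
      have h1 : i ≠ t := fun h => htr p' hp' (h ▸ hi)
      have h2 : i ≠ y := fun h => Finset.disjoint_left.1 (hdq p' hp') hy (h ▸ hi)
      rw [Function.comp_apply, Equiv.swap_apply_of_ne_of_ne h1 h2]
    have hmap : q.1.map (Equiv.swap t y).toEmbedding = (insert t q.1).erase y := by
      ext i
      rw [Finset.mem_map_equiv, Equiv.symm_swap, Finset.mem_erase, Finset.mem_insert]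
      rcases eq_or_ne i t with h1 | h1
      · subst h1
        rw [Equiv.swap_apply_left]
        exact ⟨fun _ => ⟨hyt.symm, Or.inl rfl⟩, fun _ => hy⟩
      · rcases eq_or_ne i y with h2 | h2
        · subst h2
          rw [Equiv.swap_apply_right]
          exact ⟨fun h => absurd h htq, fun h => absurd rfl h.1⟩
        · rw [Equiv.swap_apply_of_ne_of_ne h1 h2]
          exact ⟨fun h => ⟨h2, Or.inr h⟩, fun h => h.2.resolve_left h1⟩
    unfold FF
    rw [hfun, FGar_prod, hκ, hg', hpr, Cp_perm, hmap, Function.comp_apply,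
      Equiv.swap_apply_left]
  rw [hF, Finset.sum_congr rfl hF', ← map_sum, ← map_add]
  have hsum : (ε₁ * (ε₂ * (Cp S y₀ T ((insert t q.1).erase t) * c1 S (y₀ t) (X t) (Z t)
        * Pr S y₀ rest))) (S.m (g a) κ₀)
      + ∑ y ∈ q.1, (ε₁ * (ε₂ * (Cp S y₀ T ((insert t q.1).erase y) * c1 S (y₀ y) (X t) (Z t)
        * Pr S y₀ rest))) (S.m (g a) κ₀)
      = (ε₁ * (ε₂ * (S.m (X t : MvPolynomial (Fin r) ℂ)
            * Cp S y₀ ((Z t : MvPolynomial (Fin r) ℂ) :: T) (insert t q.1) * Pr S y₀ rest)))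
          (S.m (g a) κ₀)
        - (ε₁ * (ε₂ * (S.m (Z t : MvPolynomial (Fin r) ℂ)
            * Cp S y₀ ((X t : MvPolynomial (Fin r) ℂ) :: T) (insert t q.1) * Pr S y₀ rest)))
          (S.m (g a) κ₀) := by
    rw [← LinearMap.sum_apply, ← LinearMap.add_apply, ← LinearMap.sub_apply]
    congr 1
    rw [← mul_sub, ← mul_sub, ← sub_mul, ← Cp_garnir, Finset.sum_insert htq, add_mul,
      Finset.sum_mul, mul_add, mul_add, Finset.mul_sum, Finset.mul_sum]
  rw [hsum, map_sub]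
  have hr1 := FGar_claim S hC hK hlen hcfg hwt a X Z (X t) (Z t) (hg a)
  have hr2 := FGar_claim S hC hK hlen hcfg hwt a X Z (Z t) (X t) (hg a)
  have hz1 := FGar_mem_neg_one_pow S (q.1.card * wt l₁) _
    (FGar_mem_neg_one_pow S q.1.card _ hr1)
  have hz2 := FGar_mem_neg_one_pow S (q.1.card * wt l₁) _
    (FGar_mem_neg_one_pow S q.1.card _ hr2)
  obtain ⟨x1, hx1⟩ := hz1
  obtain ⟨x2, hx2⟩ := hz2
  rw [← hx1, ← hx2, hΦ, hΦ, sub_zero]

theorem FF_gar_f (hΦ : ∀ x, Φ (S.del x) = 0) {κ₀ : E} (hκ₀ : S.del κ₀ = 0)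
    {t : ℕ} {T₀ : List (MvPolynomial (Fin r) ℂ)}
    {l' : List (Finset ℕ × List (MvPolynomial (Fin r) ℂ))}
    (hcfg : Cfg (({t}, T₀) :: l')) {f : ℕ} (hf : f ∉ slots (({t}, T₀) :: l'))
    (a : ℕ → Sd r (e + 1)) (X Z : ℕ → Sd r 1) :
    FF S Φ (({t}, T₀) :: l') (fun a => S.m (a f : MvPolynomial (Fin r) ℂ) κ₀) a X Z
      + FF S Φ (({t}, T₀) :: l') (fun a => S.m (a f : MvPolynomial (Fin r) ℂ) κ₀)
          (a ∘ Equiv.swap t f) X Z = 0 := by
  set y₀ : ℕ → MvPolynomial (Fin r) ℂ := fun i => (a i : MvPolynomial (Fin r) ℂ) with hy₀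
  have hcfg' := FGar_cfg_map hcfg X Z
  rw [List.map_cons, FGar_row] at hcfg'
  have hm1 : ∀ c b x z : MvPolynomial (Fin r) ℂ, S.m c * c1 S b x z = c1 S b x z * S.m c := by
    intro c b x z
    have h := m_Cp S c (fun _ : ℕ => b) [z, x] {0}
    rwa [Cp_single] at h
  have h1 : FF S Φ (({t}, T₀) :: l') (fun a => S.m (a f : MvPolynomial (Fin r) ℂ) κ₀) a X Z
      = Φ ((S.m (y₀ f) * c1 S (y₀ t) (X t) (Z t)) (Pr S y₀ (l'.map (rw' X Z)) κ₀)) := by
    unfold FF
    rw [List.map_cons, FGar_row, Pr_cons, Cp_single]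
    rw [← Module.End.mul_apply, ← Module.End.mul_apply, mul_assoc, ← m_Pr, ← mul_assoc, ← hm1]
  have h2 : FF S Φ (({t}, T₀) :: l') (fun a => S.m (a f : MvPolynomial (Fin r) ℂ) κ₀)
        (a ∘ Equiv.swap t f) X Z
      = Φ ((S.m (y₀ t) * c1 S (y₀ f) (X t) (Z t)) (Pr S y₀ (l'.map (rw' X Z)) κ₀)) := by
    have hfun : (fun i => ((a ∘ Equiv.swap t f) i : MvPolynomial (Fin r) ℂ))
        = y₀ ∘ (Equiv.swap t f) := rfl
    have hpr : Pr S (y₀ ∘ (Equiv.swap t f)) (l'.map (rw' X Z))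
        = Pr S y₀ (l'.map (rw' X Z)) := by
      refine Pr_congr S _ _ _ ?_
      intro p hp i hi
      obtain ⟨p', hp', rfl⟩ := List.mem_map.1 hp
      rw [rw'_fst] at hi
      have h1 : i ≠ t := by
        rintro rfl
        exact Finset.disjoint_singleton_left.1 ((List.pairwise_cons.1 hcfg.disj).1 p' hp') hi
      have h2 : i ≠ f := by
        rintro rfl
        exact hf (mem_slots.2 ⟨p', List.mem_cons_of_mem _ hp', hi⟩)
      rw [Function.comp_apply, Equiv.swap_apply_of_ne_of_ne h1 h2]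
    unfold FF
    have hk : ((a ∘ Equiv.swap t f) f : MvPolynomial (Fin r) ℂ) = y₀ t := by
      rw [Function.comp_apply, Equiv.swap_apply_right]
    rw [hfun, List.map_cons, FGar_row, Pr_cons, Cp_single, hpr, Function.comp_apply,
      Equiv.swap_apply_left]
    beta_reduce
    rw [hk]
    rw [← Module.End.mul_apply, ← Module.End.mul_apply, mul_assoc, ← m_Pr, ← mul_assoc, ← hm1]
  have hbd := c1_boundary S (y₀ t) (y₀ f) (X t : MvPolynomial (Fin r) ℂ) (Z t)
    ((FGar_coe_hom (a t)).mul (FGar_coe_hom (X t)))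
    ((FGar_coe_hom (a t)).mul (FGar_coe_hom (Z t)))
    ((FGar_coe_hom (a f)).mul (FGar_coe_hom (X t)))
    ((FGar_coe_hom (a f)).mul (FGar_coe_hom (Z t)))
  have hdel : S.del (Pr S y₀ (l'.map (rw' X Z)) κ₀) = 0 := by
    have h := del_Pr S y₀ (l'.map (rw' X Z)) (by
      intro p hp i _ u hu
      exact (FGar_coe_hom (a i)).mul (hcfg'.hom p (List.mem_cons_of_mem _ hp) u hu))
    have h3 := congrArg (fun A : Module.End ℂ E => A κ₀) h
    simp only [Module.End.mul_apply] at h3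
    rw [h3, hκ₀, map_zero, map_zero]
  rw [h1, h2, ← map_add, ← LinearMap.add_apply, hbd, LinearMap.sub_apply, Module.End.mul_apply,
    Module.End.mul_apply, hdel, map_zero, sub_zero, hΦ]

end Pool.Agent.H39.OP
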