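import Pool.Agent.H39.OP.FLin
import Pool.Agent.H39.OP.FGar
import Pool.Agent.H39.OP.PolyPD

/-!
# MP_85ff8f_ag: the functions `FF` satisfy the hypotheses of the Hitting Lemma
-/

open MvPolynomial Function

namespace Pool.Agent.H39.OP

open Pool.Agent.H27.OP

section abstract

variable {U A A' : Type*} [AddCommGroup U] [Module ℂ U] [AddCommGroup A] [Module ℂ A]
    [AddCommGroup A'] [Module ℂ A'] {D : ℕ} {P : PD U A A' D}
    {I ρ : Type*} [DecidableEq I] [DecidableEq ρ]

theorem HLH_mk {row : I → ρ} {t : I} {Act Om : Finset I} {F : (I → A) → (I → U) → (I → U) → ℂ}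
    (htA : t ∈ Act) (htrow : ∀ i ∈ Act, row i = row t → i = t)
    (hmulA : ∀ X Z, MulAt Act (fun a => F a X Z)) (hmulX : ∀ a Z, MulAt Om (fun X => F a X Z))
    (halt : ∀ l ∈ Om, ∀ a X Z, F a (update X l (Z l)) (update Z l (X l)) = - F a X Z)
    (hsym : ∀ i ∈ Act, ∀ j ∈ Act, row i = row j → ∀ a X Z, F (a ∘ Equiv.swap i j) X Z = F a X Z)
    (hgar : ∀ y ∈ Act, row y ≠ row t → ∀ a X Z,
      F a X Z + ∑ y' ∈ Act.filter (fun y' => row y' = row y), F (a ∘ Equiv.swap t y') X Z = 0)
    (hOm : ∀ l ∈ Om, l ∈ Act ∧ ∀ i ∈ Act, row i = row l → i = l)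
    (hown : ∀ l ∈ Om, Good P F l l) : HLH P row t Act Om F := by
  refine ⟨htA, htrow, hmulA, hmulX, halt, hsym, hgar, ?_⟩
  intro l hl a X Z a' w x z
  by_cases hlt : l = t
  · subst hlt
    exact hown l hl a X Z a' w x z
  · have h1 : ∀ a X Z, F a X Z = - F (a ∘ Equiv.swap t l) X Z := by
      intro a X Z
      have h2 := hgar l (hOm l hl).1 (fun h => hlt (htrow l (hOm l hl).1 h)) a X Z
      have h3 : Act.filter (fun y' => row y' = row l) = {l} := by
        ext i
        simp only [Finset.mem_filter, Finset.mem_singleton]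
        constructor
        · rintro ⟨h4, h5⟩
          exact (hOm l hl).2 i h4 h5
        · rintro rfl
          exact ⟨(hOm i hl).1, rfl⟩
      rw [h3, Finset.sum_singleton] at h2
      exact eq_neg_of_add_eq_zero_left h2
    have h4 : ∀ v : A, (update a t v) ∘ Equiv.swap t l = update (a ∘ Equiv.swap t l) l v := by
      intro v
      funext i
      simp only [comp_apply]
      by_cases hi : i = l
      · subst hi
        rw [Equiv.swap_apply_right, update_self, update_self]
      · by_cases hi2 : i = t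
        · subst hi2
          rw [Equiv.swap_apply_left, update_of_ne hlt, update_of_ne hi, comp_apply,
            Equiv.swap_apply_left]
        · rw [Equiv.swap_apply_of_ne_of_ne hi2 hi, update_of_ne hi2, update_of_ne hi, comp_apply,
            Equiv.swap_apply_of_ne_of_ne hi2 hi]
    rw [h1 (update a t _), h1 (update a t _), h1 (update a t _), h4, h4, h4]
    have h5 := hown l hl (a ∘ Equiv.swap t l) X Z a' w x z
    linear_combination -h5

end abstract

variable {r e : ℕ} {E : Type*} [AddCommGroup E] [Module ℂ E]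
  (S : Fk (Fin r) ℂ (Module.End ℂ E) (e + 2)) (Φ : E →ₗ[ℂ] ℂ)

lemma row_filter {P : Type*} {l : List (Finset ℕ × List P)} {row : ℕ → Finset ℕ}
    (hrow : ∀ q ∈ l, ∀ i ∈ q.1, row i = q.1) {q : Finset ℕ × List P} (hq : q ∈ l)
    {y : ℕ} (hy : y ∈ q.1) :
    (slots l).filter (fun y' => row y' = row y) = q.1 := by
  ext i
  simp only [Finset.mem_filter]
  constructor
  · rintro ⟨h1, h2⟩
    obtain ⟨q', hq', hi⟩ := mem_slots.mp h1
    rw [hrow q' hq' i hi, hrow q hq y hy] at h2
    rw [← h2]; exact hi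
  · intro hi
    exact ⟨mem_slots.mpr ⟨q, hq, hi⟩, by rw [hrow q hq i hi, hrow q hq y hy]⟩

/-- case without extra slot -/
theorem HLH_alpha (hΦ : ∀ x, Φ (S.del x) = 0) {κ₀ : E} {w K s : ℕ}
    (hC : Claim S κ₀ w K s) (hK : s + 1 ≤ K) {t : ℕ} {T₀ : List (MvPolynomial (Fin r) ℂ)}
    {l' : List (Finset ℕ × List (MvPolynomial (Fin r) ℂ))} (hlen : l'.length = s)
    (hcfg : Cfg (({t}, T₀) :: l')) (hwt : wt ((({t} : Finset ℕ), T₀) :: l') = w)
    {row : ℕ → Finset ℕ} (hrow : ∀ q ∈ (({t} : Finset ℕ), T₀) :: l', ∀ i ∈ q.1, row i = q.1)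
    {g : MvPolynomial (Fin r) ℂ} (hg : g.IsHomogeneous (K - (s + 1))) :
    HLH (polyPD r e) row t (slots (({t}, T₀) :: l'))
      ((slots (({t}, T₀) :: l')).filter (fun i => row i = {i}))
      (FF S Φ (({t}, T₀) :: l') (fun _ => S.m g κ₀)) := by
  have ht : t ∈ slots ((({t} : Finset ℕ), T₀) :: l') :=
    mem_slots.mpr ⟨_, List.mem_cons_self, Finset.mem_singleton_self t⟩
  have hrt : row t = {t} := hrow _ List.mem_cons_self t (Finset.mem_singleton_self t)
  have hself : ∀ i ∈ slots ((({t} : Finset ℕ), T₀) :: l'), i ∈ row i := by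
    intro i hi
    obtain ⟨q, hq, hiq⟩ := mem_slots.mp hi
    rw [hrow q hq i hiq]; exact hiq
  refine HLH_mk ht ?_ ?_ ?_ ?_ ?_ ?_ ?_ ?_
  · intro i hi h
    have := hself i hi
    rw [h, hrt, Finset.mem_singleton] at this
    exact this
  · intro X Z
    exact FF_mulA S Φ _ hcfg.disj _ (fun _ _ _ _ => rfl) X Z
  · intro a Z
    exact FF_mulX S Φ _ hcfg.disj row hrow _ a Z
  · intro l hl a X Z
    exact FF_alt S Φ _ hcfg.disj row hrow _ hl a X Z
  · intro i hi j hj hij a X Z
    exact FF_sym S Φ _ hcfg.disj row hrow _ hi hj hij (fun _ => rfl) a X Z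
  · intro y hy hyt a X Z
    obtain ⟨q, hq, hyq⟩ := mem_slots.mp hy
    rw [row_filter hrow hq hyq]
    rcases List.mem_cons.mp hq with h | h
    · exfalso
      apply hyt
      rw [hrow q hq y hyq, hrt, h]
    · exact FF_gar S Φ hΦ hC hK hlen hcfg hwt _ (fun _ => g) (fun _ => rfl) (fun _ => hg)
        (fun _ _ _ _ _ => rfl) h a X Z
  · intro l hl
    rw [Finset.mem_filter] at hl
    refine ⟨hl.1, fun i hi h => ?_⟩
    have := hself i hi
    rw [h, hl.2, Finset.mem_singleton] at this
    exact this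
  · intro l hl a X Z a' w x z
    rw [polyPD_mu]
    exact FF_own S Φ _ hcfg.disj row hrow _ (fun _ _ _ _ => rfl) hl a X Z a' w x z

/-- case with an extra slot `f` for the coefficient form -/
theorem HLH_beta (hΦ : ∀ x, Φ (S.del x) = 0) {κ₀ : E} (hκ₀ : S.del κ₀ = 0) {w K s : ℕ}
    (hC : Claim S κ₀ w K s) (hK : s + 1 ≤ K) (hKe : K - (s + 1) = e + 1)
    {t : ℕ} {T₀ : List (MvPolynomial (Fin r) ℂ)}
    {l' : List (Finset ℕ × List (MvPolynomial (Fin r) ℂ))} (hlen : l'.length = s)
    (hcfg : Cfg (({t}, T₀) :: l')) (hwt : wt ((({t} : Finset ℕ), T₀) :: l') = w)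
    {row : ℕ → Finset ℕ} (hrow : ∀ q ∈ (({t} : Finset ℕ), T₀) :: l', ∀ i ∈ q.1, row i = q.1)
    {f : ℕ} (hf : f ∉ slots (({t}, T₀) :: l')) (hrf : row f = {f}) :
    HLH (polyPD r e) row t (insert f (slots (({t}, T₀) :: l')))
      ((slots (({t}, T₀) :: l')).filter (fun i => row i = {i}))
      (FF S Φ (({t}, T₀) :: l') (fun a => S.m (a f : MvPolynomial (Fin r) ℂ) κ₀)) := by
  have ht : t ∈ slots ((({t} : Finset ℕ), T₀) :: l') :=
    mem_slots.mpr ⟨_, List.mem_cons_self, Finset.mem_singleton_self t⟩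
  have hrt : row t = {t} := hrow _ List.mem_cons_self t (Finset.mem_singleton_self t)
  have hself : ∀ i ∈ insert f (slots ((({t} : Finset ℕ), T₀) :: l')), i ∈ row i := by
    intro i hi
    rcases Finset.mem_insert.mp hi with h | h
    · rw [h, hrf]; exact Finset.mem_singleton_self f
    · obtain ⟨q, hq, hiq⟩ := mem_slots.mp h
      rw [hrow q hq i hiq]; exact hiq
  have hsub : ∀ i ∈ slots ((({t} : Finset ℕ), T₀) :: l'), row i ⊆ slots ((({t} : Finset ℕ), T₀) :: l') := by
    intro i hi j hj
    obtain ⟨q, hq, hiq⟩ := mem_slots.mp hi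
    rw [hrow q hq i hiq] at hj
    exact mem_slots.mpr ⟨q, hq, hj⟩
  have hκ : ∀ i ∈ slots ((({t} : Finset ℕ), T₀) :: l'), ∀ (a : ℕ → Sd r (e + 1)) (u : Sd r (e + 1)),
      S.m ((update a i u f : Sd r (e + 1)) : MvPolynomial (Fin r) ℂ) κ₀
        = S.m (a f : MvPolynomial (Fin r) ℂ) κ₀ := by
    intro i hi a u
    rw [update_of_ne]
    rintro rfl
    exact hf hi
  have hPf : ∀ (a : ℕ → Sd r (e + 1)) (u : Sd r (e + 1)) (X Z : ℕ → Sd r 1),
      Pr S (fun i => (update a f u i : MvPolynomial (Fin r) ℂ))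
        (((({t} : Finset ℕ), T₀) :: l').map (rw' X Z))
      = Pr S (fun i => (a i : MvPolynomial (Fin r) ℂ))
        (((({t} : Finset ℕ), T₀) :: l').map (rw' X Z)) := by
    intro a u X Z
    apply Pr_congr
    intro q hq i hi
    obtain ⟨q', hq', rfl⟩ := List.mem_map.mp hq
    rw [rw'_fst] at hi
    have hif : i ≠ f := by
      rintro rfl
      exact hf (mem_slots.mpr ⟨q', hq', hi⟩)
    rw [update_of_ne hif]
  refine HLH_mk (Finset.mem_insert_of_mem ht) ?_ ?_ ?_ ?_ ?_ ?_ ?_ ?_
  · intro i hi h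
    have := hself i hi
    rw [h, hrt, Finset.mem_singleton] at this
    exact this
  · intro X Z
    have h1 := FF_mulA S Φ _ hcfg.disj (fun a => S.m (a f : MvPolynomial (Fin r) ℂ) κ₀) hκ X Z
    refine ⟨?_, ?_⟩
    · intro m hm a u v
      rcases Finset.mem_insert.mp hm with h | h
      · subst h
        show FF _ _ _ _ _ _ _ = FF _ _ _ _ _ _ _ + FF _ _ _ _ _ _ _
        unfold FF
        rw [hPf, hPf, hPf]
        simp only [update_self, Submodule.coe_add, map_add, LinearMap.add_apply]
      · exact h1.add m h a u v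
    · intro m hm a c u
      rcases Finset.mem_insert.mp hm with h | h
      · subst h
        show FF _ _ _ _ _ _ _ = c * FF _ _ _ _ _ _ _
        unfold FF
        rw [hPf, hPf]
        simp only [update_self, Submodule.coe_smul, map_smul, LinearMap.smul_apply, smul_eq_mul]
      · exact h1.smul m h a c u
  · intro a Z
    exact FF_mulX S Φ _ hcfg.disj row hrow _ a Z
  · intro l hl a X Z
    exact FF_alt S Φ _ hcfg.disj row hrow _ hl a X Z
  · intro i hi j hj hij a X Z
    by_cases hif : i = f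
    · have hj2 := hself j hj
      rw [← hij, hif, hrf, Finset.mem_singleton] at hj2
      rw [hif, hj2, Equiv.swap_self]
      rfl
    · have hi' : i ∈ slots ((({t} : Finset ℕ), T₀) :: l') :=
        (Finset.mem_insert.mp hi).resolve_left hif
      have hj2 : j ∈ slots ((({t} : Finset ℕ), T₀) :: l') := by
        apply hsub i hi'
        rw [hij]
        exact hself j hj
      refine FF_sym S Φ _ hcfg.disj row hrow _ hi' hj2 hij (fun a => ?_) a X Z
      rw [comp_apply, Equiv.swap_apply_of_ne_of_ne]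
      · exact Ne.symm hif
      · rintro rfl
        exact hf hj2
  · intro y hy hyt a X Z
    rcases Finset.mem_insert.mp hy with h | h
    · subst h
      have h3 : (insert y (slots ((({t} : Finset ℕ), T₀) :: l'))).filter
          (fun y' => row y' = row y) = {y} := by
        ext i
        simp only [Finset.mem_filter, Finset.mem_singleton]
        constructor
        · rintro ⟨h4, h5⟩
          have := hself i h4
          rw [h5, hrf, Finset.mem_singleton] at this
          exact this
        · rintro rfl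
          exact ⟨Finset.mem_insert_self _ _, rfl⟩
      rw [h3, Finset.sum_singleton]
      exact FF_gar_f S Φ hΦ hκ₀ hcfg hf a X Z
    · obtain ⟨q, hq, hyq⟩ := mem_slots.mp h
      have h3 : (insert f (slots ((({t} : Finset ℕ), T₀) :: l'))).filter
          (fun y' => row y' = row y) = q.1 := by
        rw [Finset.filter_insert, if_neg, row_filter hrow hq hyq]
        intro h5
        have h6 := hrow q hq y hyq
        rw [← h5, hrf] at h6
        apply hf
        apply mem_slots.mpr ⟨q, hq, _⟩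
        rw [← h6]
        exact Finset.mem_singleton_self f
      rw [h3]
      rcases List.mem_cons.mp hq with h | h
      · exfalso
        apply hyt
        rw [hrow q hq y hyq, hrt, h]
      · refine FF_gar S Φ hΦ hC hK hlen hcfg hwt _ (fun a => (a f : MvPolynomial (Fin r) ℂ))
          (fun _ => rfl) (fun a => ?_) (fun i hi j hj a => ?_) h a X Z
        · rw [hKe]
          exact (mem_homogeneousSubmodule _ _).mp (a f).2
        · rw [comp_apply, Equiv.swap_apply_of_ne_of_ne]
          · rintro rfl; exact hf hi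
          · rintro rfl; exact hf hj
  · intro l hl
    rw [Finset.mem_filter] at hl
    refine ⟨Finset.mem_insert_of_mem hl.1, fun i hi h => ?_⟩
    have := hself i hi
    rw [h, hl.2, Finset.mem_singleton] at this
    exact this
  · intro l hl a X Z a' w x z
    rw [polyPD_mu]
    exact FF_own S Φ _ hcfg.disj row hrow _ hκ hl a X Z a' w x z

end Pool.Agent.H39.OP
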