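import Pool.Agent.H39.OP.FDefs

/-!
# Job OP-D3a : linearity properties of `FF`

Key facts for a configuration `l` with pairwise disjoint rows: `(l.map (rw' X Z))` has the same
first components (`rw'_fst`), so its rows are pairwise disjoint too.  If `i ∈ slots l`, then
`l = l₁ ++ q :: l₂` with `i ∈ q.1` (`List.append_of_mem`), `i ∉ q'.1` for `q' ∈ l₁ ++ l₂` (disjointness),
`Pr S y (l.map _) = Pr S y (l₁.map _) * (Cp S y (rw' X Z q).2 q.1 * Pr S y (l₂.map _))`
(`Pr_append`, `Pr_cons`), and the two outer factors do not depend on `y i` (`Pr_congr`).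

* `FF_mulA`: linearity in slot `i ∈ slots l`: `Cp_add`, `Cp_smul` for the middle factor
  (the slot function `fun j => (update a i u j : P)` is `update (fun j => (a j : P)) i (u : P)`),
  `κ (update a i u) = κ a` by hypothesis, multiplication in `Module.End` is bilinear, `Φ` linear.
* `FF_mulX`: for `i ∈ slots l` with `row i = {i}`: the row of `i` is `{i}` (`hrow`), so the middle
  factor is `Cp S y [Z i, X i] {i} = c1 S (y i) (X i) (Z i)` (`Cp_single`; the sums over `{i}` are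
  `Z i`, `X i`), linear in `X i` (`c1` is bilinear in `(x, z)`: `S.m`, `S.Ee` are linear); for the other
  rows `q'`, `rw' (update X i u) Z q' = rw' X Z q'` (`∑_{j ∈ q'.1} update X i u j = ∑ X j` as
  `i ∉ q'.1`).
* `FF_alt`: the same; `c1 S b z x = - c1 S b x z`.
* `FF_own`: Jacobi identity of slot `i` with its own bivector: middle factor, `c1_jacobi`
  (`muP_coe`), `κ` does not depend on the slot `i`.
* `FF_sym`: `i, j ∈ slots l` in the same row `q.1` (`row i = row j`): for the swapped slot function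
  `y ∘ swap i j` every factor is unchanged: `Cp_perm` with
  `q.1.map (swap i j).toEmbedding = q.1` for the row containing both, `Cp_congr` (or the same) for
  the other rows, which contain neither; `κ (a ∘ swap i j) = κ a` by hypothesis `hκs`.
-/

open MvPolynomial Function

namespace Pool.Agent.H39.OP

open Pool.Agent.H27.OP

variable {r e : ℕ} {E : Type*} [AddCommGroup E] [Module ℂ E]
  (S : Fk (Fin r) ℂ (Module.End ℂ E) (e + 2)) (Φ : E →ₗ[ℂ] ℂ)

private theorem FLin_split {P : Type*} (l : List (Finset ℕ × List P))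
    (hd : l.Pairwise (fun q q' => Disjoint q.1 q'.1)) {i : ℕ} (hi : i ∈ slots l) :
    ∃ l₁ q l₂, l = l₁ ++ q :: l₂ ∧ i ∈ q.1 ∧ (∀ q' ∈ l₁, i ∉ q'.1) ∧ (∀ q' ∈ l₂, i ∉ q'.1) := by
  obtain ⟨q, hq, hiq⟩ := mem_slots.mp hi
  obtain ⟨l₁, l₂, rfl⟩ := List.append_of_mem hq
  rw [List.pairwise_append, List.pairwise_cons] at hd
  refine ⟨l₁, q, l₂, rfl, hiq, fun q' hq' h => ?_, fun q' hq' h => ?_⟩
  · exact Finset.disjoint_left.mp (hd.2.2 q' hq' q List.mem_cons_self) h hiq
  · exact Finset.disjoint_left.mp (hd.2.1.1 q' hq') hiq h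

private theorem FLin_rw' {r : ℕ} (X Z : ℕ → Sd r 1) {i : ℕ} (x z : Sd r 1)
    (q : Finset ℕ × List (MvPolynomial (Fin r) ℂ)) (hq : i ∉ q.1) :
    rw' (update X i x) (update Z i z) q = rw' X Z q := by
  unfold rw'
  have h1 : ∑ j ∈ q.1, update X i x j = ∑ j ∈ q.1, X j :=
    Finset.sum_congr rfl fun j hj => update_of_ne (fun h : j = i => hq (h ▸ hj)) _ _
  have h2 : ∑ j ∈ q.1, update Z i z j = ∑ j ∈ q.1, Z j :=
    Finset.sum_congr rfl fun j hj => update_of_ne (fun h : j = i => hq (h ▸ hj)) _ _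
  rw [h1, h2]

private theorem FLin_coe {r e : ℕ} (a : ℕ → Sd r (e + 1)) (i : ℕ) (u : Sd r (e + 1)) :
    (fun j => ((update a i u j : Sd r (e + 1)) : MvPolynomial (Fin r) ℂ))
      = update (fun j => (a j : MvPolynomial (Fin r) ℂ)) i (u : MvPolynomial (Fin r) ℂ) := by
  funext j
  by_cases h : j = i
  · subst h; rw [update_self, update_self]
  · rw [update_of_ne h, update_of_ne h]

private theorem FLin_outer {r e : ℕ} {E : Type*} [AddCommGroup E] [Module ℂ E]
    (S : Fk (Fin r) ℂ (Module.End ℂ E) (e + 2))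
    (l : List (Finset ℕ × List (MvPolynomial (Fin r) ℂ))) {i : ℕ} (hl : ∀ q ∈ l, i ∉ q.1)
    (a : ℕ → Sd r (e + 1)) (X Z : ℕ → Sd r 1) (u : Sd r (e + 1)) (x z : Sd r 1) :
    Pr S (fun j => ((update a i u j : Sd r (e + 1)) : MvPolynomial (Fin r) ℂ))
        (l.map (rw' (update X i x) (update Z i z)))
      = Pr S (fun j => (a j : MvPolynomial (Fin r) ℂ)) (l.map (rw' X Z)) := by
  have h1 : l.map (rw' (update X i x) (update Z i z)) = l.map (rw' X Z) :=
    List.map_congr_left fun q hq => FLin_rw' X Z x z q (hl q hq)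
  rw [h1]
  refine Pr_congr S _ _ _ fun q hq j hj => ?_
  obtain ⟨q', hq', rfl⟩ := List.mem_map.mp hq
  rw [rw'_fst] at hj
  have hji : j ≠ i := fun h => hl q' hq' (h ▸ hj)
  show ((update a i u j : Sd r (e + 1)) : MvPolynomial (Fin r) ℂ) = _
  rw [update_of_ne hji]

private theorem FLin_gen {r e : ℕ} {E : Type*} [AddCommGroup E] [Module ℂ E]
    (S : Fk (Fin r) ℂ (Module.End ℂ E) (e + 2))
    (l : List (Finset ℕ × List (MvPolynomial (Fin r) ℂ)))
    (hd : l.Pairwise (fun q q' => Disjoint q.1 q'.1)) {i : ℕ} (hi : i ∈ slots l)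
    (a : ℕ → Sd r (e + 1)) (X Z : ℕ → Sd r 1) :
    ∃ (A B : Module.End ℂ E) (T : List (MvPolynomial (Fin r) ℂ)) (R : Finset ℕ), i ∈ R ∧
      ∀ u : Sd r (e + 1),
      Pr S (fun j => ((update a i u j : Sd r (e + 1)) : MvPolynomial (Fin r) ℂ))
        (l.map (rw' X Z))
      = A * (Cp S (update (fun j => (a j : MvPolynomial (Fin r) ℂ)) i
          (u : MvPolynomial (Fin r) ℂ)) T R * B) := by
  obtain ⟨l₁, q, l₂, rfl, hiq, h1, h2⟩ := FLin_split l hd hi
  refine ⟨Pr S (fun j => (a j : MvPolynomial (Fin r) ℂ)) (l₁.map (rw' X Z)),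
    Pr S (fun j => (a j : MvPolynomial (Fin r) ℂ)) (l₂.map (rw' X Z)),
    (rw' X Z q).2, q.1, hiq, fun u => ?_⟩
  have e1 := FLin_outer S l₁ h1 a X Z u (X i) (Z i)
  have e2 := FLin_outer S l₂ h2 a X Z u (X i) (Z i)
  rw [update_eq_self, update_eq_self] at e1 e2
  rw [List.map_append, List.map_cons, Pr_append, Pr_cons, e1, e2, rw'_fst, FLin_coe]

private theorem FLin_own {r e : ℕ} {E : Type*} [AddCommGroup E] [Module ℂ E]
    (S : Fk (Fin r) ℂ (Module.End ℂ E) (e + 2))
    (l : List (Finset ℕ × List (MvPolynomial (Fin r) ℂ)))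
    (hd : l.Pairwise (fun q q' => Disjoint q.1 q'.1))
    (row : ℕ → Finset ℕ) (hrow : ∀ q ∈ l, ∀ i ∈ q.1, row i = q.1)
    {i : ℕ} (hi : i ∈ (slots l).filter (fun i => row i = {i}))
    (a : ℕ → Sd r (e + 1)) (X Z : ℕ → Sd r 1) :
    ∃ (A B : Module.End ℂ E), ∀ (u : Sd r (e + 1)) (x z : Sd r 1),
      Pr S (fun j => ((update a i u j : Sd r (e + 1)) : MvPolynomial (Fin r) ℂ))
        (l.map (rw' (update X i x) (update Z i z)))
      = A * (c1 S (u : MvPolynomial (Fin r) ℂ) (x : MvPolynomial (Fin r) ℂ)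
          (z : MvPolynomial (Fin r) ℂ) * B) := by
  rw [Finset.mem_filter] at hi
  obtain ⟨l₁, q, l₂, rfl, hiq, h1, h2⟩ := FLin_split l hd hi.1
  refine ⟨Pr S (fun j => (a j : MvPolynomial (Fin r) ℂ)) (l₁.map (rw' X Z)),
    Pr S (fun j => (a j : MvPolynomial (Fin r) ℂ)) (l₂.map (rw' X Z)), fun u x z => ?_⟩
  have hq : q.1 = {i} := by
    rw [← hrow q (by simp) i hiq, hi.2]
  have hr : rw' (update X i x) (update Z i z) q
      = ({i}, [(z : MvPolynomial (Fin r) ℂ), (x : MvPolynomial (Fin r) ℂ)]) := by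
    unfold rw'
    rw [hq, Finset.card_singleton, if_pos rfl, Finset.sum_singleton, Finset.sum_singleton,
      update_self, update_self]
  rw [List.map_append, List.map_cons, Pr_append, Pr_cons, FLin_outer S l₁ h1 a X Z u x z,
    FLin_outer S l₂ h2 a X Z u x z, hr]
  dsimp only
  rw [Cp_single, update_self]

private theorem FLin_c1_add {r d : ℕ} {O : Type*} [Ring O] [Algebra ℂ O]
    (S : Fk (Fin r) ℂ O d) (b x x' z : MvPolynomial (Fin r) ℂ) :
    c1 S b (x + x') z = c1 S b x z + c1 S b x' z := by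
  unfold c1
  rw [mul_add b, map_add, map_add, add_mul, mul_add]
  abel

private theorem FLin_c1_smul {r d : ℕ} {O : Type*} [Ring O] [Algebra ℂ O]
    (S : Fk (Fin r) ℂ O d) (c : ℂ) (b x z : MvPolynomial (Fin r) ℂ) :
    c1 S b (c • x) z = c • c1 S b x z := by
  unfold c1
  rw [mul_smul_comm, map_smul, map_smul, smul_mul_assoc, mul_smul_comm, smul_sub]

private theorem FLin_c1_swap {r d : ℕ} {O : Type*} [Ring O] [Algebra ℂ O]
    (S : Fk (Fin r) ℂ O d) (b x z : MvPolynomial (Fin r) ℂ) :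
    c1 S b z x = - c1 S b x z := by
  unfold c1
  rw [neg_sub]

private theorem FLin_map {i j : ℕ} (R : Finset ℕ) (h : i ∈ R ↔ j ∈ R) :
    R.map (Equiv.swap i j).toEmbedding = R := by
  ext k
  rw [Finset.mem_map_equiv, Equiv.symm_swap]
  by_cases h1 : k = i
  · subst h1
    rw [Equiv.swap_apply_left]
    exact h.symm
  · by_cases h2 : k = j
    · subst h2
      rw [Equiv.swap_apply_right]
      exact h
    · rw [Equiv.swap_apply_of_ne_of_ne h1 h2]

private theorem FLin_phi_add {E : Type*} [AddCommGroup E] [Module ℂ E] (Φ : E →ₗ[ℂ] ℂ)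
    (A B c c' : Module.End ℂ E) (v : E) :
    Φ ((A * ((c + c') * B)) v) = Φ ((A * (c * B)) v) + Φ ((A * (c' * B)) v) := by
  simp only [Module.End.mul_apply, LinearMap.add_apply, map_add]

private theorem FLin_phi_smul {E : Type*} [AddCommGroup E] [Module ℂ E] (Φ : E →ₗ[ℂ] ℂ)
    (A B c : Module.End ℂ E) (t : ℂ) (v : E) :
    Φ ((A * ((t • c) * B)) v) = t * Φ ((A * (c * B)) v) := by
  simp only [Module.End.mul_apply, LinearMap.smul_apply, map_smul, smul_eq_mul]

private theorem FLin_phi_neg {E : Type*} [AddCommGroup E] [Module ℂ E] (Φ : E →ₗ[ℂ] ℂ)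
    (A B c : Module.End ℂ E) (v : E) :
    Φ ((A * ((-c) * B)) v) = - Φ ((A * (c * B)) v) := by
  simp only [Module.End.mul_apply, LinearMap.neg_apply, map_neg]

private theorem FLin_phi_zero {E : Type*} [AddCommGroup E] [Module ℂ E] (Φ : E →ₗ[ℂ] ℂ)
    (A B c c' c'' : Module.End ℂ E) (v : E) (h : c + c' + c'' = 0) :
    Φ ((A * (c * B)) v) + Φ ((A * (c' * B)) v) + Φ ((A * (c'' * B)) v) = 0 := by
  rw [← FLin_phi_add, ← FLin_phi_add, h]
  simp only [Module.End.mul_apply, LinearMap.zero_apply, map_zero]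

theorem FF_mulA (l : List (Finset ℕ × List (MvPolynomial (Fin r) ℂ)))
    (hd : l.Pairwise (fun q q' => Disjoint q.1 q'.1))
    (κ : (ℕ → Sd r (e + 1)) → E)
    (hκ : ∀ i ∈ slots l, ∀ a u, κ (update a i u) = κ a) (X Z : ℕ → Sd r 1) :
    MulAt (slots l) (fun a => FF S Φ l κ a X Z) := by
  refine ⟨fun i hi a u v => ?_, fun i hi a c u => ?_⟩
  · obtain ⟨A, B, T, R, hiR, h⟩ := FLin_gen S l hd hi a X Z
    unfold FF
    rw [h, h, h, hκ i hi, hκ i hi, hκ i hi, Submodule.coe_add, Cp_add S _ T R hiR]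
    exact FLin_phi_add Φ A B _ _ _
  · obtain ⟨A, B, T, R, hiR, h⟩ := FLin_gen S l hd hi a X Z
    unfold FF
    rw [h, h, hκ i hi, hκ i hi, Submodule.coe_smul, Cp_smul S _ T R hiR]
    exact FLin_phi_smul Φ A B _ _ _

theorem FF_mulX (l : List (Finset ℕ × List (MvPolynomial (Fin r) ℂ)))
    (hd : l.Pairwise (fun q q' => Disjoint q.1 q'.1))
    (row : ℕ → Finset ℕ) (hrow : ∀ q ∈ l, ∀ i ∈ q.1, row i = q.1)
    (κ : (ℕ → Sd r (e + 1)) → E) (a : ℕ → Sd r (e + 1)) (Z : ℕ → Sd r 1) :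
    MulAt ((slots l).filter (fun i => row i = {i})) (fun X => FF S Φ l κ a X Z) := by
  refine ⟨fun i hi X u v => ?_, fun i hi X c u => ?_⟩
  · obtain ⟨A, B, h⟩ := FLin_own S l hd row hrow hi a X Z
    have h' : ∀ x : Sd r 1, Pr S (fun j => (a j : MvPolynomial (Fin r) ℂ))
        (l.map (rw' (update X i x) Z))
      = A * (c1 S (a i : MvPolynomial (Fin r) ℂ) (x : MvPolynomial (Fin r) ℂ)
          (Z i : MvPolynomial (Fin r) ℂ) * B) := by
      intro x
      have := h (a i) x (Z i)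
      rwa [update_eq_self, update_eq_self] at this
    unfold FF
    rw [h', h', h', Submodule.coe_add, FLin_c1_add]
    exact FLin_phi_add Φ A B _ _ _
  · obtain ⟨A, B, h⟩ := FLin_own S l hd row hrow hi a X Z
    have h' : ∀ x : Sd r 1, Pr S (fun j => (a j : MvPolynomial (Fin r) ℂ))
        (l.map (rw' (update X i x) Z))
      = A * (c1 S (a i : MvPolynomial (Fin r) ℂ) (x : MvPolynomial (Fin r) ℂ)
          (Z i : MvPolynomial (Fin r) ℂ) * B) := by
      intro x
      have := h (a i) x (Z i)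
      rwa [update_eq_self, update_eq_self] at this
    unfold FF
    rw [h', h', Submodule.coe_smul, FLin_c1_smul]
    exact FLin_phi_smul Φ A B _ _ _

theorem FF_alt (l : List (Finset ℕ × List (MvPolynomial (Fin r) ℂ)))
    (hd : l.Pairwise (fun q q' => Disjoint q.1 q'.1))
    (row : ℕ → Finset ℕ) (hrow : ∀ q ∈ l, ∀ i ∈ q.1, row i = q.1)
    (κ : (ℕ → Sd r (e + 1)) → E) {i : ℕ} (hi : i ∈ (slots l).filter (fun i => row i = {i}))
    (a : ℕ → Sd r (e + 1)) (X Z : ℕ → Sd r 1) :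
    FF S Φ l κ a (update X i (Z i)) (update Z i (X i)) = - FF S Φ l κ a X Z := by
  obtain ⟨A, B, h⟩ := FLin_own S l hd row hrow hi a X Z
  have h1 := h (a i) (Z i) (X i)
  have h2 := h (a i) (X i) (Z i)
  rw [update_eq_self] at h1 h2
  rw [update_eq_self, update_eq_self] at h2
  unfold FF
  rw [h1, h2, FLin_c1_swap]
  exact FLin_phi_neg Φ A B _ _

theorem FF_own (l : List (Finset ℕ × List (MvPolynomial (Fin r) ℂ)))
    (hd : l.Pairwise (fun q q' => Disjoint q.1 q'.1))
    (row : ℕ → Finset ℕ) (hrow : ∀ q ∈ l, ∀ i ∈ q.1, row i = q.1)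
    (κ : (ℕ → Sd r (e + 1)) → E)
    (hκ : ∀ i ∈ slots l, ∀ a u, κ (update a i u) = κ a)
    {i : ℕ} (hi : i ∈ (slots l).filter (fun i => row i = {i}))
    (a : ℕ → Sd r (e + 1)) (X Z : ℕ → Sd r 1) (b : Sd r e) (w x z : Sd r 1) :
    FF S Φ l κ (update a i (muP r e b w)) (update X i x) (update Z i z)
      + FF S Φ l κ (update a i (muP r e b x)) (update X i z) (update Z i w)
      + FF S Φ l κ (update a i (muP r e b z)) (update X i w) (update Z i x) = 0 := by
  obtain ⟨A, B, h⟩ := FLin_own S l hd row hrow hi a X Z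
  have hi' : i ∈ slots l := (Finset.mem_filter.mp hi).1
  have key : ∀ p q s : Sd r (e + 1),
      c1 S (p : MvPolynomial (Fin r) ℂ) (x : MvPolynomial (Fin r) ℂ) (z : MvPolynomial (Fin r) ℂ)
        + c1 S (q : MvPolynomial (Fin r) ℂ) (z : MvPolynomial (Fin r) ℂ)
          (w : MvPolynomial (Fin r) ℂ)
        + c1 S (s : MvPolynomial (Fin r) ℂ) (w : MvPolynomial (Fin r) ℂ)
          (x : MvPolynomial (Fin r) ℂ) = 0 →
      FF S Φ l κ (update a i p) (update X i x) (update Z i z)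
        + FF S Φ l κ (update a i q) (update X i z) (update Z i w)
        + FF S Φ l κ (update a i s) (update X i w) (update Z i x) = 0 := by
    intro p q s hc
    unfold FF
    rw [h, h, h, hκ i hi', hκ i hi', hκ i hi']
    exact FLin_phi_zero Φ A B _ _ _ _ hc
  refine key _ _ _ ?_
  have e1 := muP_coe b w
  have e2 := muP_coe b x
  have e3 := muP_coe b z
  rw [e1, e2, e3]
  exact c1_jacobi S _ _ _ _

theorem FF_sym (l : List (Finset ℕ × List (MvPolynomial (Fin r) ℂ)))
    (hd : l.Pairwise (fun q q' => Disjoint q.1 q'.1))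
    (row : ℕ → Finset ℕ) (hrow : ∀ q ∈ l, ∀ i ∈ q.1, row i = q.1)
    (κ : (ℕ → Sd r (e + 1)) → E)
    {i j : ℕ} (hi : i ∈ slots l) (hj : j ∈ slots l) (hij : row i = row j)
    (hκs : ∀ a, κ (a ∘ Equiv.swap i j) = κ a)
    (a : ℕ → Sd r (e + 1)) (X Z : ℕ → Sd r 1) :
    FF S Φ l κ (a ∘ Equiv.swap i j) X Z = FF S Φ l κ a X Z := by
  have hmem : ∀ q ∈ l, (i ∈ q.1 ↔ j ∈ q.1) := by
    obtain ⟨qi, hqi, hiqi⟩ := mem_slots.mp hi
    obtain ⟨qj, hqj, hjqj⟩ := mem_slots.mp hj
    have e1 : row i = qi.1 := hrow qi hqi i hiqi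
    have e2 : row j = qj.1 := hrow qj hqj j hjqj
    intro q hq
    constructor
    · intro h
      have : row i = q.1 := hrow q hq i h
      rw [← this, hij, e2]
      exact hjqj
    · intro h
      have : row j = q.1 := hrow q hq j h
      rw [← this, ← hij, e1]
      exact hiqi
  have key : ∀ l' : List (Finset ℕ × List (MvPolynomial (Fin r) ℂ)),
      (∀ q ∈ l', (i ∈ q.1 ↔ j ∈ q.1)) →
      Pr S (fun k => (((a ∘ Equiv.swap i j) k : Sd r (e + 1)) : MvPolynomial (Fin r) ℂ)) l'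
        = Pr S (fun k => (a k : MvPolynomial (Fin r) ℂ)) l' := by
    intro l' hl'
    have hy : (fun k => (((a ∘ Equiv.swap i j) k : Sd r (e + 1)) : MvPolynomial (Fin r) ℂ))
        = (fun k => (a k : MvPolynomial (Fin r) ℂ)) ∘ Equiv.swap i j := by
      funext k
      rw [comp_apply, comp_apply]
    rw [hy]
    induction l' with
    | nil => rw [Pr_nil, Pr_nil]
    | cons q l' ih =>
      rw [Pr_cons, Pr_cons, ih fun q' hq' => hl' q' (List.mem_cons_of_mem _ hq'), Cp_perm,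
        FLin_map q.1 (hl' q List.mem_cons_self)]
  unfold FF
  rw [hκs, key]
  intro q hq
  obtain ⟨q', hq', rfl⟩ := List.mem_map.mp hq
  rw [rw'_fst]
  exact hmem q' hq'

end Pool.Agent.H39.OP
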