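import Pool.Agent.H39.OP.CpId

/-!
# Job OP-D2 : products of rows

Inductions on the list `l` with `Pr_cons`, `wt_cons`, from `Cp_comm`, `del_Cp`, `m_Cp`, `Cp_congr`.
`Pr_move`: induction on `l₁`, or `Pr_append`, `Pr_cons` and `Cp_Pr_comm` (signs:
`Pr l₁ * Cp r = (-1)^{|r| wt l₁} Cp r * Pr l₁`, as `(-1)^n * (-1)^n = 1`).
-/

open MvPolynomial Function

namespace Pool.Agent.H39.OP

open Pool.Agent.H27.OP

variable {σ k : Type*} [Fintype σ] [Field k] {O : Type*} [Ring O] [Algebra k O] {d : ℕ}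
variable {I : Type*} [DecidableEq I] (S : Fk σ k O d)

private theorem Rows_sgn {O : Type*} [Ring O] (n : ℕ) (a : O) : a * (-1) ^ n = (-1) ^ n * a :=
  ((Commute.neg_one_left a).pow_left n).eq.symm

private theorem Rows_sq {O : Type*} [Ring O] (n : ℕ) : (-1 : O) ^ n * (-1) ^ n = 1 := by
  rw [← pow_add, ← two_mul, pow_mul, neg_one_sq, one_pow]

theorem m_Pr (a : MvPolynomial σ k) (y : I → MvPolynomial σ k)
    (l : List (Finset I × List (MvPolynomial σ k))) : S.m a * Pr S y l = Pr S y l * S.m a := by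
  induction l with
  | nil => rw [Pr_nil, mul_one, one_mul]
  | cons r l ih => rw [Pr_cons, ← mul_assoc, m_Cp, mul_assoc, ih, mul_assoc]

theorem Cp_Pr_comm (y y' : I → MvPolynomial σ k) (T : List (MvPolynomial σ k)) (R : Finset I)
    (l : List (Finset I × List (MvPolynomial σ k))) :
    Cp S y T R * Pr S y' l = (-1) ^ (R.card * wt l) * (Pr S y' l * Cp S y T R) := by
  induction l with
  | nil =>
    rw [Pr_nil, mul_one, one_mul]
    simp [wt]
  | cons r l ih =>
    rw [Pr_cons, wt_cons, ← mul_assoc, Cp_comm, mul_assoc, mul_assoc, ih, mul_add, pow_add]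
    rw [← mul_assoc (Cp S y' r.2 r.1) ((-1) ^ (R.card * wt l)), Rows_sgn]
    simp only [mul_assoc]

theorem Pr_move (y : I → MvPolynomial σ k) (l₁ l₂ : List (Finset I × List (MvPolynomial σ k)))
    (r : Finset I × List (MvPolynomial σ k)) :
    Pr S y (l₁ ++ r :: l₂)
      = (-1) ^ (r.1.card * wt l₁) * (Cp S y r.2 r.1 * Pr S y (l₁ ++ l₂)) := by
  rw [Pr_append, Pr_append, Pr_cons, ← mul_assoc (Cp S y r.2 r.1) (Pr S y l₁),
    Cp_Pr_comm S y y r.2 r.1 l₁]
  simp only [← mul_assoc]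
  rw [Rows_sq, one_mul]

theorem Pr_congr (y y' : I → MvPolynomial σ k) (l : List (Finset I × List (MvPolynomial σ k)))
    (h : ∀ r ∈ l, ∀ i ∈ r.1, y i = y' i) : Pr S y l = Pr S y' l := by
  induction l with
  | nil => rfl
  | cons r l ih =>
    rw [Pr_cons, Pr_cons, Cp_congr S y y' r.2 r.1 (h r List.mem_cons_self),
      ih fun r' hr' => h r' (List.mem_cons_of_mem _ hr')]

theorem del_Pr (y : I → MvPolynomial σ k) (l : List (Finset I × List (MvPolynomial σ k)))
    (h : ∀ r ∈ l, ∀ i ∈ r.1, ∀ u ∈ r.2, (y i * u).IsHomogeneous d) :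
    S.del * Pr S y l = (-1) ^ (wt l) * (Pr S y l * S.del) := by
  induction l with
  | nil =>
    rw [Pr_nil, mul_one, one_mul]
    simp [wt]
  | cons r l ih =>
    rw [Pr_cons, wt_cons, ← mul_assoc, del_Cp S y r.2 r.1 (h r List.mem_cons_self), mul_assoc,
      mul_assoc, ih fun r' hr' => h r' (List.mem_cons_of_mem _ hr'), pow_add]
    rw [← mul_assoc (Cp S y r.2 r.1) ((-1) ^ (wt l)), Rows_sgn]
    simp only [mul_assoc]

end Pool.Agent.H39.OP
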