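import Pool.Agent.H39.OP.UDefs

/-!
# Job OP-B2 : the polynomial ring has exact Koszul complexes

PROOF.  For `η : Finset (Fin r) → P` (`P = MvPolynomial (Fin r) ℂ`) put
`h η = ∑ s, aE ℂ s (fun J => pderiv s (η J))`.  As operators on `Finset (Fin r) → P`
(`m a` = pointwise multiplication by `a`, `T s` = pointwise `pderiv s`, both commute with `aE`, `aJ`:
see `lm`, `lm_aJ`, `lm_aE` in `Pool/Agent/H27/OP/Car.lean`), `dU = ∑ s, m (X s) * aJ s`,
`h = ∑ t, aE t * T t`, and
`dU * h + h * dU = ∑_{s,t} m (X s) * (aJ s * aE t) * T t + aE t * (T t * m (X s)) * aJ s`.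
With `aJ s * aE t = δ_{st} - aE t * aJ s` (`aJE`, `aJEs`) and
`T t * m (X s) = m (X s) * T t + δ_{st}` this is `∑ s, m (X s) * T s + ∑ s, aE s * aJ s`,
which is `(K + 1) + i` on families of forms of degree `K + 1` supported on the `J` of card `i`
(Euler: `IsHomogeneous.sum_X_mul_pderiv`; `sum_aE_aJ` in `Inst.lean`).
So if `dU η = 0`, `ξ = (K + 1 + i)⁻¹ • h η` works.
-/

open MvPolynomial

namespace Pool.Agent.H39.OP

open Pool.Agent.H27.OP

private noncomputable def ubaseM {r : ℕ} (s : Fin r) :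
    Module.End ℂ (Finset (Fin r) → MvPolynomial (Fin r) ℂ) :=
  lm ℂ r (LinearMap.mulLeft ℂ (X s))

private noncomputable def ubaseT {r : ℕ} (s : Fin r) :
    Module.End ℂ (Finset (Fin r) → MvPolynomial (Fin r) ℂ) :=
  lm ℂ r (pderiv s).toLinearMap

private lemma ubaseM_apply {r : ℕ} (s : Fin r) (f : Finset (Fin r) → MvPolynomial (Fin r) ℂ)
    (J : Finset (Fin r)) : ubaseM s f J = X s * f J := rfl

private lemma ubaseT_apply {r : ℕ} (s : Fin r) (f : Finset (Fin r) → MvPolynomial (Fin r) ℂ)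
    (J : Finset (Fin r)) : ubaseT s f J = pderiv s (f J) := rfl

private lemma ubase_TM {r : ℕ} (s t : Fin r) :
    ubaseT t * ubaseM s = ubaseM s * ubaseT t
      + (if s = t then (1 : Module.End ℂ (Finset (Fin r) → MvPolynomial (Fin r) ℂ)) else 0) := by
  classical
  refine LinearMap.ext fun f => funext fun J => ?_
  rw [LinearMap.add_apply, Pi.add_apply, Module.End.mul_apply, Module.End.mul_apply,
    ubaseT_apply, ubaseM_apply, ubaseM_apply, ubaseT_apply, Derivation.leibniz, pderiv_X]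
  by_cases h : s = t
  · subst h
    rw [if_pos rfl, Module.End.one_apply, Pi.single_eq_same, smul_eq_mul, smul_eq_mul, mul_one]
  · rw [if_neg h, LinearMap.zero_apply, Pi.zero_apply, Pi.single_eq_of_ne h, smul_zero,
      smul_eq_mul]

private lemma ubase_abs0 {O : Type*} [Ring O] (m j e t : O) (h1 : m * e = e * m)
    (h2 : t * j = j * t) (h3 : t * m = m * t) (h4 : j * e = -(e * j)) :
    m * j * (e * t) + e * t * (m * j) = 0 := by
  calc m * j * (e * t) + e * t * (m * j) = m * (j * e) * t + e * (t * m) * j := by noncomm_ring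
    _ = m * (-(e * j)) * t + e * (m * t) * j := by rw [h3, h4]
    _ = -(m * e * (j * t)) + (e * m) * (t * j) := by noncomm_ring
    _ = 0 := by rw [h1, h2, neg_add_cancel]

private lemma ubase_abs1 {O : Type*} [Ring O] (m j e t : O) (h1 : m * e = e * m)
    (h2 : t * j = j * t) (h3 : t * m = m * t + 1) (h4 : j * e = 1 - e * j) :
    m * j * (e * t) + e * t * (m * j) = m * t + e * j := by
  calc m * j * (e * t) + e * t * (m * j) = m * (j * e) * t + e * (t * m) * j := by noncomm_ring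
    _ = m * (1 - e * j) * t + e * (m * t + 1) * j := by rw [h3, h4]
    _ = m * t + e * j + (-(m * e * (j * t)) + (e * m) * (t * j)) := by noncomm_ring
    _ = m * t + e * j := by rw [h1, h2, neg_add_cancel, add_zero]

private lemma ubase_pair {r : ℕ} (s t : Fin r) :
    ubaseM s * aJ ℂ s * (aE ℂ t * ubaseT t) + aE ℂ t * ubaseT t * (ubaseM s * aJ ℂ s)
      = if s = t then ubaseM s * ubaseT s
        + (aE ℂ s * aJ ℂ s : Module.End ℂ (Finset (Fin r) → MvPolynomial (Fin r) ℂ)) else 0 := by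
  have hME : ubaseM s * aE ℂ t = aE ℂ t * ubaseM s := lm_aE _ _
  have hTJ : ubaseT t * aJ ℂ s = aJ ℂ s * ubaseT t := lm_aJ _ _
  have hTM := ubase_TM s t
  by_cases h : s = t
  · subst h
    rw [if_pos rfl] at hTM ⊢
    exact ubase_abs1 _ _ _ _ hME hTJ hTM (aJEs s)
  · rw [if_neg h] at hTM ⊢
    rw [add_zero] at hTM
    exact ubase_abs0 _ _ _ _ hME hTJ hTM (aJE h)

private noncomputable def ubaseD (r : ℕ) :
    Module.End ℂ (Finset (Fin r) → MvPolynomial (Fin r) ℂ) :=
  ∑ s : Fin r, ubaseM s * aJ ℂ s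

private noncomputable def ubaseH (r : ℕ) :
    Module.End ℂ (Finset (Fin r) → MvPolynomial (Fin r) ℂ) :=
  ∑ t : Fin r, aE ℂ t * ubaseT t

private lemma ubase_key {r : ℕ} :
    ubaseD r * ubaseH r + ubaseH r * ubaseD r
      = ∑ s : Fin r, (ubaseM s * ubaseT s
        + (aE ℂ s * aJ ℂ s : Module.End ℂ (Finset (Fin r) → MvPolynomial (Fin r) ℂ))) := by
  classical
  unfold ubaseD ubaseH
  rw [Finset.sum_mul_sum, Finset.sum_mul_sum, Finset.sum_comm (s := Finset.univ)
    (t := Finset.univ) (f := fun t s => aE ℂ t * ubaseT t * (ubaseM s * aJ ℂ s)),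
    ← Finset.sum_add_distrib]
  refine Finset.sum_congr rfl fun s _ => ?_
  rw [← Finset.sum_add_distrib, Finset.sum_congr rfl fun t _ => ubase_pair s t,
    Finset.sum_ite_eq, if_pos (Finset.mem_univ _)]

private lemma ubase_dU {r : ℕ} (η : Finset (Fin r) → MvPolynomial (Fin r) ℂ) :
    dU η = ubaseD r η := by
  funext J
  unfold ubaseD
  rw [LinearMap.sum_apply, Finset.sum_apply]
  rfl

theorem lin_base {r : ℕ} :
    LinM r (𝔽 := MvPolynomial (Fin r) ℂ) (fun K => homogeneousSubmodule (Fin r) ℂ K) 0 := by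
  intro i K _ η hη hc h0
  have hG : η ∈ GK (Fin r) ℂ r i (K + 1) := by
    intro J
    exact ⟨(mem_homogeneousSubmodule _ _).mp (hη J), hc J⟩
  have hT : ∀ t : Fin r, ubaseT t η ∈ GK (Fin r) ℂ r i K := by
    intro t J
    rw [ubaseT_apply]
    refine ⟨?_, fun hJ => by rw [hc J hJ, map_zero]⟩
    have := (hG J).1.pderiv (i := t)
    rwa [Nat.add_sub_cancel] at this
  have hH : ubaseH r η ∈ GK (Fin r) ℂ r (i + 1) K := by
    unfold ubaseH
    rw [LinearMap.sum_apply]
    exact Submodule.sum_mem _ fun t _ => aE_GK (hT t) t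
  have hne : ((K : ℂ) + 1 + i) ≠ 0 := by
    have : ((K + 1 + i : ℕ) : ℂ) ≠ 0 := Nat.cast_ne_zero.mpr (by omega)
    push_cast at this
    exact this
  refine ⟨((K : ℂ) + 1 + i)⁻¹ • ubaseH r η, ?_, ?_, ?_⟩
  · intro J
    exact (mem_homogeneousSubmodule _ _).mpr ((Submodule.smul_mem _ _ hH) J).1
  · intro J hJ
    exact ((Submodule.smul_mem (GK (Fin r) ℂ r (i + 1) K) ((K : ℂ) + 1 + i)⁻¹ hH) J).2 hJ
  · rw [ubase_dU, map_smul]
    have hk := congrArg (fun A : Module.End ℂ (Finset (Fin r) → MvPolynomial (Fin r) ℂ) => A η)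
      (ubase_key (r := r))
    simp only [LinearMap.add_apply, Module.End.mul_apply] at hk
    rw [← ubase_dU η, h0, map_zero, add_zero] at hk
    rw [hk, Finset.sum_add_distrib, LinearMap.add_apply, LinearMap.sum_apply, LinearMap.sum_apply]
    have h5 : ∑ s : Fin r, (aE ℂ s * aJ ℂ s :
        Module.End ℂ (Finset (Fin r) → MvPolynomial (Fin r) ℂ)) η = (i : ℂ) • η :=
      sum_aE_aJ hG
    rw [h5]
    have h6 : ∑ s : Fin r, (ubaseM s * ubaseT s) η = ((K : ℂ) + 1) • η := by
      funext J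
      rw [Finset.sum_apply, Pi.smul_apply]
      have h7 := (hG J).1.sum_X_mul_pderiv
      have h8 : ((K : ℂ) + 1) • η J = (K + 1) • η J := by
        rw [← Nat.cast_smul_eq_nsmul ℂ]
        push_cast
        rfl
      rw [h8, ← h7]
      rfl
    rw [h6, ← add_smul, smul_smul, inv_mul_cancel₀ hne, one_smul]

end Pool.Agent.H39.OP
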