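import Pool.Agent.H27.OP.Inst

/-!
# MP_85ff8f_ag: Koszul complexes in the variables with coefficients in a graded module

`dU` is the Koszul differential of `X 0, …, X (r-1)` on `Finset (Fin r) → 𝔽`, `𝔽` a module over
`MvPolynomial (Fin r) ℂ`.  `LinM r M ρ`: the graded module `M` (a family of `ℂ`-subspaces of `𝔽`)
has exact Koszul complexes `Λ^{i+1} U ⊗ M_K → Λ^i U ⊗ M_{K+1} → Λ^{i-1} U ⊗ M_{K+2}` for `K ≥ ρ`.
-/

open MvPolynomial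

namespace Pool.Agent.H39.OP

open Pool.Agent.H27.OP

section
variable {r : ℕ} {𝔽 : Type*} [AddCommGroup 𝔽] [Module ℂ 𝔽]
  [Module (MvPolynomial (Fin r) ℂ) 𝔽] [IsScalarTower ℂ (MvPolynomial (Fin r) ℂ) 𝔽]

/-- the Koszul differential of the variables -/
noncomputable def dU (η : Finset (Fin r) → 𝔽) : Finset (Fin r) → 𝔽 :=
  fun J => ∑ s : Fin r, (X s : MvPolynomial (Fin r) ℂ) • (aJ ℂ s η) J

/-- `M` is a graded module -/
def GradM (r : ℕ) {𝔽 : Type*} [AddCommGroup 𝔽] [Module ℂ 𝔽]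
    [Module (MvPolynomial (Fin r) ℂ) 𝔽] (M : ℕ → Submodule ℂ 𝔽) : Prop :=
  ∀ (K e : ℕ) (g : MvPolynomial (Fin r) ℂ) (m : 𝔽), g.IsHomogeneous e → m ∈ M K →
    g • m ∈ M (K + e)

/-- exactness of the Koszul complexes above degree `ρ` -/
def LinM (r : ℕ) {𝔽 : Type*} [AddCommGroup 𝔽] [Module ℂ 𝔽]
    [Module (MvPolynomial (Fin r) ℂ) 𝔽] (M : ℕ → Submodule ℂ 𝔽) (ρ : ℕ) : Prop :=
  ∀ (i K : ℕ), ρ ≤ K → ∀ η : Finset (Fin r) → 𝔽, (∀ J, η J ∈ M (K + 1)) →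
    (∀ J, J.card ≠ i → η J = 0) → dU η = 0 →
    ∃ ξ : Finset (Fin r) → 𝔽, (∀ J, ξ J ∈ M K) ∧ (∀ J, J.card ≠ i + 1 → ξ J = 0) ∧ dU ξ = η

/-- relations `∑ φ_j v_j = 0` with coefficients in `M` -/
def NM {N : ℕ} (φ : Fin N → MvPolynomial (Fin r) ℂ) (M : ℕ → Submodule ℂ 𝔽) (K : ℕ) :
    Submodule ℂ (Fin N → 𝔽) where
  carrier := {v | (∀ j, v j ∈ M K) ∧ ∑ j, φ j • v j = 0}
  add_mem' := by
    rintro v w ⟨h1, h2⟩ ⟨h3, h4⟩
    refine ⟨fun j => add_mem (h1 j) (h3 j), ?_⟩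
    simp only [Pi.add_apply, smul_add, Finset.sum_add_distrib, h2, h4, add_zero]
  zero_mem' := ⟨fun _ => zero_mem _, by simp⟩
  smul_mem' := by
    rintro t v ⟨h1, h2⟩
    refine ⟨fun j => Submodule.smul_mem _ _ (h1 j), ?_⟩
    have h3 : ∀ j ∈ (Finset.univ : Finset (Fin N)), φ j • (t • v) j = t • (φ j • v j) := by
      intro j _
      rw [Pi.smul_apply, ← algebraMap_smul (MvPolynomial (Fin r) ℂ) t (v j),
        ← algebraMap_smul (MvPolynomial (Fin r) ℂ) t (φ j • v j), smul_smul, smul_smul, mul_comm]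
    rw [Finset.sum_congr rfl h3, ← Finset.smul_sum, h2, smul_zero]

lemma mem_NM {N : ℕ} {φ : Fin N → MvPolynomial (Fin r) ℂ} {M : ℕ → Submodule ℂ 𝔽} {K : ℕ}
    {v : Fin N → 𝔽} : v ∈ NM φ M K ↔ (∀ j, v j ∈ M K) ∧ ∑ j, φ j • v j = 0 := Iff.rfl

end

end Pool.Agent.H39.OP
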